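import Mathlib

/-!
Synchronisation of walks on a line: discrete mountain climbing, the relation `Syn` (an equivalence
relation, compatible with concatenation), and its finiteness: every walk in an interval of length `n`
is synchronised to a walk of bounded length.
-/

namespace Pool.Agent.Lib.MP_40f35d_gt.Gs

open Relation

variable {α : Type*}

/-- One step of a synchronisation of `w` on `[a, b]` and `w'` on `[a', b']`. -/
def SynSt (w : ℕ → α) (a b : ℕ) (w' : ℕ → α) (a' b' : ℕ) (c d : ℕ × ℕ) : Prop :=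
  (a ≤ c.1 ∧ c.1 ≤ b ∧ a' ≤ c.2 ∧ c.2 ≤ b' ∧ w c.1 = w' c.2) ∧
    (a ≤ d.1 ∧ d.1 ≤ b ∧ a' ≤ d.2 ∧ d.2 ≤ b' ∧ w d.1 = w' d.2) ∧
    (c.1 ≤ d.1 + 1 ∧ d.1 ≤ c.1 + 1 ∧ c.2 ≤ d.2 + 1 ∧ d.2 ≤ c.2 + 1)

/-- The walks `w` on `[a, b]` and `w'` on `[a', b']` can be synchronised from start to end. -/
def Syn (w : ℕ → α) (a b : ℕ) (w' : ℕ → α) (a' b' : ℕ) : Prop :=
  a ≤ b ∧ a' ≤ b' ∧ w a = w' a' ∧ ReflTransGen (SynSt w a b w' a' b') (a, a') (b, b')

theorem SynSt.symm' {w : ℕ → α} {a b : ℕ} {w' : ℕ → α} {a' b' : ℕ} {c d : ℕ × ℕ}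
    (h : SynSt w a b w' a' b' c d) : SynSt w a b w' a' b' d c :=
  ⟨h.2.1, h.1, h.2.2.2.1, h.2.2.1, h.2.2.2.2.2, h.2.2.2.2.1⟩

theorem Syn.refl {w : ℕ → α} {a b : ℕ} (h : a ≤ b) : Syn w a b w a b := by
  refine ⟨h, h, rfl, ?_⟩
  have key : ∀ k, a + k ≤ b → ReflTransGen (SynSt w a b w a b) (a, a) (a + k, a + k) := by
    intro k
    induction k with
    | zero => intro _; exact ReflTransGen.refl
    | succ k ih =>
      intro hk
      refine (ih (by omega)).tail ?_
      refine ⟨⟨by simp, by simp; omega, by simp, by simp; omega, rfl⟩,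
        ⟨by simp, by simp; omega, by simp, by simp; omega, rfl⟩, ?_⟩
      simp only
      omega
  have h1 := key (b - a) (by omega)
  rwa [Nat.add_sub_cancel' h] at h1

theorem Syn.symm {w : ℕ → α} {a b : ℕ} {w' : ℕ → α} {a' b' : ℕ} (h : Syn w a b w' a' b') :
    Syn w' a' b' w a b := by
  refine ⟨h.2.1, h.1, h.2.2.1.symm, ?_⟩
  refine h.2.2.2.lift (fun c => (c.2, c.1)) ?_
  rintro c d ⟨⟨h1, h2, h3, h4, h5⟩, ⟨h6, h7, h8, h9, h10⟩, h11, h12, h13, h14⟩
  exact ⟨⟨h3, h4, h1, h2, h5.symm⟩, ⟨h8, h9, h6, h7, h10.symm⟩, h13, h14, h11, h12⟩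

theorem rtg_mono {β : Type*} {r p : β → β → Prop} (h : ∀ x y, r x y → p x y) {x y : β}
    (hxy : ReflTransGen r x y) : ReflTransGen p x y := by
  induction hxy with
  | refl => exact ReflTransGen.refl
  | tail _ h1 ih => exact ih.tail (h _ _ h1)

/-- Concatenation. -/
theorem Syn.append {w : ℕ → α} {a b c : ℕ} {w' : ℕ → α} {a' b' c' : ℕ}
    (h : Syn w a b w' a' b') (h' : Syn w b c w' b' c') : Syn w a c w' a' c' := by
  refine ⟨h.1.trans h'.1, h.2.1.trans h'.2.1, h.2.2.1, ?_⟩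
  refine ReflTransGen.trans (rtg_mono ?_ h.2.2.2) (rtg_mono ?_ h'.2.2.2)
  · rintro x y ⟨⟨h1, h2, h3, h4, h5⟩, ⟨h6, h7, h8, h9, h10⟩, h11⟩
    have := h'.1
    have := h'.2.1
    exact ⟨⟨h1, by omega, h3, by omega, h5⟩, ⟨h6, by omega, h8, by omega, h10⟩, h11⟩
  · rintro x y ⟨⟨h1, h2, h3, h4, h5⟩, ⟨h6, h7, h8, h9, h10⟩, h11⟩
    have := h.1
    have := h.2.1
    exact ⟨⟨by omega, h2, by omega, h4, h5⟩, ⟨by omega, h7, by omega, h9, h10⟩, h11⟩

/-- Translation of the parameters, and change of the functions outside the intervals. -/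
theorem Syn.shift {w v : ℕ → α} {a b : ℕ} {w' v' : ℕ → α} {a' b' : ℕ} {e e' : ℕ}
    (h : Syn w a b w' a' b') (hv : ∀ i, a ≤ i → i ≤ b → v (i + e) = w i)
    (hv' : ∀ i, a' ≤ i → i ≤ b' → v' (i + e') = w' i) :
    Syn v (a + e) (b + e) v' (a' + e') (b' + e') := by
  obtain ⟨h1, h2, h3, h4⟩ := h
  refine ⟨by omega, by omega, ?_, ?_⟩
  · rw [hv a le_rfl h1, hv' a' le_rfl h2, h3]
  · refine h4.lift (fun c => (c.1 + e, c.2 + e')) ?_
    rintro x y ⟨⟨g1, g2, g3, g4, g5⟩, ⟨g6, g7, g8, g9, g10⟩, g11, g12, g13, g14⟩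
    refine ⟨⟨by simp only; omega, by simp only; omega, by simp only; omega,
      by simp only; omega, ?_⟩, ⟨by simp only; omega, by simp only; omega,
      by simp only; omega, by simp only; omega, ?_⟩, ?_⟩
    · simp only
      rw [hv _ g1 g2, hv' _ g3 g4, g5]
    · simp only
      rw [hv _ g6 g7, hv' _ g8 g9, g10]
    · simp only
      omega

/-- A chain of a relation as a sequence. -/
theorem exists_seq {β : Type*} {r : β → β → Prop} {x y : β} (h : ReflTransGen r x y) :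
    ∃ (K : ℕ) (f : ℕ → β), f 0 = x ∧ f K = y ∧ ∀ k, k < K → r (f k) (f (k + 1)) := by
  induction h with
  | refl => exact ⟨0, fun _ => x, rfl, rfl, fun k hk => absurd hk (Nat.not_lt_zero k)⟩
  | @tail b c _ h1 ih =>
    obtain ⟨K, f, h2, h3, h4⟩ := ih
    refine ⟨K + 1, fun k => if k ≤ K then f k else c, by simp [h2], by simp, fun k hk => ?_⟩
    rcases Nat.lt_or_ge k K with h5 | h5
    · simp only
      rw [if_pos h5.le, if_pos (by omega)]
      exact h4 k h5
    · have h6 : k = K := by omega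
      subst h6
      simp only
      rw [if_pos le_rfl, if_neg (by omega), h3]
      exact h1

/-- A synchronisation as a pair of sequences. -/
theorem Syn.seq {w : ℕ → α} {a b : ℕ} {w' : ℕ → α} {a' b' : ℕ} (h : Syn w a b w' a' b') :
    ∃ (K : ℕ) (t r : ℕ → ℕ), t 0 = a ∧ r 0 = a' ∧ t K = b ∧ r K = b' ∧
      (∀ k, k ≤ K → a ≤ t k ∧ t k ≤ b ∧ a' ≤ r k ∧ r k ≤ b' ∧ w (t k) = w' (r k)) ∧
      ∀ k, k < K → t k ≤ t (k + 1) + 1 ∧ t (k + 1) ≤ t k + 1 ∧ r k ≤ r (k + 1) + 1 ∧
        r (k + 1) ≤ r k + 1 := by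
  obtain ⟨h1, h2, h3, h4⟩ := h
  obtain ⟨K, f, h5, h6, h7⟩ := exists_seq h4
  refine ⟨K, fun k => (f k).1, fun k => (f k).2, by simp [h5], by simp [h5], by simp [h6],
    by simp [h6], fun k hk => ?_, fun k hk => (h7 k hk).2.2⟩
  rcases Nat.lt_or_ge k K with h8 | h8
  · exact (h7 k h8).1
  · have h9 : k = K := by omega
    subst h9
    rcases Nat.eq_zero_or_pos k with h10 | h10
    · subst h10
      rw [h5] at h6
      simp only [h5]
      rw [Prod.mk.injEq] at h6
      exact ⟨le_rfl, by omega, le_rfl, by omega, h3⟩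
    · have h11 := (h7 (k - 1) (by omega)).2.1
      rwa [Nat.sub_add_cancel h10] at h11

/-- From a pair of sequences to a synchronisation. -/
theorem Syn.of_seq {w : ℕ → α} {a b : ℕ} {w' : ℕ → α} {a' b' : ℕ} {K : ℕ} {t r : ℕ → ℕ}
    (h1 : t 0 = a) (h2 : r 0 = a') (h3 : t K = b) (h4 : r K = b')
    (h5 : ∀ k, k ≤ K → a ≤ t k ∧ t k ≤ b ∧ a' ≤ r k ∧ r k ≤ b' ∧ w (t k) = w' (r k))
    (h6 : ∀ k, k < K → t k ≤ t (k + 1) + 1 ∧ t (k + 1) ≤ t k + 1 ∧ r k ≤ r (k + 1) + 1 ∧
        r (k + 1) ≤ r k + 1) : Syn w a b w' a' b' := by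
  have h7 := h5 0 (Nat.zero_le _)
  have h8 := h5 K le_rfl
  refine ⟨by omega, by omega, ?_, ?_⟩
  · have h9 := h7.2.2.2.2
    rwa [h1, h2] at h9
  · have key : ∀ k, k ≤ K →
        ReflTransGen (SynSt w a b w' a' b') (a, a') (t k, r k) := by
      intro k
      induction k with
      | zero =>
        intro _
        rw [h1, h2]
      | succ k ih =>
        intro hk
        exact (ih (by omega)).tail ⟨h5 k (by omega), h5 (k + 1) hk, h6 k (by omega)⟩
    have h9 := key K le_rfl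
    rwa [h3, h4] at h9

section climb

variable {u v : ℕ → ℤ} {M R : ℕ} {lo hi : ℤ}

open Classical in
/-- The indicator of the component of the start. -/
private noncomputable def mz (u v : ℕ → ℤ) (M R : ℕ) (t r : ℕ) : ZMod 2 :=
  if ReflTransGen (SynSt u 0 M v 0 R) (0, 0) (t, r) then 1 else 0

/-- The indicator of `v r < u t`. -/
private def mg (u v : ℕ → ℤ) (t r : ℕ) : ZMod 2 := if v r < u t then 1 else 0

/-- The marking of an edge. -/
private noncomputable def mm (u v : ℕ → ℤ) (M R : ℕ) (t r t' r' : ℕ) : ZMod 2 :=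
  mz u v M R t r * mg u v t' r' + mg u v t r * mz u v M R t' r'

private theorem mz_eq {t r t' r' : ℕ} (ht : t ≤ M) (hr : r ≤ R)
    (ht' : t' ≤ M) (hr' : r' ≤ R) (h1 : u t = v r) (h2 : u t' = v r')
    (h3 : t ≤ t' + 1) (h4 : t' ≤ t + 1) (h5 : r ≤ r' + 1) (h6 : r' ≤ r + 1) :
    mz u v M R t r = mz u v M R t' r' := by
  unfold mz
  have h7 : SynSt u 0 M v 0 R (t, r) (t', r') :=
    ⟨⟨Nat.zero_le _, ht, Nat.zero_le _, hr, h1⟩, ⟨Nat.zero_le _, ht', Nat.zero_le _, hr', h2⟩,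
      h3, h4, h5, h6⟩
  by_cases h : ReflTransGen (SynSt u 0 M v 0 R) (0, 0) (t, r)
  · rw [if_pos h, if_pos (h.tail h7)]
  · rw [if_neg h, if_neg fun h' => h (h'.tail h7.symm')]

private theorem mz_zero (h0 : u 0 = v 0) {t r : ℕ} (h : u t ≠ v r) : mz u v M R t r = 0 := by
  unfold mz
  refine if_neg fun h' => h ?_
  rcases ReflTransGen.cases_tail h' with h1 | ⟨c, _, h1⟩
  · rw [Prod.mk.injEq] at h1
    rw [h1.1, h1.2]
    exact h0
  · exact h1.2.1.2.2.2.2

private theorem two_eq : (2 : ZMod 2) = 0 := by decide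

/-- Around a square the marks cancel. -/
private theorem mm_square (h0 : u 0 = v 0) (hu : ∀ t, t < M → |u (t + 1) - u t| ≤ 1)
    (hv : ∀ r, r < R → |v (r + 1) - v r| ≤ 1) {t r : ℕ} (ht : t < M) (hr : r < R) :
    mm u v M R t r (t + 1) r + mm u v M R (t + 1) r (t + 1) (r + 1) +
      mm u v M R t (r + 1) (t + 1) (r + 1) + mm u v M R t r t (r + 1) = 0 := by
  obtain ⟨ζ, hζ⟩ : ∃ ζ : ZMod 2, ∀ t' r', t ≤ t' → t' ≤ t + 1 → r ≤ r' → r' ≤ r + 1 →
      mz u v M R t' r' = if u t' = v r' then ζ else 0 := by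
    by_cases h : ∃ t' r', t ≤ t' ∧ t' ≤ t + 1 ∧ r ≤ r' ∧ r' ≤ r + 1 ∧ u t' = v r'
    · obtain ⟨t', r', h1, h2, h3, h4, h5⟩ := h
      refine ⟨mz u v M R t' r', fun t'' r'' h6 h7 h8 h9 => ?_⟩
      by_cases h10 : u t'' = v r''
      · rw [if_pos h10]
        exact mz_eq (by omega) (by omega) (by omega) (by omega) h10 h5 (by omega) (by omega)
          (by omega) (by omega)
      · rw [if_neg h10]
        exact mz_zero h0 h10
    · refine ⟨0, fun t'' r'' h6 h7 h8 h9 => ?_⟩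
      have h10 : ¬ u t'' = v r'' := fun h10 => h ⟨t'', r'', h6, h7, h8, h9, h10⟩
      rw [if_neg h10]
      exact mz_zero h0 h10
  have hu1 := abs_le.1 (hu t ht)
  have hv1 := abs_le.1 (hv r hr)
  have edge : ∀ t₁ r₁ t₂ r₂, t ≤ t₁ → t₁ ≤ t + 1 → r ≤ r₁ → r₁ ≤ r + 1 → t ≤ t₂ →
      t₂ ≤ t + 1 → r ≤ r₂ → r₂ ≤ r + 1 → u t₁ - v r₁ ≤ u t₂ - v r₂ + 1 →
      u t₂ - v r₂ ≤ u t₁ - v r₁ + 1 →
      mm u v M R t₁ r₁ t₂ r₂ = ζ * (mg u v t₁ r₁ + mg u v t₂ r₂) := by
    intro t₁ r₁ t₂ r₂ h1 h2 h3 h4 h5 h6 h7 h8 h9 h10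
    unfold mm mg
    rw [hζ t₁ r₁ h1 h2 h3 h4, hζ t₂ r₂ h5 h6 h7 h8]
    split_ifs <;> first
      | (exfalso; omega)
      | ring1
      | linear_combination (-ζ) * two_eq
  rw [edge t r (t + 1) r (by omega) (by omega) (by omega) (by omega) (by omega) (by omega)
      (by omega) (by omega) (by omega) (by omega),
    edge (t + 1) r (t + 1) (r + 1) (by omega) (by omega) (by omega) (by omega) (by omega)
      (by omega) (by omega) (by omega) (by omega) (by omega),
    edge t (r + 1) (t + 1) (r + 1) (by omega) (by omega) (by omega) (by omega) (by omega)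
      (by omega) (by omega) (by omega) (by omega) (by omega),
    edge t r t (r + 1) (by omega) (by omega) (by omega) (by omega) (by omega)
      (by omega) (by omega) (by omega) (by omega) (by omega)]
  linear_combination (ζ * (mg u v t r + mg u v (t + 1) r + mg u v (t + 1) (r + 1) +
    mg u v t (r + 1))) * two_eq

private theorem telesc (f : ℕ → ZMod 2) (n : ℕ) :
    ∑ i ∈ Finset.range n, (f i + f (i + 1)) = f 0 + f n := by
  induction n with
  | zero =>
    rw [Finset.sum_range_zero]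
    linear_combination (-f 0) * two_eq
  | succ n ih =>
    rw [Finset.sum_range_succ, ih]
    linear_combination (f n) * two_eq

/-- In the region `v ≤ u` the marks are the differences of the indicator. -/
private theorem mm_pos (h0 : u 0 = v 0) {t r t' r' : ℕ} (ht : t ≤ M) (hr : r ≤ R)
    (ht' : t' ≤ M) (hr' : r' ≤ R) (h1 : v r ≤ u t) (h2 : v r' ≤ u t')
    (h3 : t ≤ t' + 1) (h4 : t' ≤ t + 1) (h5 : r ≤ r' + 1) (h6 : r' ≤ r + 1) :
    mm u v M R t r t' r' = mz u v M R t r + mz u v M R t' r' := by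
  unfold mm mg
  by_cases h7 : u t = v r
  · by_cases h8 : u t' = v r'
    · rw [if_neg (not_lt.2 h8.le), if_neg (not_lt.2 h7.le),
        mz_eq ht hr ht' hr' h7 h8 h3 h4 h5 h6]
      linear_combination (-mz u v M R t' r') * two_eq
    · rw [if_pos (lt_of_le_of_ne h2 (Ne.symm h8)), if_neg (not_lt.2 h7.le), mz_zero h0 h8]
      ring
  · by_cases h8 : u t' = v r'
    · rw [if_neg (not_lt.2 h8.le), if_pos (lt_of_le_of_ne h1 (Ne.symm h7)), mz_zero h0 h7]
      ring
    · rw [mz_zero h0 h7, mz_zero h0 h8]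
      ring

private theorem mm_neg {t r t' r' : ℕ} (h1 : u t ≤ v r) (h2 : u t' ≤ v r') :
    mm u v M R t r t' r' = 0 := by
  unfold mm mg
  rw [if_neg (by omega), if_neg (by omega)]
  ring

private theorem climb0 (hu : ∀ t, t < M → |u (t + 1) - u t| ≤ 1)
    (hv : ∀ r, r < R → |v (r + 1) - v r| ≤ 1) (hur : ∀ t, t ≤ M → lo ≤ u t ∧ u t ≤ hi)
    (hvr : ∀ r, r ≤ R → lo ≤ v r ∧ v r ≤ hi) (h1 : u 0 = lo) (h2 : u M = hi) (h3 : v 0 = lo)
    (h4 : v R = hi) : Syn u 0 M v 0 R := by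
  have h0 : u 0 = v 0 := by rw [h1, h3]
  have hS : ∀ t, t ≤ M → ∑ r ∈ Finset.range R, mm u v M R t r t (r + 1) =
      ∑ i ∈ Finset.range t, mm u v M R i 0 (i + 1) 0 := by
    intro t
    induction t with
    | zero =>
      intro _
      rw [Finset.sum_range_zero]
      refine Finset.sum_eq_zero fun r hr => mm_neg ?_ ?_
      · rw [h1]
        exact (hvr r (Finset.mem_range.1 hr).le).1
      · rw [h1]
        exact (hvr (r + 1) (Finset.mem_range.1 hr)).1
    | succ t ih =>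
      intro ht
      rw [Finset.sum_range_succ, ← ih (by omega)]
      have h5 : ∑ r ∈ Finset.range R, mm u v M R (t + 1) r (t + 1) (r + 1) =
          ∑ r ∈ Finset.range R, mm u v M R t r t (r + 1) +
            ∑ r ∈ Finset.range R,
              (mm u v M R t r (t + 1) r + mm u v M R t (r + 1) (t + 1) (r + 1)) := by
        rw [← Finset.sum_add_distrib]
        refine Finset.sum_congr rfl fun r hr => ?_
        have h6 := mm_square h0 hu hv (show t < M by omega) (Finset.mem_range.1 hr)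
        linear_combination h6 - (mm u v M R t r t (r + 1) + mm u v M R t r (t + 1) r +
          mm u v M R t (r + 1) (t + 1) (r + 1)) * two_eq
      have h7 : mm u v M R t R (t + 1) R = 0 := by
        refine mm_neg ?_ ?_
        · rw [h4]
          exact (hur t (by omega)).2
        · rw [h4]
          exact (hur (t + 1) ht).2
      rw [h5, telesc (fun r => mm u v M R t r (t + 1) r), h7, add_zero]
  have h5 := hS M le_rfl
  have h6 : ∑ r ∈ Finset.range R, mm u v M R M r M (r + 1) =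
      mz u v M R M 0 + mz u v M R M R := by
    rw [← telesc (fun r => mz u v M R M r)]
    refine Finset.sum_congr rfl fun r hr => ?_
    have h7 := Finset.mem_range.1 hr
    refine mm_pos h0 le_rfl (by omega) le_rfl (by omega) ?_ ?_ (by omega) (by omega)
      (by omega) (by omega)
    · rw [h2]
      exact (hvr r (by omega)).2
    · rw [h2]
      exact (hvr (r + 1) (by omega)).2
  have h7 : ∑ i ∈ Finset.range M, mm u v M R i 0 (i + 1) 0 =
      mz u v M R 0 0 + mz u v M R M 0 := by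
    rw [← telesc (fun t => mz u v M R t 0)]
    refine Finset.sum_congr rfl fun t ht => ?_
    have h8 := Finset.mem_range.1 ht
    refine mm_pos h0 (by omega) (by omega) (by omega) (by omega) ?_ ?_ (by omega) (by omega)
      (by omega) (by omega)
    · rw [h3]
      exact (hur t (by omega)).1
    · rw [h3]
      exact (hur (t + 1) (by omega)).1
  rw [h6, h7] at h5
  have h8 : mz u v M R 0 0 = 1 := if_pos ReflTransGen.refl
  have h9 : mz u v M R M R = 1 := by
    rw [h8] at h5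
    linear_combination h5
  refine ⟨Nat.zero_le _, Nat.zero_le _, h0, ?_⟩
  by_contra h10
  have h11 : mz u v M R M R = 0 := if_neg h10
  rw [h11] at h9
  exact absurd h9 (by decide)

end climb

/-- DISCRETE MOUNTAIN CLIMBING. Two walks from `lo` to `hi` inside `[lo, hi]` can be synchronised. -/
theorem climb {u v : ℕ → ℤ} {a b a' b' : ℕ} {lo hi : ℤ} (hab : a ≤ b) (hab' : a' ≤ b')
    (hu : ∀ t, a ≤ t → t < b → |u (t + 1) - u t| ≤ 1)
    (hv : ∀ r, a' ≤ r → r < b' → |v (r + 1) - v r| ≤ 1)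
    (hur : ∀ t, a ≤ t → t ≤ b → lo ≤ u t ∧ u t ≤ hi)
    (hvr : ∀ r, a' ≤ r → r ≤ b' → lo ≤ v r ∧ v r ≤ hi)
    (h1 : u a = lo) (h2 : u b = hi) (h3 : v a' = lo) (h4 : v b' = hi) : Syn u a b v a' b' := by
  have h5 : Syn (fun t => u (t + a)) 0 (b - a) (fun r => v (r + a')) 0 (b' - a') := by
    refine climb0 (lo := lo) (hi := hi) ?_ ?_ ?_ ?_ ?_ ?_ ?_ ?_
    · intro t ht
      have h := hu (t + a) (by omega) (by omega)
      rwa [show t + a + 1 = t + 1 + a by ring] at h
    · intro r hr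
      have h := hv (r + a') (by omega) (by omega)
      rwa [show r + a' + 1 = r + 1 + a' by ring] at h
    · intro t ht
      exact hur (t + a) (by omega) (by omega)
    · intro r hr
      exact hvr (r + a') (by omega) (by omega)
    · simpa only [Nat.zero_add] using h1
    · simpa only [Nat.sub_add_cancel hab] using h2
    · simpa only [Nat.zero_add] using h3
    · simpa only [Nat.sub_add_cancel hab'] using h4
  have h6 := h5.shift (v := u) (v' := v) (e := a) (e' := a') (fun i _ _ => rfl)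
    (fun i _ _ => rfl)
  rwa [Nat.zero_add, Nat.zero_add, Nat.sub_add_cancel hab, Nat.sub_add_cancel hab'] at h6

/-- Mountain climbing downwards. -/
theorem climb' {u v : ℕ → ℤ} {a b a' b' : ℕ} {lo hi : ℤ} (hab : a ≤ b) (hab' : a' ≤ b')
    (hu : ∀ t, a ≤ t → t < b → |u (t + 1) - u t| ≤ 1)
    (hv : ∀ r, a' ≤ r → r < b' → |v (r + 1) - v r| ≤ 1)
    (hur : ∀ t, a ≤ t → t ≤ b → lo ≤ u t ∧ u t ≤ hi)
    (hvr : ∀ r, a' ≤ r → r ≤ b' → lo ≤ v r ∧ v r ≤ hi)
    (h1 : u a = hi) (h2 : u b = lo) (h3 : v a' = hi) (h4 : v b' = lo) : Syn u a b v a' b' := by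
  have h5 : Syn (fun t => -u t) a b (fun r => -v r) a' b' := by
    refine climb (lo := -hi) (hi := -lo) hab hab' ?_ ?_ ?_ ?_ ?_ ?_ ?_ ?_
    · intro t ht ht'
      have h := hu t ht ht'
      rw [← abs_neg] at h
      rwa [show -u (t + 1) - -u t = -(u (t + 1) - u t) by ring]
    · intro t ht ht'
      have h := hv t ht ht'
      rw [← abs_neg] at h
      rwa [show -v (t + 1) - -v t = -(v (t + 1) - v t) by ring]
    · intro t ht ht'
      have h := hur t ht ht'
      exact ⟨neg_le_neg h.2, neg_le_neg h.1⟩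
    · intro t ht ht'
      have h := hvr t ht ht'
      exact ⟨neg_le_neg h.2, neg_le_neg h.1⟩
    · exact congrArg Neg.neg h1
    · exact congrArg Neg.neg h2
    · exact congrArg Neg.neg h3
    · exact congrArg Neg.neg h4
  refine ⟨h5.1, h5.2.1, by rw [h1, h3], ?_⟩
  refine rtg_mono ?_ h5.2.2.2
  rintro x y ⟨⟨g1, g2, g3, g4, g5⟩, ⟨g6, g7, g8, g9, g10⟩, g11⟩
  exact ⟨⟨g1, g2, g3, g4, neg_injective g5⟩, ⟨g6, g7, g8, g9, neg_injective g10⟩, g11⟩

/-- Transitivity, by mountain climbing in the parameter of the middle walk. -/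
theorem Syn.trans {w : ℕ → α} {a b : ℕ} {w' : ℕ → α} {a' b' : ℕ} {w'' : ℕ → α} {a'' b'' : ℕ}
    (h : Syn w a b w' a' b') (h' : Syn w' a' b' w'' a'' b'') : Syn w a b w'' a'' b'' := by
  obtain ⟨K, t, r, h1, h2, h3, h4, h5, h6⟩ := h.seq
  obtain ⟨K', r', s, g1, g2, g3, g4, g5, g6⟩ := h'.seq
  have hc : Syn (fun k => (r k : ℤ)) 0 K (fun k => (r' k : ℤ)) 0 K' := by
    refine climb (lo := (a' : ℤ)) (hi := (b' : ℤ)) (Nat.zero_le _) (Nat.zero_le _) ?_ ?_ ?_ ?_
      ?_ ?_ ?_ ?_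
    · intro k _ hk
      have h7 := h6 k hk
      rw [abs_le]
      constructor <;> omega
    · intro k _ hk
      have h7 := g6 k hk
      rw [abs_le]
      constructor <;> omega
    · intro k _ hk
      have h7 := h5 k hk
      constructor <;> exact_mod_cast (by omega)
    · intro k _ hk
      have h7 := g5 k hk
      constructor <;> exact_mod_cast (by omega)
    · simp only [h2]
    · simp only [h4]
    · simp only [g1]
    · simp only [g3]
  obtain ⟨J, p, q, j1, j2, j3, j4, j5, j6⟩ := hc.seq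
  refine Syn.of_seq (K := J) (t := fun j => t (p j)) (r := fun j => s (q j)) ?_ ?_ ?_ ?_ ?_ ?_
  · simp only [j1, h1]
  · simp only [j2, g2]
  · simp only [j3, h3]
  · simp only [j4, g4]
  · intro j hj
    obtain ⟨_, k1, _, k2, k3⟩ := j5 j hj
    have h7 := h5 (p j) k1
    have g7 := g5 (q j) k2
    have k4 : r (p j) = r' (q j) := by exact_mod_cast k3
    refine ⟨h7.1, h7.2.1, g7.2.2.1, g7.2.2.2.1, ?_⟩
    rw [h7.2.2.2.2, k4]
    exact g7.2.2.2.2
  · intro j hj
    obtain ⟨_, k1, _, k2, k3⟩ := j5 j hj.le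
    obtain ⟨_, k1', _, k2', k3'⟩ := j5 (j + 1) hj
    obtain ⟨l1, l2, l3, l4⟩ := j6 j hj
    have e1 : t (p j) ≤ t (p (j + 1)) + 1 ∧ t (p (j + 1)) ≤ t (p j) + 1 := by
      rcases Nat.lt_trichotomy (p j) (p (j + 1)) with h7 | h7 | h7
      · have h8 : p (j + 1) = p j + 1 := by omega
        have h9 := h6 (p j) (by omega)
        rw [h8]
        omega
      · rw [h7]
        omega
      · have h8 : p j = p (j + 1) + 1 := by omega
        have h9 := h6 (p (j + 1)) (by omega)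
        rw [h8]
        omega
    have e2 : s (q j) ≤ s (q (j + 1)) + 1 ∧ s (q (j + 1)) ≤ s (q j) + 1 := by
      rcases Nat.lt_trichotomy (q j) (q (j + 1)) with h7 | h7 | h7
      · have h8 : q (j + 1) = q j + 1 := by omega
        have h9 := g6 (q j) (by omega)
        rw [h8]
        omega
      · rw [h7]
        omega
      · have h8 : q j = q (j + 1) + 1 := by omega
        have h9 := g6 (q (j + 1)) (by omega)
        rw [h8]
        omega
    exact ⟨e1.1, e1.2, e2.1, e2.2⟩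

end Pool.Agent.Lib.MP_40f35d_gt.Gs
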