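import Pool.Agent.Lib.MP_40f35d_gt.Sw.Defs
import Pool.Agent.Lib.MP_40f35d_gt.Gs.Mc

/-!
The Hex theorem on a rectangle: a far path (steps in one coordinate) from the first to the last row,
or a near path (diagonal steps allowed) from the first to the last column.
-/

namespace Pool.Agent.Lib.MP_40f35d_gt.Gs

open Relation

/-- A step of a near path in the rectangle `[0, n] × [u0, u1]`. -/
def NSt (near : ℕ → ℕ → Prop) (n u0 u1 : ℕ) (c d : ℕ × ℕ) : Prop :=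
  (c.1 ≤ n ∧ u0 ≤ c.2 ∧ c.2 ≤ u1 ∧ near c.1 c.2) ∧
    (d.1 ≤ n ∧ u0 ≤ d.2 ∧ d.2 ≤ u1 ∧ near d.1 d.2) ∧
    (c.1 ≤ d.1 + 1 ∧ d.1 ≤ c.1 + 1 ∧ c.2 ≤ d.2 + 1 ∧ d.2 ≤ c.2 + 1)

/-- A step of a far path in the rectangle `[0, n] × [u0, u1]`. -/
def FSt (near : ℕ → ℕ → Prop) (n u0 u1 : ℕ) (c d : ℕ × ℕ) : Prop :=
  (c.1 ≤ n ∧ u0 ≤ c.2 ∧ c.2 ≤ u1 ∧ ¬ near c.1 c.2) ∧
    (d.1 ≤ n ∧ u0 ≤ d.2 ∧ d.2 ≤ u1 ∧ ¬ near d.1 d.2) ∧
    ((c.1 = d.1 ∧ (d.2 = c.2 + 1 ∨ c.2 = d.2 + 1)) ∨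
      (c.2 = d.2 ∧ (d.1 = c.1 + 1 ∨ c.1 = d.1 + 1)))

theorem NSt.symm' {near : ℕ → ℕ → Prop} {n u0 u1 : ℕ} {c d : ℕ × ℕ}
    (h : NSt near n u0 u1 c d) : NSt near n u0 u1 d c :=
  ⟨h.2.1, h.1, h.2.2.2.1, h.2.2.1, h.2.2.2.2.2, h.2.2.2.2.1⟩

theorem FSt.symm' {near : ℕ → ℕ → Prop} {n u0 u1 : ℕ} {c d : ℕ × ℕ}
    (h : FSt near n u0 u1 c d) : FSt near n u0 u1 d c := by
  obtain ⟨h1, h2, h3⟩ := h
  refine ⟨h2, h1, ?_⟩
  rcases h3 with ⟨h4, h5⟩ | ⟨h4, h5⟩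
  · exact Or.inl ⟨h4.symm, h5.symm⟩
  · exact Or.inr ⟨h4.symm, h5.symm⟩

section hex

variable (near : ℕ → ℕ → Prop) (n N : ℕ)

/-- Near cells joined to the first column. -/
private def hZ (c : ℕ × ℕ) : Prop :=
  ∃ t, t ≤ N ∧ near 0 t ∧ ReflTransGen (NSt near n 0 N) (0, t) c

/-- Far cells joined to the first row. -/
private def hC (c : ℕ × ℕ) : Prop :=
  ∃ i, i ≤ n ∧ ¬ near i 0 ∧ ReflTransGen (FSt near n 0 N) (i, 0) c

open Classical in
private noncomputable def hz (c : ℕ × ℕ) : ZMod 2 := if hZ near n N c then 1 else 0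

open Classical in
private noncomputable def hh (c : ℕ × ℕ) : ZMod 2 := if hC near n N c then 1 else 0

/-- The mark of an edge. -/
private noncomputable def hm (c d : ℕ × ℕ) : ZMod 2 :=
  hz near n N c * hh near n N d + hh near n N c * hz near n N d

variable {near n N}

private theorem hZ_near {c : ℕ × ℕ} (h : hZ near n N c) :
    c.1 ≤ n ∧ c.2 ≤ N ∧ near c.1 c.2 := by
  obtain ⟨t, h1, h2, h3⟩ := h
  rcases ReflTransGen.cases_tail h3 with h4 | ⟨b, _, h4⟩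
  · rw [h4]
    exact ⟨Nat.zero_le _, h1, h2⟩
  · exact ⟨h4.2.1.1, h4.2.1.2.2.1, h4.2.1.2.2.2⟩

private theorem hC_far {c : ℕ × ℕ} (h : hC near n N c) :
    c.1 ≤ n ∧ c.2 ≤ N ∧ ¬ near c.1 c.2 := by
  obtain ⟨i, h1, h2, h3⟩ := h
  rcases ReflTransGen.cases_tail h3 with h4 | ⟨b, _, h4⟩
  · rw [h4]
    exact ⟨h1, Nat.zero_le _, h2⟩
  · exact ⟨h4.2.1.1, h4.2.1.2.2.1, h4.2.1.2.2.2⟩

private theorem hz_eq {c d : ℕ × ℕ} (hc : c.1 ≤ n ∧ c.2 ≤ N ∧ near c.1 c.2)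
    (hd : d.1 ≤ n ∧ d.2 ≤ N ∧ near d.1 d.2)
    (h : c.1 ≤ d.1 + 1 ∧ d.1 ≤ c.1 + 1 ∧ c.2 ≤ d.2 + 1 ∧ d.2 ≤ c.2 + 1) :
    hz near n N c = hz near n N d := by
  have h1 : NSt near n 0 N c d :=
    ⟨⟨hc.1, Nat.zero_le _, hc.2⟩, ⟨hd.1, Nat.zero_le _, hd.2⟩, h⟩
  unfold hz
  by_cases h2 : hZ near n N c
  · obtain ⟨t, h3, h4, h5⟩ := h2
    rw [if_pos ⟨t, h3, h4, h5⟩, if_pos ⟨t, h3, h4, h5.tail h1⟩]
  · rw [if_neg h2, if_neg]
    rintro ⟨t, h3, h4, h5⟩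
    exact h2 ⟨t, h3, h4, h5.tail h1.symm'⟩

private theorem hh_eq {c d : ℕ × ℕ} (hc : c.1 ≤ n ∧ c.2 ≤ N ∧ ¬ near c.1 c.2)
    (hd : d.1 ≤ n ∧ d.2 ≤ N ∧ ¬ near d.1 d.2)
    (h : (c.1 = d.1 ∧ (d.2 = c.2 + 1 ∨ c.2 = d.2 + 1)) ∨
      (c.2 = d.2 ∧ (d.1 = c.1 + 1 ∨ c.1 = d.1 + 1))) :
    hh near n N c = hh near n N d := by
  have h1 : FSt near n 0 N c d :=
    ⟨⟨hc.1, Nat.zero_le _, hc.2⟩, ⟨hd.1, Nat.zero_le _, hd.2⟩, h⟩
  unfold hh
  by_cases h2 : hC near n N c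
  · obtain ⟨t, h3, h4, h5⟩ := h2
    rw [if_pos ⟨t, h3, h4, h5⟩, if_pos ⟨t, h3, h4, h5.tail h1⟩]
  · rw [if_neg h2, if_neg]
    rintro ⟨t, h3, h4, h5⟩
    exact h2 ⟨t, h3, h4, h5.tail h1.symm'⟩

private theorem hz_far {c : ℕ × ℕ} (h : ¬ near c.1 c.2) : hz near n N c = 0 :=
  if_neg fun h1 => h (hZ_near h1).2.2

private theorem hh_near {c : ℕ × ℕ} (h : near c.1 c.2) : hh near n N c = 0 :=
  if_neg fun h1 => (hC_far h1).2.2 h

private theorem two_eq' : (2 : ZMod 2) = 0 := by decide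

/-- The mark of an edge in a square in which the near cells have the value `ζ`. -/
private theorem hm_edge {ζ : ZMod 2} {c d : ℕ × ℕ} (hc : c.1 ≤ n ∧ c.2 ≤ N)
    (hd : d.1 ≤ n ∧ d.2 ≤ N) (h1 : near c.1 c.2 → hz near n N c = ζ)
    (h2 : near d.1 d.2 → hz near n N d = ζ)
    (h : (c.1 = d.1 ∧ (d.2 = c.2 + 1 ∨ c.2 = d.2 + 1)) ∨
      (c.2 = d.2 ∧ (d.1 = c.1 + 1 ∨ c.1 = d.1 + 1))) :
    hm near n N c d = ζ * (hh near n N c + hh near n N d) := by
  unfold hm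
  by_cases h3 : near c.1 c.2 <;> by_cases h4 : near d.1 d.2
  · rw [hh_near h3, hh_near h4]
    ring
  · rw [hh_near h3, hz_far h4, h1 h3]
    ring
  · rw [hh_near h4, hz_far h3, h2 h4]
    ring
  · rw [hz_far h3, hz_far h4, hh_eq ⟨hc.1, hc.2, h3⟩ ⟨hd.1, hd.2, h4⟩ h]
    linear_combination (-ζ * hh near n N d) * two_eq'

private theorem hm_square {i t : ℕ} (hi : i < n) (ht : t < N) :
    hm near n N (i, t) (i + 1, t) + hm near n N (i + 1, t) (i + 1, t + 1) +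
      hm near n N (i, t + 1) (i + 1, t + 1) + hm near n N (i, t) (i, t + 1) = 0 := by
  obtain ⟨ζ, hζ⟩ : ∃ ζ : ZMod 2, ∀ i' t', i ≤ i' → i' ≤ i + 1 → t ≤ t' → t' ≤ t + 1 →
      near i' t' → hz near n N (i', t') = ζ := by
    by_cases h : ∃ i' t', i ≤ i' ∧ i' ≤ i + 1 ∧ t ≤ t' ∧ t' ≤ t + 1 ∧ near i' t'
    · obtain ⟨i', t', h1, h2, h3, h4, h5⟩ := h
      refine ⟨hz near n N (i', t'), fun i'' t'' h6 h7 h8 h9 h10 => ?_⟩
      refine hz_eq ⟨?_, ?_, h10⟩ ⟨?_, ?_, h5⟩ ⟨?_, ?_, ?_, ?_⟩ <;> simp only <;> omega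
    · exact ⟨0, fun i'' t'' h6 h7 h8 h9 h10 => absurd ⟨i'', t'', h6, h7, h8, h9, h10⟩ h⟩
  rw [hm_edge (ζ := ζ) (c := (i, t)) (d := (i + 1, t)) ⟨by simp only; omega, by simp only; omega⟩
      ⟨by simp only; omega, by simp only; omega⟩
      (hζ i t (by omega) (by omega) (by omega) (by omega))
      (hζ (i + 1) t (by omega) (by omega) (by omega) (by omega)) (Or.inr ⟨rfl, Or.inl rfl⟩),
    hm_edge (ζ := ζ) (c := (i + 1, t)) (d := (i + 1, t + 1))
      ⟨by simp only; omega, by simp only; omega⟩ ⟨by simp only; omega, by simp only; omega⟩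
      (hζ (i + 1) t (by omega) (by omega) (by omega) (by omega))
      (hζ (i + 1) (t + 1) (by omega) (by omega) (by omega) (by omega))
      (Or.inl ⟨rfl, Or.inl rfl⟩),
    hm_edge (ζ := ζ) (c := (i, t + 1)) (d := (i + 1, t + 1))
      ⟨by simp only; omega, by simp only; omega⟩ ⟨by simp only; omega, by simp only; omega⟩
      (hζ i (t + 1) (by omega) (by omega) (by omega) (by omega))
      (hζ (i + 1) (t + 1) (by omega) (by omega) (by omega) (by omega))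
      (Or.inr ⟨rfl, Or.inl rfl⟩),
    hm_edge (ζ := ζ) (c := (i, t)) (d := (i, t + 1))
      ⟨by simp only; omega, by simp only; omega⟩ ⟨by simp only; omega, by simp only; omega⟩
      (hζ i t (by omega) (by omega) (by omega) (by omega))
      (hζ i (t + 1) (by omega) (by omega) (by omega) (by omega)) (Or.inl ⟨rfl, Or.inl rfl⟩)]
  linear_combination (ζ * (hh near n N (i, t) + hh near n N (i + 1, t) +
    hh near n N (i + 1, t + 1) + hh near n N (i, t + 1))) * two_eq'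

private theorem telesc' (f : ℕ → ZMod 2) (n : ℕ) :
    ∑ i ∈ Finset.range n, (f i + f (i + 1)) = f 0 + f n := by
  induction n with
  | zero =>
    rw [Finset.sum_range_zero]
    linear_combination (-f 0) * two_eq'
  | succ n ih =>
    rw [Finset.sum_range_succ, ih]
    linear_combination (f n) * two_eq'

private theorem hex0 (hno : ¬ ∃ i j, i ≤ n ∧ j ≤ n ∧ ¬ near i 0 ∧ ¬ near j N ∧
      ReflTransGen (FSt near n 0 N) (i, 0) (j, N)) :
    ∃ t t', t ≤ N ∧ t' ≤ N ∧ near 0 t ∧ near n t' ∧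
      ReflTransGen (NSt near n 0 N) (0, t) (n, t') := by
  by_contra hcon
  -- the last column is not reached, the last row is not reached
  have hR : ∀ t, t ≤ N → hz near n N (n, t) = 0 := by
    intro t ht
    refine if_neg fun h => hcon ?_
    have h1 := hZ_near h
    obtain ⟨t₀, h2, h3, h4⟩ := h
    exact ⟨t₀, t, h2, ht, h3, h1.2.2, h4⟩
  have hT : ∀ i, i ≤ n → hh near n N (i, N) = 0 := by
    intro i hi
    refine if_neg fun h => hno ?_
    have h1 := hC_far h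
    obtain ⟨i₀, h2, h3, h4⟩ := h
    exact ⟨i₀, i, h2, hi, h3, h1.2.2, h4⟩
  have hL : ∀ t, t ≤ N → near 0 t → hz near n N (0, t) = 1 := by
    intro t ht h
    exact if_pos ⟨t, ht, h, ReflTransGen.refl⟩
  have hB : ∀ i, i ≤ n → ¬ near i 0 → hh near n N (i, 0) = 1 := by
    intro i hi h
    exact if_pos ⟨i, hi, h, ReflTransGen.refl⟩
  -- the column sums
  have hS : ∀ i, i ≤ n → ∑ t ∈ Finset.range N, hm near n N (i, t) (i, t + 1) =
      ∑ t ∈ Finset.range N, hm near n N (0, t) (0, t + 1) +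
        ∑ j ∈ Finset.range i, hm near n N (j, 0) (j + 1, 0) := by
    intro i
    induction i with
    | zero =>
      intro _
      rw [Finset.sum_range_zero, add_zero]
    | succ i ih =>
      intro hi
      have h5 : ∑ t ∈ Finset.range N, hm near n N (i + 1, t) (i + 1, t + 1) =
          ∑ t ∈ Finset.range N, hm near n N (i, t) (i, t + 1) +
            ∑ t ∈ Finset.range N,
              (hm near n N (i, t) (i + 1, t) + hm near n N (i, t + 1) (i + 1, t + 1)) := by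
        rw [← Finset.sum_add_distrib]
        refine Finset.sum_congr rfl fun t ht => ?_
        have h6 := hm_square (near := near) (show i < n by omega) (Finset.mem_range.1 ht)
        linear_combination h6 - (hm near n N (i, t) (i, t + 1) + hm near n N (i, t) (i + 1, t) +
          hm near n N (i, t + 1) (i + 1, t + 1)) * two_eq'
      have h7 : hm near n N (i, N) (i + 1, N) = 0 := by
        unfold hm
        rw [hT i (by omega), hT (i + 1) hi]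
        ring
      rw [h5, ih (by omega), telesc' (fun t => hm near n N (i, t) (i + 1, t)), h7, add_zero,
        Finset.sum_range_succ]
      ring
  have h1 := hS n le_rfl
  have h2 : ∑ t ∈ Finset.range N, hm near n N (n, t) (n, t + 1) = 0 := by
    refine Finset.sum_eq_zero fun t ht => ?_
    have h3 := Finset.mem_range.1 ht
    unfold hm
    rw [hR t h3.le, hR (t + 1) h3]
    ring
  have h3 : ∑ t ∈ Finset.range N, hm near n N (0, t) (0, t + 1) =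
      hh near n N (0, 0) + hh near n N (0, N) := by
    rw [← telesc' (fun t => hh near n N (0, t))]
    refine Finset.sum_congr rfl fun t ht => ?_
    have h4 := Finset.mem_range.1 ht
    have h5 := hm_edge (near := near) (n := n) (N := N) (ζ := 1) (c := (0, t)) (d := (0, t + 1))
      ⟨Nat.zero_le _, by simp only; omega⟩ ⟨Nat.zero_le _, by simp only; omega⟩
      (hL t (by omega)) (hL (t + 1) (by omega)) (Or.inl ⟨rfl, Or.inl rfl⟩)
    rw [h5, one_mul]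
  have h4 : ∑ j ∈ Finset.range n, hm near n N (j, 0) (j + 1, 0) =
      hz near n N (0, 0) + hz near n N (n, 0) := by
    rw [← telesc' (fun i => hz near n N (i, 0))]
    refine Finset.sum_congr rfl fun i hi => ?_
    have h5 := Finset.mem_range.1 hi
    unfold hm
    by_cases h6 : near i 0 <;> by_cases h7 : near (i + 1) 0
    · rw [hh_near (c := (i, 0)) h6, hh_near (c := (i + 1, 0)) h7,
        hz_eq (near := near) (n := n) (N := N) (c := (i, 0)) (d := (i + 1, 0))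
          ⟨by simp only; omega, Nat.zero_le _, h6⟩ ⟨by simp only; omega, Nat.zero_le _, h7⟩
          ⟨by simp only; omega, by simp only; omega, by simp only; omega, by simp only; omega⟩]
      linear_combination (-hz near n N (i + 1, 0)) * two_eq'
    · rw [hh_near (c := (i, 0)) h6, hB (i + 1) (by omega) h7, hz_far (c := (i + 1, 0)) h7]
      ring
    · rw [hh_near (c := (i + 1, 0)) h7, hB i (by omega) h6, hz_far (c := (i, 0)) h6]
      ring
    · rw [hz_far (c := (i, 0)) h6, hz_far (c := (i + 1, 0)) h7]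
      ring
  rw [h2, h3, h4, hT 0 (Nat.zero_le _), hR 0 (Nat.zero_le _), add_zero, add_zero] at h1
  by_cases h5 : near 0 0
  · rw [hh_near (c := (0, 0)) h5, hL 0 (Nat.zero_le _) h5] at h1
    exact absurd h1 (by decide)
  · rw [hB 0 (Nat.zero_le _) h5, hz_far (c := (0, 0)) h5] at h1
    exact absurd h1 (by decide)

end hex

/-- HEX THEOREM on a rectangle. -/
theorem hex {near : ℕ → ℕ → Prop} {n u0 u1 : ℕ} (hu : u0 ≤ u1)
    (hno : ¬ ∃ i j, i ≤ n ∧ j ≤ n ∧ ¬ near i u0 ∧ ¬ near j u1 ∧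
      ReflTransGen (FSt near n u0 u1) (i, u0) (j, u1)) :
    ∃ (R : ℕ) (i t : ℕ → ℕ), i 0 = 0 ∧ i R = n ∧
      (∀ r, r ≤ R → i r ≤ n ∧ u0 ≤ t r ∧ t r ≤ u1 ∧ near (i r) (t r)) ∧
      ∀ r, r < R → i r ≤ i (r + 1) + 1 ∧ i (r + 1) ≤ i r + 1 ∧ t r ≤ t (r + 1) + 1 ∧
        t (r + 1) ≤ t r + 1 := by
  have h1 : ¬ ∃ i j, i ≤ n ∧ j ≤ n ∧ ¬ near i (0 + u0) ∧ ¬ near j (u1 - u0 + u0) ∧
      ReflTransGen (FSt (fun i t => near i (t + u0)) n 0 (u1 - u0)) (i, 0) (j, u1 - u0) := by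
    rintro ⟨i, j, h2, h3, h4, h5, h6⟩
    rw [Nat.zero_add] at h4
    rw [Nat.sub_add_cancel hu] at h5
    refine hno ⟨i, j, h2, h3, h4, h5, ?_⟩
    have h7 : ReflTransGen (FSt near n u0 u1) (i, 0 + u0) (j, u1 - u0 + u0) :=
      h6.lift (p := FSt near n u0 u1) (fun c => (c.1, c.2 + u0)) (by
      rintro c d ⟨⟨g1, g2, g3, g4⟩, ⟨g5, g6, g7, g8⟩, g9⟩
      refine ⟨⟨g1, by simp only; omega, by simp only; omega, g4⟩,
        ⟨g5, by simp only; omega, by simp only; omega, g8⟩, ?_⟩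
      simp only
      omega)
    rwa [Nat.zero_add, Nat.sub_add_cancel hu] at h7
  obtain ⟨t, t', h2, h3, h4, h5, h6⟩ :=
    hex0 (near := fun i t => near i (t + u0)) (n := n) (N := u1 - u0) h1
  obtain ⟨R, f, h7, h8, h9⟩ := exists_seq h6
  refine ⟨R, fun r => (f r).1, fun r => (f r).2 + u0, by simp [h7], by simp [h8], ?_, ?_⟩
  · intro r hr
    have h10 : (f r).1 ≤ n ∧ 0 ≤ (f r).2 ∧ (f r).2 ≤ u1 - u0 ∧ near (f r).1 ((f r).2 + u0) := by
      rcases Nat.lt_or_ge r R with h11 | h11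
      · exact (h9 r h11).1
      · have h12 : r = R := by omega
        rw [h12, h8]
        exact ⟨le_rfl, Nat.zero_le _, h3, h5⟩
    refine ⟨h10.1, by simp only; omega, by simp only; omega, h10.2.2.2⟩
  · intro r hr
    have h10 := (h9 r hr).2.2
    simp only
    omega

/-- UNCROSSED WINDOWS ARE READABLE along every walk inside the set. -/
theorem hex_window {V : Type} {G : SimpleGraph V} {near : V → ℕ → Prop} {D : Set V} {u0 u1 : ℕ}
    (hu : u0 ≤ u1) (hno : ¬ Sw.Crossed G near D u0 u1) {c : ℕ → V} {n : ℕ}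
    (hD : ∀ i, i ≤ n → c i ∈ D) (hc : ∀ i, i < n → G.Adj (c i) (c (i + 1))) :
    ∃ (R : ℕ) (i t : ℕ → ℕ), i 0 = 0 ∧ i R = n ∧
      (∀ r, r ≤ R → i r ≤ n ∧ u0 ≤ t r ∧ t r ≤ u1 ∧ near (c (i r)) (t r)) ∧
      ∀ r, r < R → i r ≤ i (r + 1) + 1 ∧ i (r + 1) ≤ i r + 1 ∧ t r ≤ t (r + 1) + 1 ∧
        t (r + 1) ≤ t r + 1 := by
  refine hex (near := fun i t => near (c i) t) hu ?_
  rintro ⟨i, j, h1, h2, h3, h4, h5⟩
  refine hno ⟨c i, hD i h1, c j, hD j h2, h3, h4, ?_⟩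
  refine h5.lift (fun x => (c x.1, x.2)) ?_
  rintro x y ⟨⟨g1, g2, g3, g4⟩, ⟨g5, g6, g7, g8⟩, g9⟩
  refine ⟨⟨hD _ g1, g2, g3, g4⟩, ⟨hD _ g5, g6, g7, g8⟩, ?_⟩
  rcases g9 with ⟨g10, g11⟩ | ⟨g10, g11⟩
  · exact Or.inl ⟨by simp only; rw [g10], g11⟩
  · refine Or.inr ⟨g10, ?_⟩
    rcases g11 with g11 | g11
    · simp only
      rw [g11]
      exact hc _ (by omega)
    · simp only
      rw [g11]
      exact (hc _ (by omega)).symm

end Pool.Agent.Lib.MP_40f35d_gt.Gs
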