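import Pool.Agent.Lib.MP_40f35d_gt.Gs.Ref

/-!
# Levels and collapse

`a`, `b` are leaves with the neighbours `a'`, `b'`. Level `k` of the column `b`: the cells `(b, r)`
which are far and for which `(b', r)` is far or `r < k`. Take minimal levels `(i, j)` of `b`, `a`
which admit a crossing and hang new leaves of the levels `i`, `j` at `b`, `a`, whose columns get
the levels `i - 1`, `j - 1`. The core gives a corner, which is collapsed.
-/

set_option autoImplicit false

open Relation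

namespace Pool.Agent.Lib.MP_40f35d_gt.Gs

/-- Transport of crossings. -/
theorem Crs.map {V V' : Type} {G : SimpleGraph V} {G' : SimpleGraph V'} {F : V → ℕ → Prop}
    {F' : V' → ℕ → Prop} {R : ℕ} {S : Set V} {S' : Set V'} (f : V → V')
    (hS : ∀ p ∈ S, f p ∈ S') (hF : ∀ p ∈ S, ∀ r ≤ R, F p r → F' (f p) r)
    (hA : ∀ p ∈ S, ∀ q ∈ S, G.Adj p q → ∀ r ≤ R, F p r → F q r →
      ReflTransGen (Fst G' F' R S') (f p, r) (f q, r)) (h : Crs G F R S) : Crs G' F' R S' := by
  obtain ⟨p, hp, q, hq, h⟩ := h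
  refine ⟨f p, hS p hp, f q, hS q hq, ?_⟩
  refine ReflTransGen.lift' (fun c : V × ℕ => (f c.1, c.2)) ?_ _ _ h
  rintro ⟨p, r⟩ ⟨q, r'⟩ ⟨⟨h1, h2⟩, ⟨h3, h4⟩, ⟨h5, h6⟩, h7⟩
  rcases h7 with ⟨h8, h9⟩ | ⟨h8, h9⟩
  · simp only at h1 h2 h3 h4 h5 h6 h8 h9 ⊢
    subst h9
    exact hA p h1 q h2 h8 r h3 h5 h6
  · simp only at h1 h2 h3 h4 h5 h6 h8 h9 ⊢
    subst h8
    exact ReflTransGen.single ⟨⟨hS p h1, hS p h1⟩, ⟨h3, h4⟩, ⟨hF p h1 r h3 h5, hF p h2 r' h4 h6⟩,
      Or.inr ⟨rfl, h9⟩⟩

section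
variable {V : Type}

/-- The vertex of `V` below a vertex of the refinement. -/
def cc (a b : V) : V ⊕ Bool → V
  | Sum.inl p => p
  | Sum.inr true => a
  | Sum.inr false => b

/-- The refinement: two new leaves. -/
def wG (G : SimpleGraph V) (a b : V) : SimpleGraph (V ⊕ Bool) where
  Adj x y := match x, y with
    | Sum.inl p, Sum.inl q => G.Adj p q
    | Sum.inl p, Sum.inr c => p = cc a b (Sum.inr c)
    | Sum.inr c, Sum.inl p => p = cc a b (Sum.inr c)
    | Sum.inr _, Sum.inr _ => False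
  symm := ⟨fun x y h => by
    rcases x with p | c <;> rcases y with q | d
    · exact G.symm.symm _ _ h
    · exact h
    · exact h
    · exact h⟩
  loopless := ⟨fun x h => by
    rcases x with p | c
    · exact G.loopless.irrefl _ h
    · exact h⟩

open Classical in
/-- The vertex beside a leaf. -/
noncomputable def pr (a a' b b' : V) (p : V) : V := if p = b then b' else if p = a then a' else p

open Classical in
/-- The far cells with the levels `i` of `b` and `j` of `a`. -/
def lF (F : V → ℕ → Prop) (a a' b b' : V) (i j : ℕ) (p : V) (r : ℕ) : Prop :=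
  F p r ∧ (F (pr a a' b b' p) r ∨ r < if p = b then i else j)

open Classical in
/-- The levels of the refinement. -/
noncomputable def kk (b : V) (i j : ℕ) : V ⊕ Bool → ℕ
  | Sum.inl p => if p = b then i else j
  | Sum.inr true => j + 1
  | Sum.inr false => i + 1

/-- The far cells of the refinement. -/
def wF (F : V → ℕ → Prop) (a a' b b' : V) (i j : ℕ) (g : V ⊕ Bool) (r : ℕ) : Prop :=
  F (cc a b g) r ∧ (F (pr a a' b b' (cc a b g)) r ∨ r < kk b i j g)

open Classical in
/-- The reader after the collapse. -/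
noncomputable def cr (F : V → ℕ → Prop) (a a' b b' : V) (p : V) (r : ℕ) : V :=
  if F p r then pr a a' b b' p else p

/-- A state: the evader is far, the reader is near. -/
def Gok (F : V → ℕ → Prop) (R : ℕ) (c : V × V × ℕ) : Prop :=
  c.2.2 ≤ R ∧ F c.1 c.2.2 ∧ ¬ F c.2.1 c.2.2

/-- A move of the evader and the reader. -/
def Gmv (G : SimpleGraph V) (F : V → ℕ → Prop) (R : ℕ) (c c' : V × V × ℕ) : Prop :=
  Gok F R c ∧ Gok F R c' ∧
    ((G.Adj c.1 c'.1 ∧ c.2.1 = c'.2.1 ∧ c.2.2 = c'.2.2) ∨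
      (c.1 = c'.1 ∧ Eqa G c.2.1 c'.2.1 ∧ c.2.2 ≤ c'.2.2 + 1 ∧ c'.2.2 ≤ c.2.2 + 1))

theorem Gmv.symm {G : SimpleGraph V} {F : V → ℕ → Prop} {R : ℕ} {c c' : V × V × ℕ}
    (h : Gmv G F R c c') : Gmv G F R c' c := by
  obtain ⟨h1, h2, h3⟩ := h
  refine ⟨h2, h1, ?_⟩
  rcases h3 with ⟨h3, h4, h5⟩ | ⟨h3, h4, h5, h6⟩
  · exact Or.inl ⟨h3.symm, h4.symm, h5.symm⟩
  · exact Or.inr ⟨h3.symm, h4.symm, h6, h5⟩

variable {G : SimpleGraph V} {F : V → ℕ → Prop} {R : ℕ} {a a' b b' : V} {i j : ℕ}

theorem pr_b : pr a a' b b' b = b' := by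
  unfold pr
  rw [if_pos rfl]

theorem pr_a (hab : a ≠ b) : pr a a' b b' a = a' := by
  unfold pr
  rw [if_neg hab, if_pos rfl]

theorem pr_of {p : V} (h1 : p ≠ a) (h2 : p ≠ b) : pr a a' b b' p = p := by
  unfold pr
  rw [if_neg h2, if_neg h1]

theorem eqa_pr (ha : G.Adj a a') (hau : ∀ p, G.Adj a p → p = a') (hb : G.Adj b b')
    (hbu : ∀ p, G.Adj b p → p = b') (hab : a ≠ b) (hab' : a' ≠ b) (hba' : b' ≠ a) {p q p1 q1 : V}
    (h : Eqa G p q) (hp : p1 = p ∨ p1 = pr a a' b b' p) (hq : q1 = q ∨ q1 = pr a a' b b' q) :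
    Eqa G p1 q1 := by
  have hpr : ∀ p, pr a a' b b' p = p ∨ G.Adj p (pr a a' b b' p) := by
    intro p
    by_cases h1 : p = b
    · subst h1
      rw [pr_b]
      exact Or.inr hb
    · by_cases h2 : p = a
      · subst h2
        rw [pr_a hab]
        exact Or.inr ha
      · exact Or.inl (pr_of h2 h1)
  rcases h with rfl | h
  · rcases hp with rfl | rfl <;> rcases hq with rfl | rfl
    · exact Or.inl rfl
    · rcases hpr p1 with h1 | h1
      · exact Or.inl h1
      · exact Or.inr h1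
    · rcases hpr q1 with h1 | h1
      · exact Or.inl h1.symm
      · exact Or.inr h1.symm
    · exact Or.inl rfl
  · -- two adjacent vertices
    have key : ∀ p q p1 q1, G.Adj p q → (p1 = p ∨ p1 = pr a a' b b' p) →
        (q1 = q ∨ q1 = pr a a' b b' q) → (p = a ∨ p = b) → Eqa G p1 q1 := by
      intro p q p1 q1 h hp hq hab1
      rcases hab1 with rfl | rfl
      · have h1 := hau q h
        subst h1
        rw [pr_of ha.symm.ne hab'] at hq
        rw [or_self] at hq
        subst hq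
        rw [pr_a hab] at hp
        rcases hp with rfl | rfl
        · exact Or.inr h
        · exact Or.inl rfl
      · have h1 := hbu q h
        subst h1
        rw [pr_of hba' hb.symm.ne] at hq
        rw [or_self] at hq
        subst hq
        rw [pr_b] at hp
        rcases hp with rfl | rfl
        · exact Or.inr h
        · exact Or.inl rfl
    by_cases h1 : p = a ∨ p = b
    · exact key p q p1 q1 h hp hq h1
    · by_cases h2 : q = a ∨ q = b
      · exact (key q p q1 p1 h.symm hq hp h2).symm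
      · rw [not_or] at h1 h2
        rw [pr_of h1.1 h1.2, or_self] at hp
        rw [pr_of h2.1 h2.2, or_self] at hq
        rw [hp, hq]
        exact Or.inr h

theorem cc_adj {g g' : V ⊕ Bool} (h : (wG G a b).Adj g g') : Eqa G (cc a b g) (cc a b g') := by
  rcases g with p | c <;> rcases g' with q | d
  · exact Or.inr h
  · exact Or.inl (Eq.symm h)
  · exact Or.inl h
  · exact absurd h id

theorem cc_eqa {g g' : V ⊕ Bool} (h : Eqa (wG G a b) g g') :
    Eqa G (cc a b g) (cc a b g') := by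
  rcases h with rfl | h
  · exact Or.inl rfl
  · exact cc_adj h

theorem cr_near {g : V ⊕ Bool} {r : ℕ} (h : ¬ wF F a a' b b' i j g r) :
    ¬ F (cr F a a' b b' (cc a b g) r) r := by
  unfold cr
  split_ifs with h1
  · exact fun h2 => h ⟨h1, Or.inl h2⟩
  · exact h1

/-- The levels of `b` and `a` at which there is a crossing are positive. -/
theorem lF_pos_b (hbu : ∀ p, G.Adj b p → p = b') (hb : G.Adj b b')
    (hCb : ¬ Crs G F R {p | p ≠ b}) : ¬ Crs G (lF F a a' b b' 0 j) R Set.univ := by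
  classical
  intro h
  apply hCb
  refine Crs.map (fun p => if p = b then b' else p) ?_ ?_ ?_ h
  · intro p _
    change (if p = b then b' else p) ≠ b
    split_ifs with h1
    · exact hb.symm.ne
    · exact h1
  · intro p _ r _ h1
    split_ifs with h2
    · subst h2
      rcases h1.2 with h3 | h3
      · rw [pr_b] at h3
        exact h3
      · rw [if_pos rfl] at h3
        omega
    · exact h1.1
  · intro p _ q _ hpq r hr h1 h2
    by_cases h3 : p = b
    · subst h3
      have h4 := hbu q hpq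
      subst h4
      rw [if_pos rfl, if_neg hb.symm.ne]
    · by_cases h4 : q = b
      · subst h4
        have h5 := hbu p hpq.symm
        subst h5
        rw [if_neg hb.symm.ne, if_pos rfl]
      · rw [if_neg h3, if_neg h4]
        exact ReflTransGen.single ⟨⟨h3, h4⟩, ⟨hr, hr⟩, ⟨h1.1, h2.1⟩, Or.inl ⟨hpq, rfl⟩⟩

theorem lF_pos_a (hau : ∀ p, G.Adj a p → p = a') (ha : G.Adj a a') (hab : a ≠ b)
    (hCa : ¬ Crs G F R {p | p ≠ a}) : ¬ Crs G (lF F a a' b b' i 0) R Set.univ := by
  classical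
  intro h
  apply hCa
  refine Crs.map (fun p => if p = a then a' else p) ?_ ?_ ?_ h
  · intro p _
    change (if p = a then a' else p) ≠ a
    split_ifs with h1
    · exact ha.symm.ne
    · exact h1
  · intro p _ r _ h1
    split_ifs with h2
    · subst h2
      rcases h1.2 with h3 | h3
      · rw [pr_a hab] at h3
        exact h3
      · rw [if_neg hab] at h3
        omega
    · exact h1.1
  · intro p _ q _ hpq r hr h1 h2
    by_cases h3 : p = a
    · subst h3
      have h4 := hau q hpq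
      subst h4
      rw [if_pos rfl, if_neg ha.symm.ne]
    · by_cases h4 : q = a
      · subst h4
        have h5 := hau p hpq.symm
        subst h5
        rw [if_neg ha.symm.ne, if_pos rfl]
      · rw [if_neg h3, if_neg h4]
        exact ReflTransGen.single ⟨⟨h3, h4⟩, ⟨hr, hr⟩, ⟨h1.1, h2.1⟩, Or.inl ⟨hpq, rfl⟩⟩

theorem lF_top (h : Crs G F R Set.univ) : Crs G (lF F a a' b b' (R + 1) (R + 1)) R Set.univ := by
  classical
  have hF : ∀ p, ∀ r ≤ R, F p r → lF F a a' b b' (R + 1) (R + 1) p r := by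
    intro p r hr h1
    refine ⟨h1, Or.inr ?_⟩
    split_ifs <;> omega
  refine Crs.map id (fun _ h => h) (fun p _ => hF p) ?_ h
  intro p _ q _ hpq r hr h1 h2
  exact ReflTransGen.single ⟨⟨trivial, trivial⟩, ⟨hr, hr⟩, ⟨hF p r hr h1, hF q r hr h2⟩,
    Or.inl ⟨hpq, rfl⟩⟩

/-- The refinement is crossed. -/
theorem wF_crs (hau : ∀ p, G.Adj a p → p = a') (ha : G.Adj a a')
    (hbu : ∀ p, G.Adj b p → p = b') (hb : G.Adj b b') (hab : a ≠ b) (hab' : a' ≠ b) (hba' : b' ≠ a)
    (h : Crs G (lF F a a' b b' (i + 1) (j + 1)) R Set.univ) :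
    Crs (wG G a b) (wF F a a' b b' i j) R Set.univ := by
  classical
  obtain ⟨f, hf⟩ : ∃ f : V → V ⊕ Bool, ∀ p, f p = if p = b then Sum.inr false else
    if p = a then Sum.inr true else Sum.inl p := ⟨_, fun _ => rfl⟩
  have fb : f b = Sum.inr false := by rw [hf, if_pos rfl]
  have fa : f a = Sum.inr true := by rw [hf, if_neg hab, if_pos rfl]
  have fo : ∀ p, p ≠ a → p ≠ b → f p = Sum.inl p := fun p h1 h2 => by
    rw [hf, if_neg h2, if_neg h1]
  have hF : ∀ p r, lF F a a' b b' (i + 1) (j + 1) p r → wF F a a' b b' i j (f p) r := by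
    intro p r h1
    by_cases h2 : p = b
    · subst h2
      rw [fb]
      refine ⟨h1.1, ?_⟩
      have h3 := h1.2
      rw [if_pos rfl] at h3
      exact h3
    · by_cases h3 : p = a
      · subst h3
        rw [fa]
        refine ⟨h1.1, ?_⟩
        have h3 := h1.2
        rw [if_neg hab] at h3
        exact h3
      · rw [fo p h3 h2]
        refine ⟨h1.1, Or.inl ?_⟩
        change F (pr a a' b b' p) r
        rw [pr_of h3 h2]
        exact h1.1
  refine Crs.map f (fun _ _ => trivial) (fun p _ r _ => hF p r) ?_ h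
  -- leaves
  have key : ∀ p q, G.Adj p q → ∀ r ≤ R, lF F a a' b b' (i + 1) (j + 1) p r →
      lF F a a' b b' (i + 1) (j + 1) q r → (p = a ∨ p = b) →
      ReflTransGen (Fst (wG G a b) (wF F a a' b b' i j) R Set.univ) (f p, r) (f q, r) := by
    intro p q hpq r hr h1 h2 h3
    rcases h3 with rfl | rfl
    · have h4 := hau q hpq
      subst h4
      have h5 := fo q ha.symm.ne hab'
      have h6 : wF F p q b b' i j (Sum.inl p) r :=
        ⟨h1.1, Or.inl (by change F (pr p q b b' p) r; rw [pr_a hab]; exact h2.1)⟩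
      have h7 := hF _ _ h1
      have h8 := hF _ _ h2
      rw [fa] at h7 ⊢
      rw [h5] at h8 ⊢
      refine (ReflTransGen.single (b := (Sum.inl p, r)) ?_).tail ?_
      · exact ⟨⟨trivial, trivial⟩, ⟨hr, hr⟩, ⟨h7, h6⟩, Or.inl ⟨rfl, rfl⟩⟩
      · exact ⟨⟨trivial, trivial⟩, ⟨hr, hr⟩, ⟨h6, h8⟩, Or.inl ⟨hpq, rfl⟩⟩
    · have h4 := hbu q hpq
      subst h4
      have h5 := fo q hba' hb.symm.ne
      have h6 : wF F a a' p q i j (Sum.inl p) r :=
        ⟨h1.1, Or.inl (by change F (pr a a' p q p) r; rw [pr_b]; exact h2.1)⟩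
      have h7 := hF _ _ h1
      have h8 := hF _ _ h2
      rw [fb] at h7 ⊢
      rw [h5] at h8 ⊢
      refine (ReflTransGen.single (b := (Sum.inl p, r)) ?_).tail ?_
      · exact ⟨⟨trivial, trivial⟩, ⟨hr, hr⟩, ⟨h7, h6⟩, Or.inl ⟨rfl, rfl⟩⟩
      · exact ⟨⟨trivial, trivial⟩, ⟨hr, hr⟩, ⟨h6, h8⟩, Or.inl ⟨hpq, rfl⟩⟩
  intro p _ q _ hpq r hr h1 h2
  by_cases h3 : p = a ∨ p = b
  · exact key p q hpq r hr h1 h2 h3
  · by_cases h4 : q = a ∨ q = b
    · exact rtg_symm (fun _ _ h => h.symm) (key q p hpq.symm r hr h2 h1 h4)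
    · rw [not_or] at h3 h4
      have h7 := hF _ _ h1
      have h8 := hF _ _ h2
      rw [fo p h3.1 h3.2] at h7 ⊢
      rw [fo q h4.1 h4.2] at h8 ⊢
      exact ReflTransGen.single ⟨⟨trivial, trivial⟩, ⟨hr, hr⟩, ⟨h7, h8⟩, Or.inl ⟨hpq, rfl⟩⟩

/-- The refinement without a new leaf has lower levels. -/
theorem wF_not (c : Bool) (hab : a ≠ b) {i' j' : ℕ}
    (hi : i' = if c then i + 1 else i) (hj : j' = if c then j else j + 1)
    (hC : ¬ Crs G (lF F a a' b b' i' j') R Set.univ) :
    ¬ Crs (wG G a b) (wF F a a' b b' i j) R {p | p ≠ Sum.inr c} := by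
  classical
  intro h
  apply hC
  have hF : ∀ p : V ⊕ Bool, p ≠ Sum.inr c → ∀ r, wF F a a' b b' i j p r →
      lF F a a' b b' i' j' (cc a b p) r := by
    intro p hp r h1
    refine ⟨h1.1, h1.2.imp id fun h2 => ?_⟩
    refine lt_of_lt_of_le h2 ?_
    rcases p with p | d
    · change (if p = b then i else j) ≤ if p = b then i' else j'
      rw [hi, hj]
      cases c <;> split_ifs <;> simp at *
    · rcases d with _ | _
      · change i + 1 ≤ if b = b then i' else j'
        rw [if_pos rfl, hi]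
        cases c
        · exact absurd rfl hp
        · simp
      · change j + 1 ≤ if a = b then i' else j'
        rw [if_neg hab, hj]
        cases c
        · simp
        · exact absurd rfl hp
  refine Crs.map (cc a b) (fun _ _ => trivial) (fun p hp r _ h1 => hF p hp r h1) ?_ h
  intro p hp q hq hpq r hr h1 h2
  have h3 := hF _ hp _ h1
  have h4 := hF _ hq _ h2
  rcases cc_adj hpq with h5 | h5
  · rw [h5]
  · exact ReflTransGen.single ⟨⟨trivial, trivial⟩, ⟨hr, hr⟩, ⟨h3, h4⟩, Or.inl ⟨h5, rfl⟩⟩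

/-- The refinement without a new leaf is connected. -/
theorem wG_conn (hG : ∀ x y, ReflTransGen G.Adj x y) (c : Bool) (p : V ⊕ Bool)
    (hp : p ≠ Sum.inr c) (q : V ⊕ Bool) (hq : q ≠ Sum.inr c) :
    ReflTransGen (fun x y => (wG G a b).Adj x y ∧ y ≠ Sum.inr c) p q := by
  have h1 : ReflTransGen (fun x y => (wG G a b).Adj x y ∧ y ≠ Sum.inr c) p
      (Sum.inl (cc a b p)) := by
    rcases p with p | d
    · exact ReflTransGen.refl
    · exact ReflTransGen.single ⟨rfl, by simp⟩
  have h2 : ReflTransGen (fun x y => (wG G a b).Adj x y ∧ y ≠ Sum.inr c)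
      (Sum.inl (cc a b q)) q := by
    rcases q with q | d
    · exact ReflTransGen.refl
    · exact ReflTransGen.single ⟨rfl, hq⟩
  have h3 := (hG (cc a b p) (cc a b q)).lift (p := fun x y => (wG G a b).Adj x y ∧
    y ≠ Sum.inr c) (Sum.inl) (fun x y h => ⟨h, by simp⟩)
  exact (h1.trans h3).trans h2

/-- The moves of the reader give moves in the collapsed game. -/
theorem collapse (ha : G.Adj a a') (hau : ∀ p, G.Adj a p → p = a') (hb : G.Adj b b')
    (hbu : ∀ p, G.Adj b p → p = b') (hab : a ≠ b) (hab' : a' ≠ b) (hba' : b' ≠ a)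
    {M : ℕ} {x : ℕ → V ⊕ Bool} {u : ℕ → ℕ}
    (hF : ∀ t ≤ M, wF F a a' b b' i j (x t) (u t) ∧ u t ≤ R)
    (hst : ∀ t < M, ((wG G a b).Adj (x t) (x (t + 1)) ∧ u t = u (t + 1)) ∨
      (x t = x (t + 1) ∧ (u (t + 1) = u t + 1 ∨ u t = u (t + 1) + 1)))
    {c c' : (V ⊕ Bool) × ℕ} (h : ReflTransGen (Nst (wG G a b) (wF F a a' b b' i j) M u) c c') :
    ReflTransGen (Gmv G F R)
      (cc a b (x c.2), cr F a a' b b' (cc a b c.1) (u c.2), u c.2)
      (cc a b (x c'.2), cr F a a' b b' (cc a b c'.1) (u c'.2), u c'.2) := by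
  have hcr : ∀ (g g' : V ⊕ Bool) (r r' : ℕ), Eqa (wG G a b) g g' →
      Eqa G (cr F a a' b b' (cc a b g) r) (cr F a a' b b' (cc a b g') r') := by
    intro g g' r r' h
    refine eqa_pr ha hau hb hbu hab hab' hba' (cc_eqa h) ?_ ?_
    · unfold cr
      split_ifs
      · exact Or.inr rfl
      · exact Or.inl rfl
    · unfold cr
      split_ifs
      · exact Or.inr rfl
      · exact Or.inl rfl
  -- one step in time
  have step : ∀ (g g' : V ⊕ Bool) (t : ℕ), t < M → ¬ wF F a a' b b' i j g (u t) →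
      ¬ wF F a a' b b' i j g' (u (t + 1)) → Eqa (wG G a b) g g' →
      ReflTransGen (Gmv G F R) (cc a b (x t), cr F a a' b b' (cc a b g) (u t), u t)
        (cc a b (x (t + 1)), cr F a a' b b' (cc a b g') (u (t + 1)), u (t + 1)) := by
    intro g g' t ht h1 h2 h3
    obtain ⟨h4, h5⟩ := hF t (by omega)
    obtain ⟨h6, h7⟩ := hF (t + 1) (by omega)
    have k1 := cr_near h1
    have k2 := cr_near h2
    have k3 := hcr g g' (u t) (u (t + 1)) h3
    rcases hst t ht with ⟨h8, h9⟩ | ⟨h8, h9⟩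
    · rw [← h9] at h6 k2 k3 ⊢
      have m1 : ReflTransGen (Gmv G F R) (cc a b (x t), cr F a a' b b' (cc a b g) (u t), u t)
          (cc a b (x (t + 1)), cr F a a' b b' (cc a b g) (u t), u t) := by
        rcases cc_adj h8 with h10 | h10
        · rw [h10]
        · exact ReflTransGen.single ⟨⟨h5, h4.1, k1⟩, ⟨h5, h6.1, k1⟩, Or.inl ⟨h10, rfl, rfl⟩⟩
      exact m1.tail ⟨⟨h5, h6.1, k1⟩, ⟨h5, h6.1, k2⟩, Or.inr ⟨rfl, k3, by simp only; omega,
        by simp only; omega⟩⟩
    · rw [← h8] at h6 ⊢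
      exact ReflTransGen.single ⟨⟨h5, h4.1, k1⟩, ⟨h7, h6.1, k2⟩, Or.inr ⟨rfl, k3,
        by simp only; omega, by simp only; omega⟩⟩
  refine ReflTransGen.lift' (fun c : (V ⊕ Bool) × ℕ => (cc a b (x c.2),
    cr F a a' b b' (cc a b c.1) (u c.2), u c.2)) ?_ _ _ h
  rintro ⟨g, t⟩ ⟨g', t'⟩ ⟨⟨h1, h2⟩, ⟨h3, h4⟩, h5, h6, h7⟩
  simp only at h1 h2 h3 h4 h5 h6 h7 ⊢
  rcases Nat.lt_trichotomy t t' with h8 | h8 | h8
  · have : t' = t + 1 := by omega
    subst this
    exact step g g' t (by omega) h3 h4 h5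
  · subst h8
    obtain ⟨h9, h10⟩ := hF t h1
    exact ReflTransGen.single ⟨⟨h10, h9.1, cr_near h3⟩, ⟨h10, h9.1, cr_near h4⟩,
      Or.inr ⟨rfl, hcr g g' (u t) (u t) h5, by simp only; omega, by simp only; omega⟩⟩
  · have : t = t' + 1 := by omega
    subst this
    exact rtg_symm (fun _ _ h => h.symm) (step g' g t' (by omega) h4 h3 h5.symm)

/-- **Existence.** -/
theorem exists_type (hG : ∀ x y, ReflTransGen G.Adj x y) (hR : 2 ≤ R)
    (ha : G.Adj a a') (hau : ∀ p, G.Adj a p → p = a') (hb : G.Adj b b')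
    (hbu : ∀ p, G.Adj b p → p = b') (hab : a ≠ b) (hab' : a' ≠ b) (hba' : b' ≠ a)
    (h0 : ∀ p, F p 0)
    (w : ℕ → V) (hw : ∀ r, 0 < r → r < R → ¬ F (w r) r ∧ w r ≠ a ∧ w r ≠ b)
    (hw2 : ∀ r, 0 < r → r + 1 < R → Eqa G (w r) (w (r + 1)))
    (hC : Crs G F R Set.univ) (hCb : ¬ Crs G F R {p | p ≠ b}) (hCa : ¬ Crs G F R {p | p ≠ a}) :
    ∃ (x1 p1 p2 x2 : V) (s1 s2 : ℕ), ReflTransGen (Gmv G F R) (x1, p1, s1) (p2, x2, s2) ∧
      Gok F R (x1, p1, s1) ∧ Eqa G x1 x2 ∧ Eqa G p1 p2 ∧
      (x1 = x2 ∨ p1 = p2 ∨ ¬ ((∀ r, F x1 r ↔ F p2 r) ∧ ∀ r, F x2 r ↔ F p1 r)) := by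
  classical
  -- minimal levels
  have hex : ∃ n, ∃ i j, i + j = n ∧ Crs G (lF F a a' b b' i j) R Set.univ :=
    ⟨_, R + 1, R + 1, rfl, lF_top hC⟩
  obtain ⟨i1, j1, h1, h2⟩ := Nat.find_spec hex
  have hmin : ∀ i j, i + j < i1 + j1 → ¬ Crs G (lF F a a' b b' i j) R Set.univ := by
    intro i j h3 h4
    exact Nat.find_min hex (h1 ▸ h3) ⟨i, j, rfl, h4⟩
  have hi : i1 ≠ 0 := by
    rintro rfl
    exact lF_pos_b hbu hb hCb h2
  have hj : j1 ≠ 0 := by
    rintro rfl
    exact lF_pos_a hau ha hab hCa h2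
  obtain ⟨i, rfl⟩ : ∃ i, i1 = i + 1 := ⟨i1 - 1, by omega⟩
  obtain ⟨j, rfl⟩ : ∃ j, j1 = j + 1 := ⟨j1 - 1, by omega⟩
  have key := core (wG G a b) (wF F a a' b b' i j) R hR (β := Sum.inr false) (β' := Sum.inl b)
    (α := Sum.inr true) (α' := Sum.inl a) rfl
    (by
      rintro (p | c) h
      · exact congrArg Sum.inl h
      · exact absurd h id)
    rfl
    (by
      rintro (p | c) h
      · exact congrArg Sum.inl h
      · exact absurd h id)
    (by simp) (fun g => ⟨h0 _, Or.inl (h0 _)⟩)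
    (wG_conn hG false) (wG_conn hG true)
    (fun r => Sum.inl (w r))
    (fun r hr hr' => ⟨fun h => (hw r hr hr').1 h.1, by simp, by simp⟩)
    (fun r hr hr' => by
      rcases hw2 r hr hr' with h | h
      · left
        rw [h]
      · exact Or.inr h)
    (wF_crs hau ha hbu hb hab hab' hba' h2)
    (wF_not false hab rfl rfl (hmin _ _ (by simp)))
    (wF_not true hab rfl rfl (hmin _ _ (by simp)))
    (by
      intro r r' h3 h4 h5 h6
      have hh : ∀ r, wF F a a' b b' i j (Sum.inr false) r → ¬ wF F a a' b b' i j (Sum.inl b) r →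
          r = i := by
        intro r h7 h8
        have h9 : ¬ F (pr a a' b b' b) r := fun h => h8 ⟨h7.1, Or.inl h⟩
        have h10 : ¬ r < i := fun h => h8 ⟨h7.1, Or.inr (by
          change r < if b = b then i else j
          rw [if_pos rfl]
          exact h)⟩
        rcases h7.2 with h11 | h11
        · exact absurd h11 h9
        · change r < i + 1 at h11
          omega
      rw [hh r h3 h4, hh r' h5 h6])
    (by
      intro r r' h3 h4 h5 h6
      have hh : ∀ r, wF F a a' b b' i j (Sum.inr true) r → ¬ wF F a a' b b' i j (Sum.inl a) r →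
          r = j := by
        intro r h7 h8
        have h9 : ¬ F (pr a a' b b' a) r := fun h => h8 ⟨h7.1, Or.inl h⟩
        have h10 : ¬ r < j := fun h => h8 ⟨h7.1, Or.inr (by
          change r < if a = b then i else j
          rw [if_neg hab]
          exact h)⟩
        rcases h7.2 with h11 | h11
        · exact absurd h11 h9
        · change r < j + 1 at h11
          omega
      rw [hh r h3 h4, hh r' h5 h6])
  obtain ⟨M, x, u, s, t, hs, ht, hF, hst, hN, n1, n2, hx⟩ := key
  have hc := collapse ha hau hb hbu hab hab' hba' hF hst hN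
  simp only at hc
  -- the vertices below
  have c1 : cc a b (rep (Sum.inr true) (Sum.inl a) x s) = cc a b (x s) := by
    unfold rep
    split_ifs with h3
    · rw [h3]
      rfl
    · rfl
  have c2 : cc a b (rep (Sum.inr false) (Sum.inl b) x t) = cc a b (x t) := by
    unfold rep
    split_ifs with h3
    · rw [h3]
      rfl
    · rfl
  rw [c1, c2] at hc
  have d1 : Eqa G (cc a b (x t)) (cr F a a' b b' (cc a b (x t)) (u s)) := by
    refine eqa_pr ha hau hb hbu hab hab' hba' (Or.inl rfl) (Or.inl rfl) ?_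
    unfold cr
    split_ifs
    · exact Or.inr rfl
    · exact Or.inl rfl
  have d2 : Eqa G (cr F a a' b b' (cc a b (x s)) (u t)) (cc a b (x s)) := by
    refine eqa_pr ha hau hb hbu hab hab' hba' (Or.inl rfl) ?_ (Or.inl rfl)
    unfold cr
    split_ifs
    · exact Or.inr rfl
    · exact Or.inl rfl
  refine ⟨_, _, _, _, _, _, hc, ⟨(hF t ht).2, (hF t ht).1.1, ?_⟩, d1, d2, ?_⟩
  · have := cr_near n1
    rw [c1] at this
    exact this
  -- the columns
  by_contra hcon
  rw [not_or, not_or, not_not] at hcon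
  obtain ⟨e1, e2, e3, e4⟩ := hcon
  have f1 : F (cc a b (x t)) (u s) := by
    by_contra h3
    apply e1
    unfold cr
    rw [if_neg h3]
  have f2 : F (cc a b (x s)) (u t) := by
    by_contra h3
    apply e2
    unfold cr
    rw [if_neg h3]
  have g1 : cr F a a' b b' (cc a b (x t)) (u s) = pr a a' b b' (cc a b (x t)) := by
    unfold cr
    rw [if_pos f1]
  have g2 : cr F a a' b b' (cc a b (x s)) (u t) = pr a a' b b' (cc a b (x s)) := by
    unfold cr
    rw [if_pos f2]
  rw [g1, g2] at e4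
  -- levels
  have l1 : ¬ F (pr a a' b b' (cc a b (x s))) (u t) ∧
      kk b i j (rep (Sum.inr true) (Sum.inl a) x s) ≤ u t := by
    constructor
    · intro h3
      exact n1 ⟨c1 ▸ f2, Or.inl (c1 ▸ h3)⟩
    · by_contra h3
      exact n1 ⟨c1 ▸ f2, Or.inr (not_le.1 h3)⟩
  have l2 : ¬ F (pr a a' b b' (cc a b (x t))) (u s) ∧
      kk b i j (rep (Sum.inr false) (Sum.inl b) x t) ≤ u s := by
    constructor
    · intro h3
      exact n2 ⟨c2 ▸ f1, Or.inl (c2 ▸ h3)⟩
    · by_contra h3
      exact n2 ⟨c2 ▸ f1, Or.inr (not_le.1 h3)⟩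
  have l3 : u t < kk b i j (x t) := by
    rcases (hF t ht).1.2 with h3 | h3
    · exact absurd ((e4 _).1 h3) l1.1
    · exact h3
  have l4 : u s < kk b i j (x s) := by
    rcases (hF s hs).1.2 with h3 | h3
    · exact absurd ((e4 _).2 h3) l2.1
    · exact h3
  have kb : kk b i j (Sum.inl b) = i := by
    change (if b = b then i else j) = i
    rw [if_pos rfl]
  have ka : kk b i j (Sum.inl a) = j := by
    change (if a = b then i else j) = j
    rw [if_neg hab]
  have kβ : kk b i j (Sum.inr false) = i + 1 := rfl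
  have kα : kk b i j (Sum.inr true) = j + 1 := rfl
  by_cases h3 : x s = Sum.inr true
  · have r1 : rep (Sum.inr true) (Sum.inl a) x s = Sum.inl a := by
      unfold rep
      rw [if_pos h3]
    rw [r1, ka] at l1
    rw [h3, kα] at l4
    by_cases h4 : x t = Sum.inr false
    · have r2 : rep (Sum.inr false) (Sum.inl b) x t = Sum.inl b := by
        unfold rep
        rw [if_pos h4]
      rw [r2, kb] at l2
      rw [h4, kβ] at l3
      apply hx
      refine ⟨h3, ?_, h4, ?_⟩
      · rintro ⟨-, h5 | h5⟩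
        · have h6 := l2.1
          have h7 : F (pr a a' b b' (cc a b (x s))) (u s) := by
            rw [h3]
            exact h5
          exact h6 ((e4 _).2 h7)
        · rw [ka] at h5
          omega
      · rintro ⟨-, h5 | h5⟩
        · have h6 := l1.1
          have h7 : F (pr a a' b b' (cc a b (x t))) (u t) := by
            rw [h4]
            exact h5
          exact h6 ((e4 _).1 h7)
        · rw [kb] at h5
          omega
    · have r2 : rep (Sum.inr false) (Sum.inl b) x t = x t := by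
        unfold rep
        rw [if_neg h4]
      rw [r2] at l2
      omega
  · have r1 : rep (Sum.inr true) (Sum.inl a) x s = x s := by
      unfold rep
      rw [if_neg h3]
    rw [r1] at l1
    by_cases h4 : x t = Sum.inr false
    · have r2 : rep (Sum.inr false) (Sum.inl b) x t = Sum.inl b := by
        unfold rep
        rw [if_pos h4]
      rw [r2, kb] at l2
      rw [h4, kβ] at l3
      omega
    · have r2 : rep (Sum.inr false) (Sum.inl b) x t = x t := by
        unfold rep
        rw [if_neg h4]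
      rw [r2] at l2
      omega

end

end Pool.Agent.Lib.MP_40f35d_gt.Gs
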