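import Mathlib

/-!
# The potential of the strand

Cells are pairs `(p, t)`, `p` a vertex, `t ≤ M` a time. `Nr p t`: the cell is near. `D0` is a
component (for the moves to equal or adjacent vertices at times which differ by at most one) of
the near cells which contains a path (the strand) from time `1` to time `M - 1`. `h` is a set of
far cells which is closed under far neighbours, contains all cells of time `0` and no cell of
time `M`. An edge is marked if `h` changes and its near end is in `D0`. The number of marked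
edges is a potential.
-/

namespace Pool.Agent.Lib.MP_40f35d_gt.Gs

variable {V : Type*}

/-- Moves: equal or adjacent vertices. -/
def Eqa (D : SimpleGraph V) (p q : V) : Prop := q = p ∨ D.Adj p q

theorem Eqa.symm {D : SimpleGraph V} {p q : V} (h : Eqa D p q) : Eqa D q p := by
  rcases h with h | h
  · exact Or.inl h.symm
  · exact Or.inr h.symm

/-- Data for the potential. -/
structure PotData (D : SimpleGraph V) (S : Set V) (M : ℕ) (Nr D0 h : V → ℕ → Prop) : Prop where
  /-- `D0` consists of near cells -/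
  near : ∀ p t, D0 p t → Nr p t
  /-- `D0` is closed under moves -/
  clo : ∀ p q t t', D0 p t → Eqa D p q → t ≤ t' + 1 → t' ≤ t + 1 → t' ≤ M → Nr q t' → D0 q t'
  /-- `h` consists of far cells -/
  far : ∀ p t, h p t → ¬ Nr p t
  /-- `h` is closed under far neighbours in `S` -/
  hor : ∀ p q t, p ∈ S → q ∈ S → D.Adj p q → t ≤ M → h p t → ¬ Nr q t → h q t
  up : ∀ p t, p ∈ S → t < M → h p t → ¬ Nr p (t + 1) → h p (t + 1)
  down : ∀ p t, p ∈ S → t < M → h p (t + 1) → ¬ Nr p t → h p t
  bot : ∀ p, p ∈ S → h p 0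
  top : ∀ p, p ∈ S → ¬ h p M

open Classical in
/-- The mark of an edge with the ends `(p, t)`, `(q, t')`. -/
noncomputable def mrk (D0 h : V → ℕ → Prop) (p : V) (t : ℕ) (q : V) (t' : ℕ) : ZMod 2 :=
  if ¬ (h p t ↔ h q t') ∧ (D0 p t ∨ D0 q t') then 1 else 0

/-- The potential. -/
noncomputable def pot (D0 h : V → ℕ → Prop) (p : V) (t : ℕ) : ZMod 2 :=
  1 + ∑ s ∈ Finset.range t, mrk D0 h p s p (s + 1)

theorem pot_succ (D0 h : V → ℕ → Prop) (p : V) (t : ℕ) :
    pot D0 h p (t + 1) = pot D0 h p t + mrk D0 h p t p (t + 1) := by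
  unfold pot
  rw [Finset.sum_range_succ, add_assoc]

theorem mrk_comm (D0 h : V → ℕ → Prop) (p : V) (t : ℕ) (q : V) (t' : ℕ) :
    mrk D0 h p t q t' = mrk D0 h q t' p t := by
  classical
  unfold mrk
  congr 1
  rw [eq_iff_iff]
  constructor
  · rintro ⟨h1, h2⟩
    exact ⟨fun h3 => h1 h3.symm, h2.symm⟩
  · rintro ⟨h1, h2⟩
    exact ⟨fun h3 => h1 h3.symm, h2.symm⟩

theorem zmod2_add_self (a : ZMod 2) : a + a = 0 := by
  revert a; decide

variable {D : SimpleGraph V} {S : Set V} {M : ℕ} {Nr D0 h : V → ℕ → Prop}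

/-- The four edges of a square have an even number of marks. -/
theorem PotData.sq (P : PotData D S M Nr D0 h) {p q : V} (hp : p ∈ S) (hq : q ∈ S)
    (hpq : D.Adj p q) {t : ℕ} (ht : t < M) :
    mrk D0 h p t p (t + 1) + mrk D0 h q t q (t + 1) = mrk D0 h p t q t + mrk D0 h p (t + 1) q (t + 1) := by
  classical
  by_cases hD : D0 p t ∨ D0 q t ∨ D0 p (t + 1) ∨ D0 q (t + 1)
  · -- all near cells of the square are in `D0`
    have hpq' : Eqa D p q := Or.inr hpq
    have key : ∀ (a b : V) (s s' : ℕ), (a = p ∨ a = q) → (b = p ∨ b = q) →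
        (s = t ∨ s = t + 1) → (s' = t ∨ s' = t + 1) → D0 a s → Nr b s' → D0 b s' := by
      intro a b s s' ha hb hs hs' h1 h2
      refine P.clo a b s s' h1 ?_ (by omega) (by omega) (by omega) h2
      rcases ha with rfl | rfl <;> rcases hb with rfl | rfl
      · exact Or.inl rfl
      · exact hpq'
      · exact hpq'.symm
      · exact Or.inl rfl
    have all : ∀ (b : V) (s' : ℕ), (b = p ∨ b = q) → (s' = t ∨ s' = t + 1) → Nr b s' → D0 b s' := by
      intro b s' hb hs' h2
      rcases hD with h1 | h1 | h1 | h1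
      · exact key p b t s' (Or.inl rfl) hb (Or.inl rfl) hs' h1 h2
      · exact key q b t s' (Or.inr rfl) hb (Or.inl rfl) hs' h1 h2
      · exact key p b (t + 1) s' (Or.inl rfl) hb (Or.inr rfl) hs' h1 h2
      · exact key q b (t + 1) s' (Or.inr rfl) hb (Or.inr rfl) hs' h1 h2
    -- a change of `h` is marked
    have e1 : mrk D0 h p t p (t + 1) = if (h p t ↔ h p (t + 1)) then 0 else 1 := by
      unfold mrk
      by_cases hh : (h p t ↔ h p (t + 1))
      · simp [hh]
      · have : D0 p t ∨ D0 p (t + 1) := by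
          by_cases h1 : h p t
          · have h2 : ¬ h p (t + 1) := fun h3 => hh ⟨fun _ => h3, fun _ => h1⟩
            right
            refine all p (t + 1) (Or.inl rfl) (Or.inr rfl) ?_
            by_contra h3
            exact h2 (P.up p t hp ht h1 h3)
          · have h2 : h p (t + 1) := by
              by_contra h3
              exact hh ⟨fun h4 => absurd h4 h1, fun h4 => absurd h4 h3⟩
            left
            refine all p t (Or.inl rfl) (Or.inl rfl) ?_
            by_contra h3
            exact h1 (P.down p t hp ht h2 h3)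
        simp [hh, this]
    have e2 : mrk D0 h q t q (t + 1) = if (h q t ↔ h q (t + 1)) then 0 else 1 := by
      unfold mrk
      by_cases hh : (h q t ↔ h q (t + 1))
      · simp [hh]
      · have : D0 q t ∨ D0 q (t + 1) := by
          by_cases h1 : h q t
          · have h2 : ¬ h q (t + 1) := fun h3 => hh ⟨fun _ => h3, fun _ => h1⟩
            right
            refine all q (t + 1) (Or.inr rfl) (Or.inr rfl) ?_
            by_contra h3
            exact h2 (P.up q t hq ht h1 h3)
          · have h2 : h q (t + 1) := by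
              by_contra h3
              exact hh ⟨fun h4 => absurd h4 h1, fun h4 => absurd h4 h3⟩
            left
            refine all q t (Or.inr rfl) (Or.inl rfl) ?_
            by_contra h3
            exact h1 (P.down q t hq ht h2 h3)
        simp [hh, this]
    have e3 : ∀ s, (s = t ∨ s = t + 1) → mrk D0 h p s q s = if (h p s ↔ h q s) then 0 else 1 := by
      intro s hs
      have hsM : s ≤ M := by omega
      unfold mrk
      by_cases hh : (h p s ↔ h q s)
      · simp [hh]
      · have : D0 p s ∨ D0 q s := by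
          by_cases h1 : h p s
          · have h2 : ¬ h q s := fun h3 => hh ⟨fun _ => h3, fun _ => h1⟩
            right
            refine all q s (Or.inr rfl) hs ?_
            by_contra h3
            exact h2 (P.hor p q s hp hq hpq hsM h1 h3)
          · have h2 : h q s := by
              by_contra h3
              exact hh ⟨fun h4 => absurd h4 h1, fun h4 => absurd h4 h3⟩
            left
            refine all p s (Or.inl rfl) hs ?_
            by_contra h3
            exact h1 (P.hor q p s hq hp hpq.symm hsM h2 h3)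
        simp [hh, this]
    rw [e1, e2, e3 t (Or.inl rfl), e3 (t + 1) (Or.inr rfl)]
    by_cases a1 : h p t <;> by_cases a2 : h p (t + 1) <;> by_cases a3 : h q t <;>
      by_cases a4 : h q (t + 1) <;> simp only [a1, a2, a3, a4, iff_self, iff_true, iff_false,
        not_true_eq_false, if_true, if_false] <;> decide
  · push Not at hD
    obtain ⟨h1, h2, h3, h4⟩ := hD
    have z : ∀ (a b : V) (s s' : ℕ), ¬ D0 a s → ¬ D0 b s' → mrk D0 h a s b s' = 0 := by
      intro a b s s' ha hb
      unfold mrk
      rw [if_neg]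
      rintro ⟨-, h5 | h5⟩
      · exact ha h5
      · exact hb h5
    rw [z _ _ _ _ h1 h3, z _ _ _ _ h2 h4, z _ _ _ _ h1 h2, z _ _ _ _ h3 h4]

/-- The potential of neighbours. -/
theorem PotData.adj (P : PotData D S M Nr D0 h) {p q : V} (hp : p ∈ S) (hq : q ∈ S)
    (hpq : D.Adj p q) {t : ℕ} (ht : t ≤ M) :
    pot D0 h q t = pot D0 h p t + mrk D0 h p t q t := by
  induction t with
  | zero =>
    have : mrk D0 h p 0 q 0 = 0 := by
      unfold mrk
      rw [if_neg]
      rintro ⟨h1, -⟩
      exact h1 ⟨fun _ => P.bot q hq, fun _ => P.bot p hp⟩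
    rw [this]
    simp [pot]
  | succ t ih =>
    have h1 := ih (by omega)
    have h2 := P.sq hp hq hpq (t := t) (by omega)
    rw [pot_succ, pot_succ, h1]
    have h3 : mrk D0 h p (t + 1) q (t + 1) =
        mrk D0 h p t p (t + 1) + mrk D0 h q t q (t + 1) + mrk D0 h p t q t := by
      rw [h2, add_comm (mrk D0 h p t q t), add_assoc, zmod2_add_self, add_zero]
    rw [h3]
    have h4 := zmod2_add_self (mrk D0 h p t p (t + 1))
    linear_combination -h4

/-- Cells of `D0` which are equal or adjacent have the same potential. -/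
theorem PotData.strand (P : PotData D S M Nr D0 h) {p q : V} (hp : p ∈ S) (hq : q ∈ S)
    (hpq : Eqa D p q) {t t' : ℕ} (h1 : t ≤ t' + 1) (h2 : t' ≤ t + 1) (ht : t ≤ M) (ht' : t' ≤ M)
    (hD : D0 p t) (hD' : D0 q t') : pot D0 h q t' = pot D0 h p t := by
  classical
  -- same vertex
  have same : ∀ (p : V) (t : ℕ), p ∈ S → t < M → D0 p t → D0 p (t + 1) →
      pot D0 h p (t + 1) = pot D0 h p t := by
    intro p t _ _ ha hb
    rw [pot_succ]
    have : mrk D0 h p t p (t + 1) = 0 := by
      unfold mrk
      rw [if_neg]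
      rintro ⟨h5, -⟩
      exact h5 ⟨fun h6 => absurd (P.near _ _ ha) (P.far _ _ h6),
        fun h6 => absurd (P.near _ _ hb) (P.far _ _ h6)⟩
    rw [this, add_zero]
  have row : ∀ (p q : V) (t : ℕ), p ∈ S → q ∈ S → D.Adj p q → t ≤ M → D0 p t → D0 q t →
      pot D0 h q t = pot D0 h p t := by
    intro p q t hp hq hpq ht ha hb
    rw [P.adj hp hq hpq ht]
    have : mrk D0 h p t q t = 0 := by
      unfold mrk
      rw [if_neg]
      rintro ⟨h5, -⟩
      exact h5 ⟨fun h6 => absurd (P.near _ _ ha) (P.far _ _ h6),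
        fun h6 => absurd (P.near _ _ hb) (P.far _ _ h6)⟩
    rw [this, add_zero]
  -- diagonal
  have diag : ∀ (p q : V) (t : ℕ), p ∈ S → q ∈ S → D.Adj p q → t < M → D0 p t → D0 q (t + 1) →
      pot D0 h q (t + 1) = pot D0 h p t := by
    intro p q t hp hq hpq ht ha hb
    rw [P.adj hp hq hpq (t := t + 1) (by omega), pot_succ]
    have n1 : ¬ h p t := fun h6 => P.far _ _ h6 (P.near _ _ ha)
    have n2 : ¬ h q (t + 1) := fun h6 => P.far _ _ h6 (P.near _ _ hb)
    by_cases h7 : h p (t + 1)
    · have m1 : mrk D0 h p t p (t + 1) = 1 := by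
        unfold mrk
        rw [if_pos]
        exact ⟨fun h8 => n1 (h8.2 h7), Or.inl ha⟩
      have m2 : mrk D0 h p (t + 1) q (t + 1) = 1 := by
        unfold mrk
        rw [if_pos]
        exact ⟨fun h8 => n2 (h8.1 h7), Or.inr hb⟩
      rw [m1, m2, add_assoc, zmod2_add_self, add_zero]
    · have m1 : mrk D0 h p t p (t + 1) = 0 := by
        unfold mrk
        rw [if_neg]
        rintro ⟨h8, -⟩
        exact h8 ⟨fun h9 => absurd h9 n1, fun h9 => absurd h9 h7⟩
      have m2 : mrk D0 h p (t + 1) q (t + 1) = 0 := by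
        unfold mrk
        rw [if_neg]
        rintro ⟨h8, -⟩
        exact h8 ⟨fun h9 => absurd h9 h7, fun h9 => absurd h9 n2⟩
      rw [m1, m2, add_zero, add_zero]
  rcases hpq with rfl | hpq
  · rcases Nat.lt_trichotomy t t' with h3 | h3 | h3
    · have : t' = t + 1 := by omega
      subst this
      exact same q t hp (by omega) hD hD'
    · subst h3
      rfl
    · have : t = t' + 1 := by omega
      subst this
      exact (same q t' hp (by omega) hD' hD).symm
  · rcases Nat.lt_trichotomy t t' with h3 | h3 | h3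
    · have : t' = t + 1 := by omega
      subst this
      exact diag p q t hp hq hpq (by omega) hD hD'
    · subst h3
      exact row p q t hp hq hpq ht hD hD'
    · have : t = t' + 1 := by omega
      subst this
      exact (diag q p t' hq hp hpq.symm (by omega) hD' hD).symm

/-- **The potential.** `S` is connected, the strand `(v k, τ k)`, `k ≤ K`, goes from time `1` to
time `M - 1` in `S`. -/
theorem PotData.main (P : PotData D S M Nr D0 h) (hM : 1 ≤ M)
    (hconn : ∀ p ∈ S, ∀ q ∈ S, Relation.ReflTransGen (fun a b => D.Adj a b ∧ b ∈ S) p q)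
    {K : ℕ} {v : ℕ → V} {τ : ℕ → ℕ} (hv : ∀ k ≤ K, v k ∈ S) (hτ : ∀ k ≤ K, τ k ≤ M)
    (hD : ∀ k ≤ K, D0 (v k) (τ k))
    (hst : ∀ k < K, Eqa D (v k) (v (k + 1)) ∧ τ k ≤ τ (k + 1) + 1 ∧ τ (k + 1) ≤ τ k + 1)
    (h0 : τ 0 = 1) (hK : τ K = M - 1) :
    (∀ p ∈ S, pot D0 h p 0 = 1) ∧ (∀ p ∈ S, pot D0 h p M = 0) ∧
    (∀ p, ∀ t, pot D0 h p t ≠ pot D0 h p (t + 1) → D0 p t ∨ D0 p (t + 1)) ∧
    (∀ p ∈ S, ∀ q ∈ S, D.Adj p q → ∀ t ≤ M, pot D0 h p t ≠ pot D0 h q t → D0 p t ∨ D0 q t) ∧
    (∀ p ∈ S, ∀ t < M, (Nr p t ↔ Nr p (t + 1)) → pot D0 h p t = pot D0 h p (t + 1)) := by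
  classical
  refine ⟨fun p _ => by simp [pot], ?_, ?_, ?_, ?_⟩
  · -- the value on the top row
    have s0 : pot D0 h (v 0) 1 = 0 := by
      have h1 : mrk D0 h (v 0) 0 (v 0) 1 = 1 := by
        unfold mrk
        rw [if_pos]
        have h2 := hD 0 (Nat.zero_le _)
        rw [h0] at h2
        refine ⟨fun h3 => ?_, Or.inr h2⟩
        exact P.far _ _ (h3.1 (P.bot _ (hv 0 (Nat.zero_le _)))) (P.near _ _ h2)
      rw [show (1 : ℕ) = 0 + 1 from rfl, pot_succ, h1]
      have h3 : pot D0 h (v 0) 0 = 1 := by simp [pot]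
      rw [h3]
      exact zmod2_add_self 1
    have sk : ∀ k ≤ K, pot D0 h (v k) (τ k) = 0 := by
      intro k
      induction k with
      | zero =>
        intro _
        rw [h0]
        exact s0
      | succ k ih =>
        intro hk
        obtain ⟨a1, a2, a3⟩ := hst k (by omega)
        rw [P.strand (hv k (by omega)) (hv (k + 1) hk) a1 a2 a3 (hτ k (by omega)) (hτ (k + 1) hk)
          (hD k (by omega)) (hD (k + 1) hk)]
        exact ih (by omega)
    have hKK := sk K le_rfl
    have hDK := hD K le_rfl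
    rw [hK] at hKK hDK
    have htop : pot D0 h (v K) M = 0 := by
      have h1 : M = (M - 1) + 1 := by omega
      have h2 : mrk D0 h (v K) (M - 1) (v K) (M - 1 + 1) = 0 := by
        unfold mrk
        rw [if_neg]
        rintro ⟨h3, -⟩
        refine h3 ⟨fun h4 => absurd (P.near _ _ hDK) (P.far _ _ h4), fun h4 => ?_⟩
        rw [← h1] at h4
        exact absurd h4 (P.top _ (hv K le_rfl))
      rw [h1, pot_succ, h2, hKK, add_zero]
    intro p hp
    have hc := hconn (v K) (hv K le_rfl) p hp
    have hgen : ∀ q, Relation.ReflTransGen (fun a b => D.Adj a b ∧ b ∈ S) (v K) q →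
        q ∈ S ∧ pot D0 h q M = 0 := by
      intro q hq
      induction hq with
      | refl => exact ⟨hv K le_rfl, htop⟩
      | @tail b c _ hbc ih =>
        refine ⟨hbc.2, ?_⟩
        rw [P.adj ih.1 hbc.2 hbc.1 le_rfl, ih.2]
        have h2 : mrk D0 h b M c M = 0 := by
          unfold mrk
          rw [if_neg]
          rintro ⟨h3, -⟩
          exact h3 ⟨fun h4 => absurd h4 (P.top _ ih.1), fun h4 => absurd h4 (P.top _ hbc.2)⟩
        rw [h2, add_zero]
    exact (hgen p hc).2
  · intro p t hne
    by_contra hcon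
    push Not at hcon
    apply hne
    rw [pot_succ]
    have h2 : mrk D0 h p t p (t + 1) = 0 := by
      unfold mrk
      rw [if_neg]
      rintro ⟨-, h3 | h3⟩
      · exact hcon.1 h3
      · exact hcon.2 h3
    rw [h2, add_zero]
  · intro p hp q hq hpq t ht hne
    by_contra hcon
    push Not at hcon
    apply hne
    rw [P.adj hp hq hpq ht]
    have h2 : mrk D0 h p t q t = 0 := by
      unfold mrk
      rw [if_neg]
      rintro ⟨-, h3 | h3⟩
      · exact hcon.1 h3
      · exact hcon.2 h3
    rw [h2, add_zero]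
  · intro p hp t ht hN
    rw [pot_succ]
    have h2 : mrk D0 h p t p (t + 1) = 0 := by
      unfold mrk
      rw [if_neg]
      rintro ⟨h3, -⟩
      refine h3 ⟨fun h4 => ?_, fun h4 => ?_⟩
      · exact P.up p t hp ht h4 (fun h5 => P.far _ _ h4 (hN.2 h5))
      · exact P.down p t hp ht h4 (fun h5 => P.far _ _ h4 (hN.1 h5))
    rw [h2, add_zero]

end Pool.Agent.Lib.MP_40f35d_gt.Gs
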