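import Pool.Agent.Lib.MP_40f35d_gt.Gs.Po
import Pool.Agent.Lib.MP_40f35d_gt.Gs.Sq2

/-!
# The core of the existence lemma

`F p r`: the cell `(p, r)` is far; the rows `0` and `R` are far. `α`, `β` are leaves. There is a
far path from row `0` to row `R`, but none which avoids `α` and none which avoids `β`. The strand
`w` is a near walk with one cell in every row `0 < r < R`.
-/

set_option autoImplicit false

open Relation

namespace Pool.Agent.Lib.MP_40f35d_gt.Gs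

variable {V : Type}

/-- A step between far cells over the set `S` of vertices. -/
def Fst (G : SimpleGraph V) (F : V → ℕ → Prop) (R : ℕ) (S : Set V) (c c' : V × ℕ) : Prop :=
  (c.1 ∈ S ∧ c'.1 ∈ S) ∧ (c.2 ≤ R ∧ c'.2 ≤ R) ∧ (F c.1 c.2 ∧ F c'.1 c'.2) ∧
    ((G.Adj c.1 c'.1 ∧ c.2 = c'.2) ∨ (c.1 = c'.1 ∧ (c'.2 = c.2 + 1 ∨ c.2 = c'.2 + 1)))

/-- There is a far path from row `0` to row `R` over the set `S`. -/
def Crs (G : SimpleGraph V) (F : V → ℕ → Prop) (R : ℕ) (S : Set V) : Prop :=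
  ∃ p ∈ S, ∃ q ∈ S, ReflTransGen (Fst G F R S) (p, 0) (q, R)

theorem Fst.symm {G : SimpleGraph V} {F : V → ℕ → Prop} {R : ℕ} {S : Set V} {c c' : V × ℕ}
    (h : Fst G F R S c c') : Fst G F R S c' c := by
  obtain ⟨⟨h1, h2⟩, ⟨h3, h4⟩, ⟨h5, h6⟩, h7⟩ := h
  refine ⟨⟨h2, h1⟩, ⟨h4, h3⟩, ⟨h6, h5⟩, ?_⟩
  rcases h7 with ⟨h8, h9⟩ | ⟨h8, h9⟩
  · exact Or.inl ⟨h8.symm, h9.symm⟩
  · exact Or.inr ⟨h8.symm, h9.symm⟩

/-- The graph of the far cells. -/
def farG (G : SimpleGraph V) (F : V → ℕ → Prop) (R : ℕ) (S : Set V) : SimpleGraph (V × ℕ) where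
  Adj := Fst G F R S
  symm := ⟨fun _ _ h => h.symm⟩
  loopless := ⟨fun c h => by
    rcases h.2.2.2 with h8 | h8
    · exact G.loopless.irrefl _ h8.1
    · omega⟩

/-- A far path without repeated cells, which is in the rows `0` and `R` only at its ends. -/
theorem Crs.path {G : SimpleGraph V} {F : V → ℕ → Prop} {R : ℕ} (hR : 1 ≤ R)
    (h0 : ∀ p, F p 0) (h : Crs G F R Set.univ) :
    ∃ (M : ℕ) (x : ℕ → V) (u : ℕ → ℕ), u 0 = 0 ∧ u M = R ∧
      (∀ t, 0 < t → t < M → 0 < u t ∧ u t < R) ∧ (∀ t ≤ M, F (x t) (u t) ∧ u t ≤ R) ∧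
      (∀ t < M, (G.Adj (x t) (x (t + 1)) ∧ u t = u (t + 1)) ∨
        (x t = x (t + 1) ∧ (u (t + 1) = u t + 1 ∨ u t = u (t + 1) + 1))) ∧
      (∀ t ≤ M, ∀ t' ≤ M, x t = x t' → u t = u t' → t = t') := by
  classical
  obtain ⟨p, -, q, -, h⟩ := h
  have hr : (farG G F R Set.univ).Reachable (p, 0) (q, R) := by
    rw [SimpleGraph.reachable_iff_reflTransGen]
    exact h
  obtain ⟨W⟩ := hr
  obtain ⟨P, hP⟩ := W.toPath
  obtain ⟨y, hy⟩ : ∃ y : ℕ → V × ℕ, y = P.getVert := ⟨_, rfl⟩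
  obtain ⟨L, hL⟩ : ∃ L : ℕ, L = P.length := ⟨_, rfl⟩
  have y0 : y 0 = (p, 0) := by rw [hy, SimpleGraph.Walk.getVert_zero]
  have yL : y L = (q, R) := by rw [hy, hL, SimpleGraph.Walk.getVert_length]
  have yst : ∀ i < L, Fst G F R Set.univ (y i) (y (i + 1)) := by
    intro i hi
    rw [hy]
    exact P.adj_getVert_succ (hL ▸ hi)
  have yinj : ∀ i ≤ L, ∀ i' ≤ L, y i = y i' → i = i' := by
    intro i hi i' hi' h1
    rw [hy] at h1
    exact hP.getVert_injOn (by simpa [hL] using hi) (by simpa [hL] using hi') h1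
  have yfar : ∀ i ≤ L, F (y i).1 (y i).2 ∧ (y i).2 ≤ R := by
    intro i hi
    rcases Nat.eq_zero_or_pos i with h1 | h1
    · subst h1
      rw [y0]
      exact ⟨h0 p, Nat.zero_le _⟩
    · have h2 := yst (i - 1) (by omega)
      rw [show i - 1 + 1 = i from by omega] at h2
      exact ⟨h2.2.2.1.2, h2.2.1.2⟩
  -- the last time in row `0`
  obtain ⟨t0, ht0, h1, h2⟩ : ∃ t0 ≤ L, (y t0).2 = 0 ∧ ∀ t, t0 < t → t ≤ L → (y t).2 ≠ 0 := by
    refine ⟨Nat.findGreatest (fun t => (y t).2 = 0) L, Nat.findGreatest_le L, ?_, ?_⟩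
    · exact Nat.findGreatest_spec (P := fun t => (y t).2 = 0) (Nat.zero_le L) (by rw [y0])
    · intro t h3 h4 h5
      exact Nat.findGreatest_is_greatest h3 h4 h5
  have h3 : t0 < L := by
    rcases Nat.lt_or_ge t0 L with h3 | h3
    · exact h3
    · exfalso
      have h4 : t0 = L := by omega
      rw [h4, yL] at h1
      simp only at h1
      omega
  have hex : ∃ s, (y (t0 + s)).2 = R ∧ t0 + s ≤ L :=
    ⟨L - t0, by rw [show t0 + (L - t0) = L from by omega, yL], by omega⟩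
  obtain ⟨hM1, hM2⟩ := Nat.find_spec hex
  have hM3 : ∀ s < Nat.find hex, (y (t0 + s)).2 ≠ R := by
    intro s hs h4
    exact Nat.find_min hex hs ⟨h4, by omega⟩
  refine ⟨Nat.find hex, fun t => (y (t0 + t)).1, fun t => (y (t0 + t)).2, ?_, hM1, ?_, ?_, ?_, ?_⟩
  · simpa using h1
  · intro t h4 h5
    have h6 := h2 (t0 + t) (by omega) (by omega)
    have h7 := hM3 t h5
    have h8 := (yfar (t0 + t) (by omega)).2
    simp only
    omega
  · intro t ht
    exact yfar (t0 + t) (by omega)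
  · intro t ht
    exact (yst (t0 + t) (by omega)).2.2.2
  · intro t ht t' ht' h4 h5
    have := yinj (t0 + t) (by omega) (t0 + t') (by omega) (Prod.ext h4 h5)
    omega

/-- A step of the reader: vertex and time change by at most one. -/
def Nst (G : SimpleGraph V) (F : V → ℕ → Prop) (M : ℕ) (u : ℕ → ℕ) (c c' : V × ℕ) : Prop :=
  (c.2 ≤ M ∧ c'.2 ≤ M) ∧ (¬ F c.1 (u c.2) ∧ ¬ F c'.1 (u c'.2)) ∧ Eqa G c.1 c'.1 ∧
    c.2 ≤ c'.2 + 1 ∧ c'.2 ≤ c.2 + 1

theorem Nst.symm {G : SimpleGraph V} {F : V → ℕ → Prop} {M : ℕ} {u : ℕ → ℕ} {c c' : V × ℕ}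
    (h : Nst G F M u c c') : Nst G F M u c' c :=
  ⟨⟨h.1.2, h.1.1⟩, ⟨h.2.1.2, h.2.1.1⟩, h.2.2.1.symm, h.2.2.2.2, h.2.2.2.1⟩

theorem rtg_symm {β : Type} {r : β → β → Prop} (hr : ∀ x y, r x y → r y x) {x y : β}
    (h : ReflTransGen r x y) : ReflTransGen r y x := by
  induction h with
  | refl => exact ReflTransGen.refl
  | tail _ h1 ih => exact ReflTransGen.head (hr _ _ h1) ih

/-- The far cells which are connected with row `0` over `S`. -/
def Hs (G : SimpleGraph V) (F : V → ℕ → Prop) (R : ℕ) (S : Set V) (u : ℕ → ℕ) (p : V) (t : ℕ) :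
    Prop := p ∈ S ∧ ∃ q ∈ S, ReflTransGen (Fst G F R S) (q, 0) (p, u t)

theorem Hs.far {G : SimpleGraph V} {F : V → ℕ → Prop} {R : ℕ} {S : Set V} {u : ℕ → ℕ} {p : V}
    {t : ℕ} (h0 : ∀ p, F p 0) (h : Hs G F R S u p t) : F p (u t) := by
  obtain ⟨-, q, -, h⟩ := h
  rcases ReflTransGen.cases_tail h with h1 | ⟨c, -, h1⟩
  · have h2 : u t = 0 := congrArg Prod.snd h1
    rw [h2]
    exact h0 p
  · exact h1.2.2.1.2

theorem potData {G : SimpleGraph V} {F : V → ℕ → Prop} {R : ℕ} {S : Set V} {u : ℕ → ℕ} {M : ℕ}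
    {D0 : V → ℕ → Prop} (h0 : ∀ p, F p 0) (hu0 : u 0 = 0) (huM : u M = R)
    (hu : ∀ t ≤ M, u t ≤ R) (hus : ∀ t < M, u t = u (t + 1) ∨ u (t + 1) = u t + 1 ∨
      u t = u (t + 1) + 1)
    (hC : ¬ Crs G F R S) (near : ∀ p t, D0 p t → ¬ F p (u t))
    (clo : ∀ p q t t', D0 p t → Eqa G p q → t ≤ t' + 1 → t' ≤ t + 1 → t' ≤ M →
      ¬ F q (u t') → D0 q t') :
    PotData G S M (fun p t => ¬ F p (u t)) D0 (Hs G F R S u) where
  near := near
  clo := clo
  far := fun p t h h1 => h1 (h.far h0)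
  hor := by
    intro p q t hp hq hpq ht h h1
    rw [not_not] at h1
    have h2 := h.far h0
    obtain ⟨-, q', hq', h3⟩ := h
    exact ⟨hq, q', hq', h3.tail ⟨⟨hp, hq⟩, ⟨hu t ht, hu t ht⟩, ⟨h2, h1⟩, Or.inl ⟨hpq, rfl⟩⟩⟩
  up := by
    intro p t hp ht h h1
    rw [not_not] at h1
    have h2 := h.far h0
    obtain ⟨-, q', hq', h3⟩ := h
    refine ⟨hp, q', hq', ?_⟩
    rcases hus t ht with h4 | h4
    · rw [← h4]
      exact h3
    · exact h3.tail ⟨⟨hp, hp⟩, ⟨hu t (by omega), hu (t + 1) (by omega)⟩, ⟨h2, h1⟩,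
        Or.inr ⟨rfl, h4⟩⟩
  down := by
    intro p t hp ht h h1
    rw [not_not] at h1
    have h2 := h.far h0
    obtain ⟨-, q', hq', h3⟩ := h
    refine ⟨hp, q', hq', ?_⟩
    rcases hus t ht with h4 | h4
    · rw [h4]
      exact h3
    · exact h3.tail ⟨⟨hp, hp⟩, ⟨hu (t + 1) (by omega), hu t (by omega)⟩, ⟨h2, h1⟩,
        Or.inr ⟨rfl, h4.symm⟩⟩
  bot := by
    intro p hp
    refine ⟨hp, p, hp, ?_⟩
    rw [hu0]
  top := by
    rintro p hp ⟨-, q, hq, h3⟩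
    rw [huM] at h3
    exact hC ⟨q, hq, p, hp, h3⟩

/-- The potential is constant on a column which `h` avoids. -/
theorem pot_const {D0 h : V → ℕ → Prop} {p : V} (hp : ∀ t, ¬ h p t) (t : ℕ) :
    pot D0 h p t = pot D0 h p (t + 1) := by
  rw [pot_succ]
  have : mrk D0 h p t p (t + 1) = 0 := by
    unfold mrk
    rw [if_neg]
    rintro ⟨h1, -⟩
    exact h1 ⟨fun h2 => absurd h2 (hp _), fun h2 => absurd h2 (hp _)⟩
  rw [this, add_zero]

/-- **The core.** -/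
theorem core (G : SimpleGraph V) (F : V → ℕ → Prop) (R : ℕ) (hR : 2 ≤ R) {β β' α α' : V}
    (hβ : G.Adj β β') (hβu : ∀ p, G.Adj β p → p = β') (hα : G.Adj α α')
    (hαu : ∀ p, G.Adj α p → p = α') (hne : α ≠ β) (h0 : ∀ p, F p 0)
    (hcβ : ∀ p, p ≠ β → ∀ q, q ≠ β → ReflTransGen (fun a b => G.Adj a b ∧ b ≠ β) p q)
    (hcα : ∀ p, p ≠ α → ∀ q, q ≠ α → ReflTransGen (fun a b => G.Adj a b ∧ b ≠ α) p q)
    (w : ℕ → V) (hw : ∀ r, 0 < r → r < R → ¬ F (w r) r ∧ w r ≠ α ∧ w r ≠ β)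
    (hw2 : ∀ r, 0 < r → r + 1 < R → Eqa G (w r) (w (r + 1)))
    (hC : Crs G F R Set.univ) (hCβ : ¬ Crs G F R {p | p ≠ β}) (hCα : ¬ Crs G F R {p | p ≠ α})
    (huβ : ∀ r r', F β r → ¬ F β' r → F β r' → ¬ F β' r' → r = r')
    (huα : ∀ r r', F α r → ¬ F α' r → F α r' → ¬ F α' r' → r = r') :
    ∃ (M : ℕ) (x : ℕ → V) (u : ℕ → ℕ) (s t : ℕ), s ≤ M ∧ t ≤ M ∧
      (∀ t ≤ M, F (x t) (u t) ∧ u t ≤ R) ∧
      (∀ t < M, (G.Adj (x t) (x (t + 1)) ∧ u t = u (t + 1)) ∨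
        (x t = x (t + 1) ∧ (u (t + 1) = u t + 1 ∨ u t = u (t + 1) + 1))) ∧
      ReflTransGen (Nst G F M u) (rep α α' x s, t) (rep β β' x t, s) ∧
      ¬ F (rep α α' x s) (u t) ∧ ¬ F (rep β β' x t) (u s) ∧
      ¬ (x s = α ∧ ¬ F α' (u s) ∧ x t = β ∧ ¬ F β' (u t)) := by
  classical
  obtain ⟨M, x, u, hu0, huM, hu1, hF, hst, hinj⟩ := hC.path (by omega) h0
  have hu : ∀ t ≤ M, u t ≤ R := fun t ht => (hF t ht).2
  have hus : ∀ t < M, u t = u (t + 1) ∨ u (t + 1) = u t + 1 ∨ u t = u (t + 1) + 1 := by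
    intro t ht
    rcases hst t ht with h1 | h1
    · exact Or.inl h1.2
    · exact Or.inr h1.2
  have hM : 2 ≤ M := by
    have h1 : ∀ t ≤ M, u t ≤ t := by
      intro t
      induction t with
      | zero => intro _; omega
      | succ t ih =>
        intro ht
        have h2 := ih (by omega)
        have h3 := hus t (by omega)
        omega
    have h2 := h1 M le_rfl
    omega
  have u1 : u 1 = 1 := by
    have h1 := hu1 1 (by omega) (by omega)
    have h2 := hus 0 (by omega)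
    rw [hu0] at h2
    simp only [zero_add] at h2
    omega
  -- the strand
  have hs1 : ∀ t, 0 < t → t < M → ¬ F (w (u t)) (u t) ∧ w (u t) ≠ α ∧ w (u t) ≠ β :=
    fun t h1 h2 => hw _ (hu1 t h1 h2).1 (hu1 t h1 h2).2
  have hs2 : ∀ t, 0 < t → t + 1 < M → Eqa G (w (u t)) (w (u (t + 1))) := by
    intro t h1 h2
    have h3 := hu1 t h1 (by omega)
    have h4 := hu1 (t + 1) (by omega) h2
    rcases hus t (by omega) with h5 | h5 | h5
    · rw [h5]
      exact Or.inl rfl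
    · rw [h5]
      exact hw2 _ h3.1 (by omega)
    · rw [h5]
      exact (hw2 _ h4.1 (by omega)).symm
  obtain ⟨D0, hD0⟩ : ∃ D0 : V → ℕ → Prop, ∀ p t, D0 p t ↔
      ReflTransGen (Nst G F M u) (w (u 1), 1) (p, t) := ⟨_, fun _ _ => Iff.rfl⟩
  have hnear : ∀ p t, D0 p t → ¬ F p (u t) := by
    intro p t h
    rw [hD0] at h
    rcases ReflTransGen.cases_tail h with h1 | ⟨c, -, h1⟩
    · have h2 : t = 1 := congrArg Prod.snd h1
      have h3 : p = w (u 1) := congrArg Prod.fst h1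
      rw [h2, h3]
      exact (hs1 1 (by omega) (by omega)).1
    · exact h1.2.1.2
  have hle : ∀ p t, D0 p t → t ≤ M := by
    intro p t h
    rw [hD0] at h
    rcases ReflTransGen.cases_tail h with h1 | ⟨c, -, h1⟩
    · have h2 : t = 1 := congrArg Prod.snd h1
      omega
    · exact h1.1.2
  have hclo : ∀ p q t t', D0 p t → Eqa G p q → t ≤ t' + 1 → t' ≤ t + 1 → t' ≤ M →
      ¬ F q (u t') → D0 q t' := by
    intro p q t t' h h1 h2 h3 h4 h5
    have h6 := hnear _ _ h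
    have h7 := hle _ _ h
    rw [hD0] at h ⊢
    exact h.tail ⟨⟨h7, h4⟩, ⟨h6, h5⟩, h1, h2, h3⟩
  have hstr : ∀ k, k ≤ M - 2 → D0 (w (u (k + 1))) (k + 1) := by
    intro k
    induction k with
    | zero =>
      intro _
      rw [hD0]
    | succ k ih =>
      intro hk
      exact hclo _ _ _ _ (ih (by omega)) (hs2 (k + 1) (by omega) (by omega)) (by omega) (by omega)
        (by omega) (hs1 (k + 1 + 1) (by omega) (by omega)).1
  have hPβ := potData (S := {p | p ≠ β}) h0 hu0 huM hu hus hCβ hnear hclo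
  have hPα := potData (S := {p | p ≠ α}) h0 hu0 huM hu hus hCα hnear hclo
  obtain ⟨bβ, tβ, vβ, oβ, cβ⟩ := hPβ.main (K := M - 2) (v := fun k => w (u (k + 1)))
    (τ := fun k => k + 1) (by omega) (fun p hp q hq => hcβ p hp q hq)
    (fun k hk => (hs1 (k + 1) (by omega) (by omega)).2.2) (fun k hk => by omega)
    (fun k hk => hstr k hk)
    (fun k hk => ⟨hs2 (k + 1) (by omega) (by omega), by omega, by omega⟩)
    (by omega) (by omega)
  obtain ⟨bα, tα, vα, oα, cα⟩ := hPα.main (K := M - 2) (v := fun k => w (u (k + 1)))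
    (τ := fun k => k + 1) (by omega) (fun p hp q hq => hcα p hp q hq)
    (fun k hk => (hs1 (k + 1) (by omega) (by omega)).2.1) (fun k hk => by omega)
    (fun k hk => hstr k hk)
    (fun k hk => ⟨hs2 (k + 1) (by omega) (by omega), by omega, by omega⟩)
    (by omega) (by omega)
  have Sβ : Side G.Adj M D0 β (pot D0 (Hs G F R {p | p ≠ β} u)) :=
    ⟨fun p p' t ht h1 h2 h3 h4 => oβ p h2 p' h3 h1 t ht h4, fun p t ht _ h2 => vβ p t h2,
      fun p hp => bβ p hp, fun p hp => tβ p hp⟩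
  have Sα : Side G.Adj M D0 α (pot D0 (Hs G F R {p | p ≠ α} u)) :=
    ⟨fun p p' t ht h1 h2 h3 h4 => oα p h2 p' h3 h1 t ht h4, fun p t ht _ h2 => vα p t h2,
      fun p hp => bα p hp, fun p hp => tα p hp⟩
  have hstep : ∀ t < M, XStep G.Adj x D0 (pot D0 (Hs G F R {p | p ≠ β} u))
      (pot D0 (Hs G F R {p | p ≠ α} u)) t ∨ x t = x (t + 1) := by
    intro t ht
    rcases hst t ht with ⟨h1, h2⟩ | ⟨h1, -⟩
    · left
      refine ⟨h1, fun p => ?_, fun p => ?_, fun p => ?_⟩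
      · by_cases hp : p = β
        · subst hp
          exact pot_const (fun t h => h.1 rfl) t
        · exact cβ p hp t ht (by rw [h2])
      · by_cases hp : p = α
        · subst hp
          exact pot_const (fun t h => h.1 rfl) t
        · exact cα p hp t ht (by rw [h2])
      · constructor
        · intro h
          exact hclo p p t (t + 1) h (Or.inl rfl) (by omega) (by omega) (by omega)
            (h2 ▸ hnear _ _ h)
        · intro h
          exact hclo p p (t + 1) t h (Or.inl rfl) (by omega) (by omega) (by omega)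
            (h2 ▸ hnear _ _ h)
    · exact Or.inr h1
  have hE : ∀ t ≤ M, ¬ D0 (x t) t := fun t ht h => hnear _ _ h (hF t ht).1
  have hab : (∀ s t, s ≤ M → t ≤ M → x s = α → ¬ F α' (u s) → x t = β → ¬ F β' (u t) → s < t) ∨
      ∀ s t, s ≤ M → t ≤ M → x s = α → ¬ F α' (u s) → x t = β → ¬ F β' (u t) → t < s := by
    by_cases h : ∃ s t, (s ≤ M ∧ t ≤ M ∧ x s = α ∧ ¬ F α' (u s) ∧ x t = β ∧ ¬ F β' (u t)) ∧ s < t
    · obtain ⟨s0, t0, ⟨a1, a2, a3, a4, a5, a6⟩, a7⟩ := h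
      left
      intro s t b1 b2 b3 b4 b5 b6
      have e1 : s = s0 := hinj s b1 s0 a1 (by rw [b3, a3])
        (huα _ _ (b3 ▸ (hF s b1).1) b4 (a3 ▸ (hF s0 a1).1) a4)
      have e2 : t = t0 := hinj t b2 t0 a2 (by rw [b5, a5])
        (huβ _ _ (b5 ▸ (hF t b2).1) b6 (a5 ▸ (hF t0 a2).1) a6)
      omega
    · right
      intro s t b1 b2 b3 b4 b5 b6
      have h1 : ¬ s < t := fun h1 => h ⟨s, t, ⟨b1, b2, b3, b4, b5, b6⟩, h1⟩
      have h2 : s ≠ t := by
        intro h2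
        subst h2
        exact hne (b3.symm.trans b5)
      omega
  obtain ⟨s, t, hs, ht, c1, c2, c3⟩ := square2 (N := fun p t => ¬ F p (u t)) Sβ Sα hstep hE
    (a := α) (a' := α') (b := β) (b' := β') hα.symm.ne hαu (fun p h => hαu p h.symm)
    hβ.symm.ne hβu (fun p h => hβu p h.symm) hne hnear hab
  refine ⟨M, x, u, s, t, hs, ht, hF, hst, ?_, hnear _ _ c1, hnear _ _ c2, c3⟩
  rw [hD0] at c1 c2
  exact (rtg_symm (fun _ _ h => h.symm) c1).trans c2

end Pool.Agent.Lib.MP_40f35d_gt.Gs
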