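import Mathlib

/-! LEMMA GS*, the square part. A walk `x` (evader), steps `t < M` of two kinds: the position moves along an edge and
the row stays the same, or the position stays and the row changes. `D p t` are the tied near cells, `fm`, `fp` the
colourings of `V - b`, `V - a` by sides of `D`. If all visits of `a` are before all visits of `b`, or conversely, there is
a tie and the opposite tie. -/

set_option autoImplicit false

namespace Pool.Agent.Lib.MP_40f35d_gt.Gs

variable {V : Type}

/-- a colouring `f` of the cells off the column `b`, in the rows `0, ..., M`, by the sides of `D` -/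
structure Side (adj : V → V → Prop) (M : ℕ) (D : V → ℕ → Prop) (b : V) (f : V → ℕ → ZMod 2) :
    Prop where
  hor : ∀ p p' t, t ≤ M → adj p p' → p ≠ b → p' ≠ b → f p t ≠ f p' t → D p t ∨ D p' t
  ver : ∀ p t, t < M → p ≠ b → f p t ≠ f p (t + 1) → D p t ∨ D p (t + 1)
  bot : ∀ p, p ≠ b → f p 0 = 1
  top : ∀ p, p ≠ b → f p M = 0

open Classical in
/-- `x` with the vertex `b` replaced by its neighbour `b'` -/
noncomputable def rep (b b' : V) (x : ℕ → V) (t : ℕ) : V := if x t = b then b' else x t

/-- step `t` moves the position and keeps the row -/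
def XStep (adj : V → V → Prop) (x : ℕ → V) (D : V → ℕ → Prop) (fm fp : V → ℕ → ZMod 2)
    (t : ℕ) : Prop :=
  adj (x t) (x (t + 1)) ∧ (∀ p, fm p t = fm p (t + 1)) ∧ (∀ p, fp p t = fp p (t + 1)) ∧
    ∀ p, D p t ↔ D p (t + 1)

section
variable {adj : V → V → Prop} {a b a' b' : V} {M : ℕ} {x : ℕ → V} {D : V → ℕ → Prop}
  {fm fp : V → ℕ → ZMod 2}

theorem rep_ne (hb : b' ≠ b) (t : ℕ) : rep b b' x t ≠ b := by
  unfold rep
  split_ifs with h
  · exact hb
  · exact h

theorem rep_of_ne {t : ℕ} (h : x t ≠ b) : rep b b' x t = x t := by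
  unfold rep
  rw [if_neg h]

theorem rep_u {t : ℕ} (h : x t = x (t + 1)) : rep b b' x (t + 1) = rep b b' x t := by
  unfold rep
  rw [h]

/-- along a step the replaced walk stays or moves along an edge -/
theorem rep_step (hb : b' ≠ b) (hl : ∀ p, adj b p → p = b') (hr : ∀ p, adj p b → p = b')
    {t : ℕ} (h : adj (x t) (x (t + 1))) : rep b b' x t = rep b b' x (t + 1) ∨
      adj (rep b b' x t) (rep b b' x (t + 1)) := by
  unfold rep
  by_cases h1 : x t = b
  · have h2 : x (t + 1) = b' := hl _ (h1 ▸ h)
    left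
    rw [if_pos h1, h2, if_neg hb]
  · by_cases h2 : x (t + 1) = b
    · have h3 : x t = b' := hr _ (h2 ▸ h)
      left
      rw [if_neg h1, if_pos h2, h3]
    · right
      rw [if_neg h1, if_neg h2]
      exact h

private theorem z2 (z : ZMod 2) : z + z = 0 := CharTwo.add_self_eq_zero z

private theorem z2_eq {z w : ZMod 2} (h : z = w) : z + w = 0 := by rw [h, z2]

private theorem z2_mul {z w z' w' : ZMod 2} (h : z = w ∨ z' = w') :
    (z + w) * (z' + w') = 0 := by
  rcases h with h | h
  · rw [z2_eq h, zero_mul]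
  · rw [z2_eq h, mul_zero]

private theorem z2_tel (f : ℕ → ZMod 2) (n : ℕ) :
    ∑ i ∈ Finset.range n, (f (i + 1) + f i) = f n + f 0 := by
  induction n with
  | zero => rw [Finset.sum_range_zero, z2]
  | succ n ih =>
    rw [Finset.sum_range_succ, ih]
    have := z2 (f n)
    linear_combination this

/-- the side of the evader does not change as long as it does not visit `b` -/
theorem side_const (hS : Side adj M D b fm)
    (hst : ∀ t < M, XStep adj x D fm fp t ∨ x t = x (t + 1)) (hE : ∀ t ≤ M, ¬ D (x t) t)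
    (s : ℕ) (hs : s ≤ M) (hb : ∀ r ≤ s, x r ≠ b) : fm (x s) s = 1 := by
  induction s with
  | zero => exact hS.bot _ (hb 0 le_rfl)
  | succ s ih =>
    have ih := ih (by omega) fun r hr => hb r (by omega)
    have h0 : x s ≠ b := hb s (by omega)
    have h1 : x (s + 1) ≠ b := hb (s + 1) le_rfl
    rcases hst s (by omega) with h | h
    · obtain ⟨h2, h3, -, h5⟩ := h
      rw [← ih, ← h3]
      by_contra hne
      rcases hS.hor _ _ s (by omega) h2 h0 h1 (Ne.symm hne) with h6 | h6
      · exact hE s (by omega) h6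
      · exact hE (s + 1) hs ((h5 _).1 h6)
    · rw [← ih, ← h]
      by_contra hne
      rcases hS.ver _ s (by omega) h0 (Ne.symm hne) with h6 | h6
      · exact hE s (by omega) h6
      · rw [h] at h6
        exact hE (s + 1) hs h6

/-- the lower triangle -/
theorem square_low (hSm : Side adj M D b fm) (hSp : Side adj M D a fp)
    (hst : ∀ t < M, XStep adj x D fm fp t ∨ x t = x (t + 1)) (hE : ∀ t ≤ M, ¬ D (x t) t)
    (ha : a' ≠ a) (hal : ∀ p, adj a p → p = a') (har : ∀ p, adj p a → p = a')
    (hb : b' ≠ b) (hbl : ∀ p, adj b p → p = b') (hbr : ∀ p, adj p b → p = b')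
    (hab : ∀ s t, s ≤ M → t ≤ M → x s = a → x t = b → s < t) :
    ∃ s t, t ≤ s ∧ s ≤ M ∧ D (rep a a' x s) t ∧ D (rep b b' x t) s := by
  by_contra hcon
  have H : ∀ s t, t ≤ s → s ≤ M → D (rep a a' x s) t → D (rep b b' x t) s → False :=
    fun s t h1 h2 h3 h4 => hcon ⟨s, t, h1, h2, h3, h4⟩
  obtain ⟨P, hP⟩ : ∃ P : ℕ → ℕ → ZMod 2, ∀ s t, P s t = fp (rep a a' x s) t := ⟨_, fun _ _ => rfl⟩
  obtain ⟨Q, hQ⟩ : ∃ Q : ℕ → ℕ → ZMod 2, ∀ s t, Q s t = fm (rep b b' x t) s := ⟨_, fun _ _ => rfl⟩
  have hpn : ∀ s, rep a a' x s ≠ a := rep_ne ha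
  have hqn : ∀ s, rep b b' x s ≠ b := rep_ne hb
  -- changes of `P`, `Q`
  have hPx : ∀ s < M, XStep adj x D fm fp s → ∀ t ≤ M, P s t ≠ P (s + 1) t →
      D (rep a a' x s) t ∨ D (rep a a' x (s + 1)) t := by
    intro s _ hx t ht hne
    rw [hP, hP] at hne
    rcases rep_step ha hal har hx.1 with h | h
    · exact absurd (by rw [h]) hne
    · exact hSp.hor _ _ t ht h (hpn s) (hpn (s + 1)) hne
  have hQx : ∀ t < M, XStep adj x D fm fp t → ∀ s ≤ M, Q s t ≠ Q s (t + 1) →
      D (rep b b' x t) s ∨ D (rep b b' x (t + 1)) s := by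
    intro t _ hx s hs hne
    rw [hQ, hQ] at hne
    rcases rep_step hb hbl hbr hx.1 with h | h
    · exact absurd (by rw [h]) hne
    · exact hSm.hor _ _ s hs h (hqn t) (hqn (t + 1)) hne
  have hPu : ∀ t < M, ∀ s, P s t ≠ P s (t + 1) →
      D (rep a a' x s) t ∨ D (rep a a' x s) (t + 1) := by
    intro t ht s hne
    rw [hP, hP] at hne
    exact hSp.ver _ t ht (hpn s) hne
  have hQu : ∀ s < M, ∀ t, Q s t ≠ Q (s + 1) t →
      D (rep b b' x t) s ∨ D (rep b b' x t) (s + 1) := by
    intro s hs t hne
    rw [hQ, hQ] at hne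
    exact hSm.ver _ s hs (hqn t) hne
  have hsq : ∀ s < M, ∀ t < s,
      (P (s + 1) t + P (s + 1) (t + 1)) * (1 + Q (s + 1) t) + (P s t + P s (t + 1)) * (1 + Q s t) =
      (P s (t + 1) + P (s + 1) (t + 1)) * (1 + Q s (t + 1)) +
        (P s t + P (s + 1) t) * (1 + Q s t) := by
    intro s hs t ht
    rcases hst s hs with hxs | hus
    · have q1 : ∀ r, Q (s + 1) r = Q s r := fun r => by rw [hQ, hQ, hxs.2.1]
      rcases hst t (by omega) with hxt | hut
      · have p1 : ∀ r, P r (t + 1) = P r t := fun r => by rw [hP, hP, hxt.2.2.1]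
        have key : (P s t + P (s + 1) t) * (Q s t + Q s (t + 1)) = 0 := by
          refine z2_mul ?_
          by_contra hne
          rw [not_or] at hne
          rcases hPx s hs hxs t (by omega) hne.1 with h1 | h1 <;>
            rcases hQx t (by omega) hxt s (by omega) hne.2 with h2 | h2
          · exact H s t (by omega) (by omega) h1 h2
          · exact H s (t + 1) (by omega) (by omega) ((hxt.2.2.2 _).1 h1) h2
          · exact H (s + 1) t (by omega) (by omega) h1 ((hxs.2.2.2 _).1 h2)
          · exact H (s + 1) (t + 1) (by omega) (by omega) ((hxt.2.2.2 _).1 h1)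
              ((hxs.2.2.2 _).1 h2)
        rw [p1, p1]
        have e1 := z2 (P (s + 1) t)
        have e2 := z2 (P s t)
        linear_combination e1 * (1 + Q (s + 1) t) + e2 * (1 + Q s t) - key -
          (P s t + P (s + 1) t) * z2 (1 : ZMod 2)
      · have q2 : Q s (t + 1) = Q s t := by rw [hQ, hQ, rep_u hut]
        rw [q1, q2]
        have e1 := z2 (P (s + 1) t)
        have e2 := z2 (P s t)
        ring
    · have p1 : ∀ r, P (s + 1) r = P s r := fun r => by rw [hP, hP, rep_u hus]
      rcases hst t (by omega) with hxt | hut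
      · have p2 : ∀ r, P r (t + 1) = P r t := fun r => by rw [hP, hP, hxt.2.2.1]
        rw [p1, p1, p2, z2]
        ring
      · have q2 : ∀ r, Q r (t + 1) = Q r t := fun r => by rw [hQ, hQ, rep_u hut]
        have key : (P s t + P s (t + 1)) * (Q s t + Q (s + 1) t) = 0 := by
          refine z2_mul ?_
          by_contra hne
          rw [not_or] at hne
          rcases hPu t (by omega) s hne.1 with h1 | h1 <;>
            rcases hQu s hs t hne.2 with h2 | h2
          · exact H s t (by omega) (by omega) h1 h2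
          · exact H (s + 1) t (by omega) (by omega) (by rw [rep_u hus]; exact h1) h2
          · exact H s (t + 1) (by omega) (by omega) h1 (by rw [rep_u hut]; exact h2)
          · exact H (s + 1) (t + 1) (by omega) (by omega) (by rw [rep_u hus]; exact h1)
              (by rw [rep_u hut]; exact h2)
        rw [p1, p1, q2, z2, z2]
        linear_combination key + (P s t + P s (t + 1)) * z2 (1 : ZMod 2)
  obtain ⟨c, hc⟩ : ∃ c : ℕ → ZMod 2, ∀ s, c s =
      ∑ t ∈ Finset.range s, (P s t + P s (t + 1)) * (1 + Q s t) := ⟨_, fun _ => rfl⟩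
  have hP0 : ∀ s, P s 0 = 1 := fun s => by rw [hP]; exact hSp.bot _ (hpn s)
  have hstep : ∀ s < M, c (s + 1) = c s := by
    intro s hs
    have h1 : ∑ t ∈ Finset.range s, (P (s + 1) t + P (s + 1) (t + 1)) * (1 + Q (s + 1) t) +
        c s = (P s s + P (s + 1) s) * (1 + Q s s) + (P s 0 + P (s + 1) 0) * (1 + Q s 0) := by
      rw [hc s, ← Finset.sum_add_distrib,
        ← z2_tel (fun t => (P s t + P (s + 1) t) * (1 + Q s t)) s]
      exact Finset.sum_congr rfl fun t ht => hsq s hs t (Finset.mem_range.1 ht)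
    have h2 : P s s = P (s + 1) s := by
      rcases hst s hs with hxs | hus
      · by_contra hne
        rw [hP, hP] at hne
        by_cases h3 : x s = a
        · have h4 : x (s + 1) = a' := hal _ (h3 ▸ hxs.1)
          apply hne
          unfold rep
          rw [if_pos h3, h4, if_neg ha]
        · by_cases h5 : x (s + 1) = a
          · have h6 : x s = a' := har _ (h5 ▸ hxs.1)
            apply hne
            unfold rep
            rw [if_neg h3, if_pos h5, h6]
          · rw [rep_of_ne h3, rep_of_ne h5] at hne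
            rcases hSp.hor _ _ s (by omega) hxs.1 h3 h5 hne with h6 | h6
            · exact hE s (by omega) h6
            · exact hE (s + 1) (by omega) ((hxs.2.2.2 _).1 h6)
      · rw [hP, hP, rep_u hus]
    have h3 : (P (s + 1) s + P (s + 1) (s + 1)) * (1 + Q (s + 1) s) = 0 := by
      rcases hst s hs with hxs | hus
      · rw [hP, hP, hxs.2.2.1, z2, zero_mul]
      · by_cases h4 : x s = a
        · have h5 : Q (s + 1) s = 1 := by
            have h6 : ∀ r ≤ s + 1, x r ≠ b := by
              intro r hr h7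
              have := hab (s + 1) r (by omega) (by omega) (hus ▸ h4) h7
              omega
            rw [hQ, ← rep_u hus, rep_of_ne (h6 (s + 1) le_rfl)]
            exact side_const hSm hst hE (s + 1) (by omega) h6
          rw [h5, z2, mul_zero]
        · have h5 : x (s + 1) ≠ a := fun h => h4 (hus.trans h)
          have h6 : P (s + 1) s = P (s + 1) (s + 1) := by
            by_contra hne
            rw [hP, hP, rep_of_ne h5] at hne
            rcases hSp.ver _ s hs h5 hne with h7 | h7
            · rw [← hus] at h7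
              exact hE s (by omega) h7
            · exact hE (s + 1) (by omega) h7
          rw [h6, z2, zero_mul]
    rw [hP0, hP0, z2, zero_mul, add_zero, h2, z2, zero_mul] at h1
    rw [hc (s + 1), Finset.sum_range_succ, h3, add_zero]
    have h4 := z2 (c s)
    linear_combination h1 - h4
  have hall : ∀ s ≤ M, c s = 0 := by
    intro s
    induction s with
    | zero =>
      intro _
      rw [hc, Finset.sum_range_zero]
    | succ s ih =>
      intro hs
      rw [hstep s (by omega)]
      exact ih (by omega)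
  have h1 := hall M le_rfl
  have h2 : c M = 1 := by
    have h3 : ∀ t, Q M t = 0 := fun t => by rw [hQ]; exact hSm.top _ (hqn t)
    have h4 : c M = ∑ t ∈ Finset.range M, (P M (t + 1) + P M t) := by
      rw [hc]
      refine Finset.sum_congr rfl fun t _ => ?_
      rw [h3, add_zero, mul_one, add_comm]
    rw [h4, z2_tel (fun t => P M t) M, hP0]
    rw [hP, hSp.top _ (hpn M), zero_add]
  rw [h2] at h1
  exact one_ne_zero h1

/-- THE SQUARE LEMMA. -/
theorem square (hSm : Side adj M D b fm) (hSp : Side adj M D a fp)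
    (hst : ∀ t < M, XStep adj x D fm fp t ∨ x t = x (t + 1)) (hE : ∀ t ≤ M, ¬ D (x t) t)
    (ha : a' ≠ a) (hal : ∀ p, adj a p → p = a') (har : ∀ p, adj p a → p = a')
    (hb : b' ≠ b) (hbl : ∀ p, adj b p → p = b') (hbr : ∀ p, adj p b → p = b')
    (hab : (∀ s t, s ≤ M → t ≤ M → x s = a → x t = b → s < t) ∨
      ∀ s t, s ≤ M → t ≤ M → x s = a → x t = b → t < s) :
    ∃ s t, s ≤ M ∧ t ≤ M ∧ D (rep a a' x s) t ∧ D (rep b b' x t) s ∧ ¬ (x s = a ∧ x t = b) := by
  rcases hab with h | h
  · obtain ⟨s, t, h1, h2, h3, h4⟩ :=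
      square_low hSm hSp hst hE ha hal har hb hbl hbr h
    refine ⟨s, t, h2, h1.trans h2, h3, h4, ?_⟩
    rintro ⟨h5, h6⟩
    have := h s t h2 (h1.trans h2) h5 h6
    omega
  · obtain ⟨s, t, h1, h2, h3, h4⟩ := square_low (x := x) (fm := fp) (fp := fm) hSp hSm
      (fun t ht => (hst t ht).imp (fun k => ⟨k.1, k.2.2.1, k.2.1, k.2.2.2⟩) id) hE hb hbl hbr
      ha hal har (fun s t hs ht h5 h6 => h t s ht hs h6 h5)
    refine ⟨t, s, h1.trans h2, h2, h4, h3, ?_⟩
    rintro ⟨h5, h6⟩
    have := h t s (h1.trans h2) h2 h5 h6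
    omega

end

end Pool.Agent.Lib.MP_40f35d_gt.Gs
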