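import Mathlib
import Pool.Agent.Lib.MP_40f35d_gt.Gs.Mc

/-!
Finiteness of the synchronisation types: every walk in an interval of length `n` is synchronised to a
walk of bounded length in the same interval; so there is a code with finitely many values such that
walks with the same code are synchronised.
-/

namespace Pool.Agent.Lib.MP_40f35d_gt.Gs

/-- `w` on `[a, b]` is synchronised to a walk in `[lo, hi]` with at most `B` steps. -/
def Rep (lo hi : ℤ) (B : ℕ) (w : ℕ → ℤ) (a b : ℕ) : Prop :=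
  ∃ (w' : ℕ → ℤ) (m : ℕ), m ≤ B ∧ (∀ i, i ≤ m → lo ≤ w' i ∧ w' i ≤ hi) ∧
    (∀ i, i < m → |w' (i + 1) - w' i| ≤ 1) ∧ Syn w a b w' 0 m

theorem Rep.mono {lo hi lo' hi' : ℤ} {B B' : ℕ} {w : ℕ → ℤ} {a b : ℕ} (h : Rep lo hi B w a b)
    (h1 : lo' ≤ lo) (h2 : hi ≤ hi') (h3 : B ≤ B') : Rep lo' hi' B' w a b := by
  obtain ⟨w', m, h4, h5, h6, h7⟩ := h
  exact ⟨w', m, h4.trans h3, fun i hi => ⟨h1.trans (h5 i hi).1, (h5 i hi).2.trans h2⟩, h6, h7⟩

theorem Rep.append {lo hi : ℤ} {B B' : ℕ} {w : ℕ → ℤ} {a b c : ℕ} (h : Rep lo hi B w a b)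
    (h' : Rep lo hi B' w b c) : Rep lo hi (B + B') w a c := by
  obtain ⟨w₁, m₁, h1, h2, h3, h4⟩ := h
  obtain ⟨w₂, m₂, g1, g2, g3, g4⟩ := h'
  have h5 : w b = w₁ m₁ := by
    obtain ⟨K, t, r, e1, e2, e3, e4, e5, e6⟩ := h4.seq
    have h6 := (e5 K le_rfl).2.2.2.2
    rwa [e3, e4] at h6
  have h6 : w b = w₂ 0 := g4.2.2.1
  refine ⟨fun i => if i ≤ m₁ then w₁ i else w₂ (i - m₁), m₁ + m₂, by omega, ?_, ?_, ?_⟩
  · intro i hi
    by_cases h7 : i ≤ m₁
    · simp only
      rw [if_pos h7]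
      exact h2 i h7
    · simp only
      rw [if_neg h7]
      exact g2 _ (by omega)
  · intro i hi
    rcases Nat.lt_trichotomy i m₁ with h7 | h7 | h7
    · simp only
      rw [if_pos h7.le, if_pos (by omega)]
      exact h3 i h7
    · subst h7
      simp only
      rw [if_pos le_rfl, if_neg (by omega), Nat.add_sub_cancel_left, ← h5, h6]
      exact g3 0 (by omega)
    · simp only
      rw [if_neg (by omega), if_neg (by omega)]
      have h8 := g3 (i - m₁) (by omega)
      rwa [show i - m₁ + 1 = i + 1 - m₁ by omega] at h8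
  · refine Syn.append (b := b) (b' := m₁) ?_ ?_
    · have h7 := h4.shift (v := w) (v' := fun i => if i ≤ m₁ then w₁ i else w₂ (i - m₁))
        (e := 0) (e' := 0) (fun i _ _ => rfl) (fun i _ hi => if_pos hi)
      simpa only [Nat.add_zero] using h7
    · have h7 := g4.shift (v := w) (v' := fun i => if i ≤ m₁ then w₁ i else w₂ (i - m₁))
        (e := 0) (e' := m₁) (fun i _ _ => rfl) (fun i _ hi => by
          rcases Nat.eq_zero_or_pos i with h8 | h8
          · subst h8
            rw [if_pos (by omega), Nat.zero_add, ← h5, h6]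
          · rw [if_neg (by omega), Nat.add_sub_cancel])
      simpa only [Nat.add_zero, Nat.zero_add, Nat.add_comm m₂ m₁] using h7

/-- The empty walk and a single step. -/
theorem Rep.self {lo hi : ℤ} {w : ℕ → ℤ} {a b : ℕ} (hab : a ≤ b)
    (hw : ∀ i, a ≤ i → i ≤ b → lo ≤ w i ∧ w i ≤ hi)
    (hs : ∀ i, a ≤ i → i < b → |w (i + 1) - w i| ≤ 1) : Rep lo hi (b - a) w a b := by
  refine ⟨fun i => w (i + a), b - a, le_rfl, fun i hi => hw _ (by omega) (by omega),
    fun i hi => ?_, ?_⟩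
  · have h := hs (i + a) (by omega) (by omega)
    rwa [show i + a + 1 = i + 1 + a by ring] at h
  · have h := (Syn.refl (w := fun i => w (i + a)) (Nat.zero_le (b - a))).shift (v := w)
      (v' := fun i => w (i + a)) (e := a) (e' := 0) (fun i _ _ => rfl) (fun i _ _ => rfl)
    rwa [Nat.zero_add, Nat.sub_add_cancel hab, Nat.add_zero] at h

/-- A piece from one extreme to the other one is straight. -/
theorem Rep.straight {lo : ℤ} {n : ℕ} {w : ℕ → ℤ} {a b : ℕ} (hab : a ≤ b)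
    (hw : ∀ i, a ≤ i → i ≤ b → lo ≤ w i ∧ w i ≤ lo + n)
    (hs : ∀ i, a ≤ i → i < b → |w (i + 1) - w i| ≤ 1)
    (h : (w a = lo ∧ w b = lo + n) ∨ (w a = lo + n ∧ w b = lo)) : Rep lo (lo + n) n w a b := by
  rcases h with ⟨h1, h2⟩ | ⟨h1, h2⟩
  · refine ⟨fun i => lo + i, n, le_rfl, fun i hi => by constructor <;> beta_reduce <;> omega,
      fun i _ => ?_, ?_⟩
    · rw [abs_le]
      constructor <;> push_cast <;> omega
    · refine climb (lo := lo) (hi := lo + n) hab (Nat.zero_le _) hs ?_ hw ?_ h1 h2 ?_ ?_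
      · intro i _ _
        rw [abs_le]
        constructor <;> push_cast <;> omega
      · intro i _ hi
        constructor <;> omega
      · simp
      · rfl
  · refine ⟨fun i => lo + n - i, n, le_rfl,
      fun i hi => by constructor <;> beta_reduce <;> omega, fun i _ => ?_, ?_⟩
    · rw [abs_le]
      constructor <;> push_cast <;> omega
    · refine climb' (lo := lo) (hi := lo + n) hab (Nat.zero_le _) hs ?_ hw ?_ h1 h2 ?_ ?_
      · intro i _ _
        rw [abs_le]
        constructor <;> push_cast <;> omega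
      · intro i _ hi
        constructor <;> omega
      · simp
      · simp

/-- Bound for the representatives. -/
def bdRep : ℕ → ℕ
  | 0 => 0
  | n + 1 => (bdRep n + 1) + ((n + 1) + (n + 1)) + (1 + bdRep n)

/-- FINITENESS. -/
theorem exists_rep (n : ℕ) : ∀ (lo : ℤ) (w : ℕ → ℤ) (a b : ℕ), a ≤ b →
    (∀ i, a ≤ i → i ≤ b → lo ≤ w i ∧ w i ≤ lo + n) →
    (∀ i, a ≤ i → i < b → |w (i + 1) - w i| ≤ 1) → Rep lo (lo + n) (bdRep n) w a b := by
  induction n with
  | zero =>
    intro lo w a b hab hw hs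
    have h1 : ∀ i, a ≤ i → i ≤ b → w i = lo := by
      intro i h2 h3
      have h4 := hw i h2 h3
      push_cast at h4
      omega
    refine ⟨fun _ => lo, 0, le_rfl, fun i _ => by simp, fun i hi => absurd hi (by omega), ?_⟩
    refine climb (lo := lo) (hi := lo) hab le_rfl hs (fun i _ hi => absurd hi (by omega)) ?_ ?_
      (h1 a le_rfl hab) (h1 b hab le_rfl) rfl rfl
    · intro i h2 h3
      rw [h1 i h2 h3]
      exact ⟨le_rfl, le_rfl⟩
    · intro i _ _
      exact ⟨le_rfl, le_rfl⟩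
  | succ n ih =>
    intro lo w a b hab hw hs
    have hB : bdRep n ≤ bdRep (n + 1) := by
      simp only [bdRep]
      omega
    by_cases hlo : ∃ i, a ≤ i ∧ i ≤ b ∧ w i = lo
    swap
    · have h1 := ih (lo + 1) w a b hab (fun i h2 h3 => by
        have h4 := hw i h2 h3
        push_cast at h4
        have h5 : w i ≠ lo := fun h5 => hlo ⟨i, h2, h3, h5⟩
        omega) hs
      exact h1.mono (by omega) (by push_cast; omega) hB
    by_cases hhi : ∃ i, a ≤ i ∧ i ≤ b ∧ w i = lo + (n + 1 : ℕ)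
    swap
    · have h1 := ih lo w a b hab (fun i h2 h3 => by
        have h4 := hw i h2 h3
        have h5 : w i ≠ lo + (n + 1 : ℕ) := fun h5 => hhi ⟨i, h2, h3, h5⟩
        push_cast at h4 h5
        omega) hs
      exact h1.mono le_rfl (by push_cast; omega) hB
    obtain ⟨i₀, hi1, hi2, hi3⟩ := hlo
    obtain ⟨j₀, hj1, hj2, hj3⟩ := hhi
    -- the first and the last visit of an extreme
    have hex : ∃ t, a ≤ t ∧ t ≤ b ∧ (w t = lo ∨ w t = lo + (n + 1 : ℕ)) :=
      ⟨i₀, hi1, hi2, Or.inl hi3⟩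
    classical
    obtain ⟨t₁, ⟨h1, h2, h3⟩, h4⟩ : ∃ t₁, (a ≤ t₁ ∧ t₁ ≤ b ∧
        (w t₁ = lo ∨ w t₁ = lo + (n + 1 : ℕ))) ∧
        ∀ t, a ≤ t → t < t₁ → w t ≠ lo ∧ w t ≠ lo + (n + 1 : ℕ) := by
      refine ⟨Nat.find hex, Nat.find_spec hex, fun t g1 g2 => ?_⟩
      have g3 := Nat.find_min hex g2
      have g4 := (Nat.find_spec hex).2.1
      refine ⟨fun g5 => g3 ⟨g1, by omega, Or.inl g5⟩, fun g5 => g3 ⟨g1, by omega, Or.inr g5⟩⟩
    obtain ⟨t₂, ⟨k1, k2, k3⟩, k4⟩ : ∃ t₂, (a ≤ t₂ ∧ t₂ ≤ b ∧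
        (w t₂ = lo ∨ w t₂ = lo + (n + 1 : ℕ))) ∧
        ∀ t, t₂ < t → t ≤ b → w t ≠ lo ∧ w t ≠ lo + (n + 1 : ℕ) := by
      obtain ⟨t₂, g1, g2⟩ := Finset.exists_max_image ((Finset.Icc a b).filter
        (fun t => w t = lo ∨ w t = lo + (n + 1 : ℕ))) id
        ⟨i₀, Finset.mem_filter.2 ⟨Finset.mem_Icc.2 ⟨hi1, hi2⟩, Or.inl hi3⟩⟩
      rw [Finset.mem_filter, Finset.mem_Icc] at g1
      refine ⟨t₂, ⟨g1.1.1, g1.1.2, g1.2⟩, fun t g3 g4 => ?_⟩
      have g5 : ¬ (w t = lo ∨ w t = lo + (n + 1 : ℕ)) := by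
        intro g6
        have g7 := g2 t (Finset.mem_filter.2 ⟨Finset.mem_Icc.2 ⟨by omega, g4⟩, g6⟩)
        simp only [id] at g7
        omega
      exact ⟨fun g6 => g5 (Or.inl g6), fun g6 => g5 (Or.inr g6)⟩
    have l1 : t₁ ≤ i₀ := by
      by_contra h
      exact (h4 i₀ hi1 (by omega)).1 hi3
    have l2 : t₁ ≤ j₀ := by
      by_contra h
      exact (h4 j₀ hj1 (by omega)).2 hj3
    have l3 : i₀ ≤ t₂ := by
      by_contra h
      exact (k4 i₀ (by omega) hi2).1 hi3
    have l4 : j₀ ≤ t₂ := by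
      by_contra h
      exact (k4 j₀ (by omega) hj2).2 hj3
    -- the initial part
    have hI : Rep lo (lo + (n + 1 : ℕ)) (bdRep n + 1) w a t₁ := by
      rcases h1.lt_or_eq with h5 | h5
      · have h6 := ih (lo + 1) w a (t₁ - 1) (by omega) (fun i g1 g2 => by
          have g3 := hw i g1 (by omega)
          have g4 := h4 i g1 (by omega)
          push_cast at g3 g4
          omega) (fun i g1 g2 => hs i g1 (by omega))
        have h7 := Rep.self (lo := lo) (hi := lo + (n + 1 : ℕ)) (w := w) (a := t₁ - 1) (b := t₁)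
          (by omega) (fun i g1 g2 => hw i (by omega) (by omega))
          (fun i g1 g2 => hs i (by omega) (by omega))
        rw [show t₁ - (t₁ - 1) = 1 by omega] at h7
        exact (h6.mono (by omega) (by push_cast; omega) le_rfl).append h7
      · have h6 := Rep.self (lo := lo) (hi := lo + (n + 1 : ℕ)) (w := w) (a := t₁) (b := t₁)
          le_rfl (fun i g1 g2 => hw i (by omega) (by omega))
          (fun i g1 g2 => absurd g2 (by omega))
        rw [h5]
        exact h6.mono le_rfl le_rfl (by omega)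
    -- the final part
    have hF : Rep lo (lo + (n + 1 : ℕ)) (1 + bdRep n) w t₂ b := by
      rcases k2.lt_or_eq with h5 | h5
      · have h6 := ih (lo + 1) w (t₂ + 1) b (by omega) (fun i g1 g2 => by
          have g3 := hw i (by omega) g2
          have g4 := k4 i (by omega) g2
          push_cast at g3 g4
          omega) (fun i g1 g2 => hs i (by omega) g2)
        have h7 := Rep.self (lo := lo) (hi := lo + (n + 1 : ℕ)) (w := w) (a := t₂) (b := t₂ + 1)
          (by omega) (fun i g1 g2 => hw i (by omega) (by omega))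
          (fun i g1 g2 => hs i (by omega) (by omega))
        rw [show t₂ + 1 - t₂ = 1 by omega] at h7
        exact h7.append (h6.mono (by omega) (by push_cast; omega) le_rfl)
      · have h6 := Rep.self (lo := lo) (hi := lo + (n + 1 : ℕ)) (w := w) (a := t₂) (b := t₂)
          le_rfl (fun i g1 g2 => hw i (by omega) (by omega))
          (fun i g1 g2 => absurd g2 (by omega))
        rw [← h5]
        exact h6.mono le_rfl le_rfl (by omega)
    -- a piece between two extremes of different kind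
    have hst : ∀ c d, a ≤ c → c ≤ d → d ≤ b → ((w c = lo ∧ w d = lo + (n + 1 : ℕ)) ∨
        (w c = lo + (n + 1 : ℕ) ∧ w d = lo)) → Rep lo (lo + (n + 1 : ℕ)) (n + 1) w c d := by
      intro c d g1 g2 g3 g4
      exact Rep.straight g2 (fun i g5 g6 => hw i (by omega) (by omega))
        (fun i g5 g6 => hs i (by omega) (by omega)) g4
    have hM : Rep lo (lo + (n + 1 : ℕ)) ((n + 1) + (n + 1)) w t₁ t₂ := by
      rcases h3 with h3 | h3 <;> rcases k3 with k3 | k3
      · exact (hst t₁ j₀ h1 l2 hj2 (Or.inl ⟨h3, hj3⟩)).append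
          (hst j₀ t₂ hj1 l4 k2 (Or.inr ⟨hj3, k3⟩))
      · exact (hst t₁ t₂ h1 (by omega) k2 (Or.inl ⟨h3, k3⟩)).mono le_rfl le_rfl (by omega)
      · exact (hst t₁ t₂ h1 (by omega) k2 (Or.inr ⟨h3, k3⟩)).mono le_rfl le_rfl (by omega)
      · exact (hst t₁ i₀ h1 l1 hi2 (Or.inr ⟨h3, hi3⟩)).append
          (hst i₀ t₂ hi1 l3 k2 (Or.inl ⟨hi3, k3⟩))
    exact (hI.append hM).append hF

/-- FINITELY MANY TYPES. There is a code with finitely many values for the walks in `[0, n]`, and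
walks with the same code can be synchronised. -/
theorem exists_code (n : ℕ) : ∃ (C : Type) (_ : Finite C) (code : (ℕ → ℕ) → ℕ → C),
    ∀ (w : ℕ → ℕ) (m : ℕ) (w' : ℕ → ℕ) (m' : ℕ),
      (∀ i, i ≤ m → w i ≤ n) → (∀ i, i < m → w i ≤ w (i + 1) + 1 ∧ w (i + 1) ≤ w i + 1) →
      (∀ i, i ≤ m' → w' i ≤ n) → (∀ i, i < m' → w' i ≤ w' (i + 1) + 1 ∧ w' (i + 1) ≤ w' i + 1) →
      code w m = code w' m' → Syn w 0 m w' 0 m' := by
  classical
  have key : ∀ (w : ℕ → ℕ) (m : ℕ), (∀ i, i ≤ m → w i ≤ n) →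
      (∀ i, i < m → w i ≤ w (i + 1) + 1 ∧ w (i + 1) ≤ w i + 1) →
      ∃ p : Fin (bdRep n + 1) × (Fin (bdRep n + 1) → Fin (n + 1)),
        Syn (fun i => (w i : ℤ)) 0 m (fun i => if h : i < bdRep n + 1 then ((p.2 ⟨i, h⟩ : ℕ) : ℤ)
          else 0) 0 p.1 := by
    intro w m hw hs
    obtain ⟨w', m', h1, h2, h3, h4⟩ := exists_rep n 0 (fun i => (w i : ℤ)) 0 m (Nat.zero_le _)
      (fun i _ hi => by
        have := hw i hi
        constructor <;> omega)
      (fun i _ hi => by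
        have := hs i hi
        rw [abs_le]
        constructor <;> omega)
    refine ⟨(⟨m', by omega⟩, fun i => ⟨(w' i).toNat ⊓ n, by omega⟩), ?_⟩
    have h5 := h4.shift (v := fun i => (w i : ℤ)) (v' := fun i =>
      if h : i < bdRep n + 1 then (((w' i).toNat ⊓ n : ℕ) : ℤ) else 0) (e := 0) (e' := 0)
      (fun i _ _ => rfl) (fun i _ hi => by
        have h6 := h2 i hi
        simp only [Nat.add_zero]
        rw [dif_pos (by omega)]
        push_cast
        rw [Int.toNat_of_nonneg h6.1, min_eq_left (by omega)])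
    simpa only [Nat.add_zero, Nat.zero_add] using h5
  refine ⟨Option (Fin (bdRep n + 1) × (Fin (bdRep n + 1) → Fin (n + 1))), inferInstance,
    fun w m => if h : (∀ i, i ≤ m → w i ≤ n) ∧
      (∀ i, i < m → w i ≤ w (i + 1) + 1 ∧ w (i + 1) ≤ w i + 1) then
      some (Classical.choose (key w m h.1 h.2)) else none, ?_⟩
  intro w m w' m' h1 h2 h3 h4 h5
  simp only at h5
  rw [dif_pos ⟨h1, h2⟩, dif_pos ⟨h3, h4⟩, Option.some.injEq] at h5
  have h6 := Classical.choose_spec (key w m h1 h2)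
  have h7 := Classical.choose_spec (key w' m' h3 h4)
  rw [← h5] at h7
  have h8 := h6.trans h7.symm
  refine ⟨h8.1, h8.2.1, Int.ofNat_injective h8.2.2.1, ?_⟩
  refine rtg_mono ?_ h8.2.2.2
  rintro x y ⟨⟨g1, g2, g3, g4, g5⟩, ⟨g6, g7, g8, g9, g10⟩, g11⟩
  exact ⟨⟨g1, g2, g3, g4, Int.ofNat_injective g5⟩, ⟨g6, g7, g8, g9, Int.ofNat_injective g10⟩,
    g11⟩

end Pool.Agent.Lib.MP_40f35d_gt.Gs
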