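import Mathlib

/-!
# A continuum described by a tower of walks is weakly chainable

`Tw K m P φ` : `P k` is a walk of length `m k` in `K` with steps of size at most `(1 / 2) ^ k`, dense
in `K` up to `(1 / 2) ^ k`; `φ k` is a `1`-Lipschitz map from `{0, ..., m (k + 1)}` to
`{0, ..., m k}` which commutes with the walks up to `(1 / 2) ^ k`.

`wc_of_tower` : then `K` is a continuous image of a chainable continuum: the inverse limit of the arcs
`[0, m k]` with the piecewise linear bonding maps.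
-/

set_option autoImplicit false

open Set Filter Topology

namespace Pool.Agent.Lib.MP_40f35d_gt.Gs

/-! ## Nested intersections -/

theorem nested_preconnected {X : Type*} [TopologicalSpace X] [T2Space X] {S : ℕ → Set X}
    (hS : Antitone S) (hc : ∀ n, IsCompact (S n)) (hp : ∀ n, IsPreconnected (S n)) :
    IsPreconnected (⋂ n, S n) := by
  have hcl : ∀ n, IsClosed (S n) := fun n => (hc n).isClosed
  rw [isPreconnected_closed_iff]
  intro t t' ht ht' hsub h1 h2
  by_contra hne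
  rw [Set.not_nonempty_iff_eq_empty] at hne
  have hK : IsCompact (⋂ n, S n) :=
    (hc 0).of_isClosed_subset (isClosed_iInter hcl) (iInter_subset _ 0)
  have hd : Disjoint ((⋂ n, S n) ∩ t) ((⋂ n, S n) ∩ t') := by
    rw [Set.disjoint_iff_inter_eq_empty, ← hne]
    ext x
    simp only [mem_inter_iff]
    tauto
  obtain ⟨U, V, hU, hV, hFU, hGV, hUV⟩ :=
    SeparatedNhds.of_isCompact_isCompact (hK.inter_right ht) (hK.inter_right ht') hd
  have hsub' : (⋂ n, S n) ⊆ U ∪ V := by
    intro x hx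
    rcases hsub hx with h | h
    · exact Or.inl (hFU ⟨hx, h⟩)
    · exact Or.inr (hGV ⟨hx, h⟩)
  obtain ⟨n, hn⟩ := exists_subset_nhds_of_isCompact' (V := S)
    (directed_of_isDirected_le (fun i j hij => hS hij)) hc hcl (U := U ∪ V)
    (fun x hx => (hU.union hV).mem_nhds (hsub' hx))
  obtain ⟨x1, hx1, hx1'⟩ := h1
  obtain ⟨x2, hx2, hx2'⟩ := h2
  obtain ⟨z, -, hz⟩ := hp n U V hU hV hn ⟨x1, mem_iInter.1 hx1 n, hFU ⟨hx1, hx1'⟩⟩
    ⟨x2, mem_iInter.1 hx2 n, hGV ⟨hx2, hx2'⟩⟩
  exact Set.disjoint_left.1 hUV hz.1 hz.2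

/-! ## Piecewise linear maps -/

/-- `t` cut off at `0` and `1` -/
noncomputable def ct (t : ℝ) : ℝ := max 0 (min t 1)

theorem ct_mono {s t : ℝ} (h : s ≤ t) : ct s ≤ ct t :=
  max_le_max le_rfl (min_le_min h le_rfl)

theorem ct_continuous : Continuous ct := by
  unfold ct
  fun_prop

theorem ct_sum (M : ℕ) (x : ℝ) :
    ∑ i ∈ Finset.range M, ct (x - i) = max 0 (min x M) := by
  induction M with
  | zero =>
    rw [Finset.range_zero, Finset.sum_empty, Nat.cast_zero, max_eq_left (min_le_right _ _)]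
  | succ M ih =>
    rw [Finset.sum_range_succ, ih, ct]
    have hM : (0 : ℝ) ≤ M := Nat.cast_nonneg _
    push_cast
    rcases le_total x M with h | h
    · rw [min_eq_left h, min_eq_left (by linarith : x - M ≤ 1),
        max_eq_left (by linarith : x - M ≤ 0), min_eq_left (by linarith : x ≤ M + 1), add_zero]
    · rw [min_eq_right h, max_eq_right hM]
      rcases le_total x (M + 1) with h' | h'
      · rw [min_eq_left (by linarith : x - M ≤ 1), max_eq_right (by linarith : (0 : ℝ) ≤ x - M),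
          min_eq_left h', max_eq_right (by linarith : 0 ≤ x)]
        ring
      · rw [min_eq_right (by linarith : 1 ≤ x - M), min_eq_right h', max_eq_right zero_le_one,
          max_eq_right (by linarith : (0 : ℝ) ≤ M + 1)]

/-- piecewise linear extension of `g 0, ..., g M` -/
noncomputable def pl (M : ℕ) (g : ℕ → ℝ) (x : ℝ) : ℝ :=
  g 0 + ∑ i ∈ Finset.range M, (g (i + 1) - g i) * ct (x - i)

theorem pl_continuous (M : ℕ) (g : ℕ → ℝ) : Continuous (pl M g) := by
  unfold pl
  refine continuous_const.add (continuous_finsetSum _ fun i _ => ?_)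
  exact continuous_const.mul (ct_continuous.comp (continuous_id.sub continuous_const))

theorem pl_nat {M : ℕ} (g : ℕ → ℝ) {j : ℕ} (hj : j ≤ M) : pl M g j = g j := by
  have h1 : ∑ i ∈ Finset.range M, (g (i + 1) - g i) * ct ((j : ℝ) - i) =
      ∑ i ∈ Finset.range j, (g (i + 1) - g i) := by
    rw [← Finset.sum_subset (Finset.range_mono hj) (f := fun i => (g (i + 1) - g i) * ct ((j : ℝ) - i))]
    · refine Finset.sum_congr rfl fun i hi => ?_
      have h2 : (i : ℝ) + 1 ≤ j := by exact_mod_cast Finset.mem_range.1 hi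
      rw [ct, min_eq_right (by linarith), max_eq_right zero_le_one, mul_one]
    · intro i _ hi
      have h2 : (j : ℝ) ≤ i := by
        exact_mod_cast not_lt.1 fun h => hi (Finset.mem_range.2 h)
      rw [ct, min_eq_left (by linarith), max_eq_left (by linarith), mul_zero]
  rw [pl, h1, Finset.sum_range_sub]
  ring

theorem pl_lip {M : ℕ} {g : ℕ → ℝ} (hg : ∀ i < M, |g (i + 1) - g i| ≤ 1) (x y : ℝ) :
    |pl M g x - pl M g y| ≤ |x - y| := by
  have key : ∀ x y : ℝ, y ≤ x → |pl M g x - pl M g y| ≤ |x - y| := by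
    intro x y hxy
    have h1 : pl M g x - pl M g y =
        ∑ i ∈ Finset.range M, (g (i + 1) - g i) * (ct (x - i) - ct (y - i)) := by
      unfold pl
      rw [add_sub_add_left_eq_sub, ← Finset.sum_sub_distrib]
      exact Finset.sum_congr rfl fun i _ => by ring
    rw [h1]
    calc |∑ i ∈ Finset.range M, (g (i + 1) - g i) * (ct (x - i) - ct (y - i))| ≤
        ∑ i ∈ Finset.range M, |(g (i + 1) - g i) * (ct (x - i) - ct (y - i))| :=
          Finset.abs_sum_le_sum_abs _ _
      _ ≤ ∑ i ∈ Finset.range M, (ct (x - i) - ct (y - i)) := by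
          refine Finset.sum_le_sum fun i hi => ?_
          have h2 : 0 ≤ ct (x - i) - ct (y - i) := sub_nonneg.2 (ct_mono (by linarith))
          rw [abs_mul, abs_of_nonneg h2]
          exact mul_le_of_le_one_left h2 (hg i (Finset.mem_range.1 hi))
      _ = max 0 (min x M) - max 0 (min y M) := by
          rw [Finset.sum_sub_distrib, ct_sum, ct_sum]
      _ ≤ |max 0 (min x M) - max 0 (min y M)| := le_abs_self _
      _ ≤ |x - y| := by
          refine (abs_max_sub_max_le_max _ _ _ _).trans ?_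
          rw [sub_self, abs_zero, max_eq_right (abs_nonneg _)]
          refine (abs_min_sub_min_le_max _ _ _ _).trans ?_
          rw [sub_self, abs_zero, max_eq_left (abs_nonneg _)]
  rcases le_total y x with h | h
  · exact key x y h
  · rw [abs_sub_comm, abs_sub_comm x y]
    exact key y x h

/-! ## The tower -/

/-- A tower of walks in `K`. -/
structure Tw {E : Type*} [MetricSpace E] (K : Set E) (m : ℕ → ℕ) (P : ℕ → ℕ → E)
    (φ : ℕ → ℕ → ℕ) : Prop where
  mem : ∀ k i, i ≤ m k → P k i ∈ K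
  step : ∀ k i, i < m k → dist (P k i) (P k (i + 1)) ≤ (1 / 2) ^ k
  ph : ∀ k i, i ≤ m (k + 1) → φ k i ≤ m k
  ph1 : ∀ k i, i < m (k + 1) → φ k i ≤ φ k (i + 1) + 1 ∧ φ k (i + 1) ≤ φ k i + 1
  comm : ∀ k i, i ≤ m (k + 1) → dist (P (k + 1) i) (P k (φ k i)) ≤ (1 / 2) ^ k
  dense : ∀ k, ∀ x ∈ K, ∃ i ≤ m k, dist x (P k i) ≤ (1 / 2) ^ k

/-- the bonding maps -/
noncomputable def bm (m : ℕ → ℕ) (φ : ℕ → ℕ → ℕ) (k : ℕ) (x : ℝ) : ℝ :=
  max 0 (min (pl (m (k + 1)) (fun i => (φ k i : ℝ)) x) (m k))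

/-- the threads with the first `n` conditions -/
def Thr (m : ℕ → ℕ) (φ : ℕ → ℕ → ℕ) (n : ℕ) : Set (ℕ → ℝ) :=
  {y | (∀ k, y k ∈ Icc (0 : ℝ) (m k)) ∧ ∀ k < n, y k = bm m φ k (y (k + 1))}

section

variable {m : ℕ → ℕ} {φ : ℕ → ℕ → ℕ}

theorem bm_continuous (k : ℕ) : Continuous (bm m φ k) :=
  continuous_const.max ((pl_continuous _ _).min continuous_const)

theorem bm_mem (k : ℕ) (x : ℝ) : bm m φ k x ∈ Icc (0 : ℝ) (m k) :=
  ⟨le_max_left _ _, max_le (Nat.cast_nonneg _) (min_le_right _ _)⟩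

theorem Thr_closed (n : ℕ) : IsClosed (Thr m φ n) := by
  have h1 : Thr m φ n = (⋂ k, {y : ℕ → ℝ | y k ∈ Icc (0 : ℝ) (m k)}) ∩
      ⋂ k, ⋂ _ : k < n, {y : ℕ → ℝ | y k = bm m φ k (y (k + 1))} := by
    ext y
    simp only [Thr, mem_ofPred_eq, mem_inter_iff, mem_iInter]
  rw [h1]
  refine (isClosed_iInter fun k => ?_).inter (isClosed_iInter fun k => isClosed_iInter fun _ => ?_)
  · exact isClosed_Icc.preimage (continuous_apply k)
  · exact isClosed_eq (continuous_apply k) ((bm_continuous k).comp (continuous_apply (k + 1)))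

theorem box_compact : IsCompact {y : ℕ → ℝ | ∀ k, y k ∈ Icc (0 : ℝ) (m k)} := by
  have h1 : {y : ℕ → ℝ | ∀ k, y k ∈ Icc (0 : ℝ) (m k)} =
      Set.pi univ fun k => Icc (0 : ℝ) (m k) := by
    ext y
    simp only [mem_ofPred_eq, Set.mem_pi, mem_univ, true_imp_iff]
  rw [h1]
  exact isCompact_univ_pi fun k => isCompact_Icc

theorem Thr_compact (n : ℕ) : IsCompact (Thr m φ n) :=
  box_compact.of_isClosed_subset (Thr_closed n) fun _ hy => hy.1

theorem Thr_anti : Antitone (Thr m φ) := fun _ _ h _ hy =>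
  ⟨hy.1, fun k hk => hy.2 k (lt_of_lt_of_le hk h)⟩

theorem Thr_preconnected (n : ℕ) : IsPreconnected (Thr m φ n) := by
  induction n with
  | zero =>
    have h1 : Thr m φ 0 = Set.pi univ fun k => Icc (0 : ℝ) (m k) := by
      ext y
      simp only [Thr, mem_ofPred_eq, Set.mem_pi, mem_univ, true_imp_iff, not_lt_zero, false_imp_iff,
        implies_true, and_true]
    rw [h1]
    exact isPreconnected_univ_pi fun k => isPreconnected_Icc
  | succ n ih =>
    -- replace the coordinates `0, ..., n` one after the other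
    have key : ∀ j ≤ n + 1, IsPreconnected {y : ℕ → ℝ | (∀ k, y k ∈ Icc (0 : ℝ) (m k)) ∧
        ∀ k, n + 1 - j ≤ k → k < n + 1 → y k = bm m φ k (y (k + 1))} := by
      intro j
      induction j with
      | zero =>
        intro _
        have h1 : {y : ℕ → ℝ | (∀ k, y k ∈ Icc (0 : ℝ) (m k)) ∧
            ∀ k, n + 1 - 0 ≤ k → k < n + 1 → y k = bm m φ k (y (k + 1))} =
            Set.pi univ fun k => Icc (0 : ℝ) (m k) := by
          ext y
          simp only [mem_ofPred_eq, Set.mem_pi, mem_univ, true_imp_iff]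
          constructor
          · exact fun h => h.1
          · exact fun h => ⟨h, fun k hk hk' => absurd hk' (by omega)⟩
        rw [h1]
        exact isPreconnected_univ_pi fun k => isPreconnected_Icc
      | succ j ihj =>
        intro hj
        have h0 := ihj (by omega)
        obtain ⟨a, ha⟩ : ∃ a, a = n + 1 - (j + 1) := ⟨_, rfl⟩
        have ha' : n + 1 - j = a + 1 := by omega
        rw [← ha]
        rw [ha'] at h0
        have hc : Continuous fun y : ℕ → ℝ => Function.update y a (bm m φ a (y (a + 1))) :=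
          continuous_id.update a ((bm_continuous a).comp (continuous_apply (a + 1)))
        have h2 := h0.image _ hc.continuousOn
        convert h2 using 1
        ext y
        simp only [mem_ofPred_eq, mem_image]
        constructor
        · rintro ⟨h3, h4⟩
          refine ⟨y, ⟨h3, fun k hk hk' => h4 k (by omega) hk'⟩, ?_⟩
          rw [← h4 a le_rfl (by omega), Function.update_eq_self]
        · rintro ⟨z, ⟨h3, h4⟩, rfl⟩
          refine ⟨fun k => ?_, fun k hk hk' => ?_⟩
          · rcases eq_or_ne k a with rfl | hka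
            · rw [Function.update_self]
              exact bm_mem _ _
            · rw [Function.update_of_ne hka]
              exact h3 k
          · rcases eq_or_ne k a with rfl | hka
            · rw [Function.update_self, Function.update_of_ne (by omega)]
            · rw [Function.update_of_ne hka, Function.update_of_ne (by omega)]
              exact h4 k (by omega) hk'
    have h1 := key (n + 1) le_rfl
    convert h1 using 1
    ext y
    simp only [Thr, mem_ofPred_eq, Nat.sub_self, Nat.zero_le, true_imp_iff]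

/-- the inverse limit -/
def Lim (m : ℕ → ℕ) (φ : ℕ → ℕ → ℕ) : Set (ℕ → ℝ) := ⋂ n, Thr m φ n

theorem Lim_mem {y : ℕ → ℝ} (hy : y ∈ Lim m φ) (k : ℕ) : y k ∈ Icc (0 : ℝ) (m k) :=
  (mem_iInter.1 hy 0).1 k

theorem Lim_eq {y : ℕ → ℝ} (hy : y ∈ Lim m φ) (k : ℕ) : y k = bm m φ k (y (k + 1)) :=
  (mem_iInter.1 hy (k + 1)).2 k (Nat.lt_succ_self k)

theorem Lim_compact : IsCompact (Lim m φ) :=
  (Thr_compact 0).of_isClosed_subset (isClosed_iInter Thr_closed) (iInter_subset _ 0)

theorem Lim_nonempty : (Lim m φ).Nonempty := by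
  refine IsCompact.nonempty_iInter_of_sequence_nonempty_isCompact_isClosed _
    (fun i => Thr_anti (Nat.le_succ i)) (fun n => ?_) (Thr_compact 0) Thr_closed
  -- go down from the coordinate `n`
  have key : ∀ j ≤ n, ∃ y : ℕ → ℝ, (∀ k, y k ∈ Icc (0 : ℝ) (m k)) ∧
      ∀ k, n - j ≤ k → k < n → y k = bm m φ k (y (k + 1)) := by
    intro j
    induction j with
    | zero =>
      intro _
      exact ⟨fun _ => 0, fun k => ⟨le_rfl, Nat.cast_nonneg _⟩, fun k hk hk' => absurd hk' (by omega)⟩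
    | succ j ihj =>
      intro hj
      obtain ⟨z, h3, h4⟩ := ihj (by omega)
      obtain ⟨a, ha⟩ : ∃ a, a = n - (j + 1) := ⟨_, rfl⟩
      rw [← ha]
      refine ⟨Function.update z a (bm m φ a (z (a + 1))), fun k => ?_, fun k hk hk' => ?_⟩
      · rcases eq_or_ne k a with rfl | hka
        · rw [Function.update_self]
          exact bm_mem _ _
        · rw [Function.update_of_ne hka]
          exact h3 k
      · rcases eq_or_ne k a with rfl | hka
        · rw [Function.update_self, Function.update_of_ne (by omega)]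
        · rw [Function.update_of_ne hka, Function.update_of_ne (by omega)]
          exact h4 k (by omega) hk'
  obtain ⟨y, h1, h2⟩ := key n le_rfl
  exact ⟨y, h1, fun k hk => h2 k (by omega) hk⟩

theorem Lim_preconnected : IsPreconnected (Lim m φ) :=
  nested_preconnected Thr_anti Thr_compact Thr_preconnected

end

section

variable {E : Type*} [MetricSpace E] {K : Set E} {m : ℕ → ℕ} {P : ℕ → ℕ → E} {φ : ℕ → ℕ → ℕ}

theorem Tw.bm_lip (h : Tw K m P φ) (k : ℕ) (x y : ℝ) :
    |bm m φ k x - bm m φ k y| ≤ |x - y| := by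
  unfold bm
  refine (abs_max_sub_max_le_max _ _ _ _).trans ?_
  rw [sub_self, abs_zero, max_eq_right (abs_nonneg _)]
  refine (abs_min_sub_min_le_max _ _ _ _).trans ?_
  rw [sub_self, abs_zero, max_eq_left (abs_nonneg _)]
  refine pl_lip (fun i hi => ?_) x y
  have h1 := h.ph1 k i hi
  have h2 : (φ k i : ℝ) ≤ φ k (i + 1) + 1 := by exact_mod_cast h1.1
  have h3 : (φ k (i + 1) : ℝ) ≤ φ k i + 1 := by exact_mod_cast h1.2
  rw [abs_le]
  constructor <;> linarith

theorem Tw.bm_nat (h : Tw K m P φ) {k j : ℕ} (hj : j ≤ m (k + 1)) :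
    bm m φ k j = φ k j := by
  have h1 : (φ k j : ℝ) ≤ m k := by exact_mod_cast h.ph k j hj
  rw [bm, pl_nat (fun i => (φ k i : ℝ)) hj, min_eq_left h1, max_eq_right (Nat.cast_nonneg _)]

theorem Tw.lip (h : Tw K m P φ) {y z : ℕ → ℝ} (hy : y ∈ Lim m φ) (hz : z ∈ Lim m φ) {j k : ℕ}
    (hjk : j ≤ k) : |y j - z j| ≤ |y k - z k| := by
  induction k, hjk using Nat.le_induction with
  | base => exact le_rfl
  | succ k _ ih =>
    refine ih.trans ?_
    rw [Lim_eq hy k, Lim_eq hz k]
    exact h.bm_lip k _ _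

theorem Tw.near (h : Tw K m P φ) {k i j : ℕ} (hi : i ≤ m k) (hj : j ≤ m k) (h1 : i ≤ j + 1)
    (h2 : j ≤ i + 1) : dist (P k i) (P k j) ≤ (1 / 2) ^ k := by
  rcases lt_trichotomy i j with h3 | h3 | h3
  · obtain rfl : j = i + 1 := by omega
    exact h.step k i (by omega)
  · rw [h3, dist_self]
    positivity
  · obtain rfl : i = j + 1 := by omega
    rw [dist_comm]
    exact h.step k j (by omega)

theorem fl_le {M : ℕ} {x : ℝ} (hx : x ∈ Icc (0 : ℝ) M) : ⌊x⌋₊ ≤ M := by
  have h1 := Nat.floor_le_floor hx.2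
  rwa [Nat.floor_natCast] at h1

theorem fl_near {x y : ℝ} (hx : 0 ≤ x) (h : |x - y| < 1) : ⌊x⌋₊ ≤ ⌊y⌋₊ + 1 := by
  have h1 : x < y + 1 := by linarith [(abs_lt.1 h).2]
  have h2 := Nat.floor_le hx
  have h3 := Nat.lt_floor_add_one y
  have h4 : (⌊x⌋₊ : ℝ) < ⌊y⌋₊ + 1 + 1 := by linarith
  have h5 : ⌊x⌋₊ < ⌊y⌋₊ + 1 + 1 := by exact_mod_cast h4
  omega

theorem Tw.next (h : Tw K m P φ) {y : ℕ → ℝ} (hy : y ∈ Lim m φ) (k : ℕ) :
    dist (P k ⌊y k⌋₊) (P (k + 1) ⌊y (k + 1)⌋₊) ≤ 2 * (1 / 2) ^ k := by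
  have h0 := Lim_mem hy k
  have h1 := Lim_mem hy (k + 1)
  have hi : ⌊y (k + 1)⌋₊ ≤ m (k + 1) := fl_le h1
  have h2 := h.comm k _ hi
  have h3 : |y k - φ k ⌊y (k + 1)⌋₊| < 1 := by
    rw [← h.bm_nat hi, Lim_eq hy k]
    refine (h.bm_lip k _ _).trans_lt ?_
    rw [abs_of_nonneg (sub_nonneg.2 (Nat.floor_le h1.1))]
    linarith [Nat.lt_floor_add_one (y (k + 1))]
  have h4 := fl_near h0.1 h3
  rw [Nat.floor_natCast] at h4
  have h5 := fl_near (Nat.cast_nonneg _) (by rwa [abs_sub_comm] at h3)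
  rw [Nat.floor_natCast] at h5
  have h6 := h.near (fl_le h0) (h.ph k _ hi) h4 h5
  calc dist (P k ⌊y k⌋₊) (P (k + 1) ⌊y (k + 1)⌋₊) ≤
      dist (P k ⌊y k⌋₊) (P k (φ k ⌊y (k + 1)⌋₊)) +
        dist (P k (φ k ⌊y (k + 1)⌋₊)) (P (k + 1) ⌊y (k + 1)⌋₊) := dist_triangle _ _ _
    _ ≤ (1 / 2) ^ k + (1 / 2) ^ k := by
        rw [dist_comm (P k (φ k ⌊y (k + 1)⌋₊))]
        exact add_le_add h6 h2
    _ = 2 * (1 / 2) ^ k := by ring

theorem Tw.exists_lim (h : Tw K m P φ) (hK : IsCompact K) {y : ℕ → ℝ} (hy : y ∈ Lim m φ) :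
    ∃ x ∈ K, Tendsto (fun k => P k ⌊y k⌋₊) atTop (𝓝 x) := by
  have hc : CauchySeq fun k => P k ⌊y k⌋₊ :=
    cauchySeq_of_le_geometric (1 / 2) 2 (by norm_num) fun k => h.next hy k
  exact cauchySeq_tendsto_of_isComplete hK.isComplete (fun k => h.mem k _ (fl_le (Lim_mem hy k))) hc

theorem Tw.dist_lim (h : Tw K m P φ) {y : ℕ → ℝ} (hy : y ∈ Lim m φ) {x : E}
    (hx : Tendsto (fun k => P k ⌊y k⌋₊) atTop (𝓝 x)) (k : ℕ) :
    dist (P k ⌊y k⌋₊) x ≤ 4 * (1 / 2) ^ k := by
  have h1 := dist_le_of_le_geometric_of_tendsto (1 / 2) 2 (by norm_num) (fun k => h.next hy k) hx k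
  refine h1.trans (le_of_eq ?_)
  ring

theorem Tw.surj (h : Tw K m P φ) {x : E} (hx : x ∈ K) :
    ∃ y ∈ Lim m φ, Tendsto (fun k => P k ⌊y k⌋₊) atTop (𝓝 x) := by
  obtain ⟨D, hD⟩ : ∃ D : ℕ → Set (ℕ → ℝ), D = fun k => Thr m φ k ∩
      {y | ∀ j ≤ k, y j ∈ {r : ℝ | ∃ i : ℕ, i ≤ m j ∧ r = i ∧ dist x (P j i) ≤ 2 * (1 / 2) ^ j}} :=
    ⟨_, rfl⟩
  have hfin : ∀ j, {r : ℝ | ∃ i : ℕ, i ≤ m j ∧ r = i ∧
      dist x (P j i) ≤ 2 * (1 / 2) ^ j}.Finite := by
    intro j
    refine ((Finset.range (m j + 1)).finite_toSet.image fun i : ℕ => (i : ℝ)).subset ?_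
    rintro r ⟨i, hi, rfl, -⟩
    exact ⟨i, by simpa using Nat.lt_succ_of_le hi, rfl⟩
  have hcl : ∀ k, IsClosed (D k) := by
    intro k
    rw [hD]
    refine (Thr_closed k).inter ?_
    have h1 : {y : ℕ → ℝ | ∀ j ≤ k, y j ∈ {r : ℝ | ∃ i : ℕ, i ≤ m j ∧ r = i ∧
        dist x (P j i) ≤ 2 * (1 / 2) ^ j}} = ⋂ j, ⋂ _ : j ≤ k, {y : ℕ → ℝ | y j ∈
          {r : ℝ | ∃ i : ℕ, i ≤ m j ∧ r = i ∧ dist x (P j i) ≤ 2 * (1 / 2) ^ j}} := by
      ext y
      simp only [mem_ofPred_eq, mem_iInter]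
    rw [h1]
    exact isClosed_iInter fun j => isClosed_iInter fun _ =>
      (hfin j).isClosed.preimage (continuous_apply j)
  have hne : ∀ k, ∀ i ≤ m k, dist x (P k i) ≤ 2 * (1 / 2) ^ k →
      ∃ y ∈ D k, y k = i := by
    intro k
    induction k with
    | zero =>
      intro i hi hd
      refine ⟨fun j => if j = 0 then i else 0, ?_, if_pos rfl⟩
      rw [hD]
      refine ⟨⟨fun j => ?_, fun j hj => absurd hj (Nat.not_lt_zero j)⟩, fun j hj => ?_⟩
      · dsimp only
        split_ifs with h1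
        · rw [h1]
          exact ⟨Nat.cast_nonneg _, by exact_mod_cast hi⟩
        · exact ⟨le_rfl, Nat.cast_nonneg _⟩
      · obtain rfl : j = 0 := by omega
        exact ⟨i, hi, if_pos rfl, hd⟩
    | succ k ih =>
      intro i hi hd
      have h1 : dist x (P k (φ k i)) ≤ 2 * (1 / 2) ^ k := by
        calc dist x (P k (φ k i)) ≤ dist x (P (k + 1) i) + dist (P (k + 1) i) (P k (φ k i)) :=
              dist_triangle _ _ _
          _ ≤ 2 * (1 / 2) ^ (k + 1) + (1 / 2) ^ k := add_le_add hd (h.comm k i hi)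
          _ = 2 * (1 / 2) ^ k := by ring
      obtain ⟨y, hy, hyk⟩ := ih (φ k i) (h.ph k i hi) h1
      rw [hD] at hy ⊢
      obtain ⟨⟨hy1, hy2⟩, hy3⟩ := hy
      refine ⟨Function.update y (k + 1) i, ⟨⟨fun j => ?_, fun j hj => ?_⟩, fun j hj => ?_⟩,
        Function.update_self _ _ _⟩
      · rcases eq_or_ne j (k + 1) with rfl | hj
        · rw [Function.update_self]
          exact ⟨Nat.cast_nonneg _, by exact_mod_cast hi⟩
        · rw [Function.update_of_ne hj]
          exact hy1 j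
      · rcases eq_or_ne j k with rfl | hjk
        · rw [Function.update_of_ne (by omega), Function.update_self, hyk, h.bm_nat hi]
        · rw [Function.update_of_ne (by omega), Function.update_of_ne (by omega)]
          exact hy2 j (by omega)
      · rcases eq_or_ne j (k + 1) with rfl | hj'
        · rw [Function.update_self]
          exact ⟨i, hi, rfl, hd⟩
        · rw [Function.update_of_ne hj']
          exact hy3 j (by omega)
  have hint : (⋂ k, D k).Nonempty := by
    refine IsCompact.nonempty_iInter_of_sequence_nonempty_isCompact_isClosed D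
      (fun k y hy => ?_) (fun k => ?_) ?_ hcl
    · rw [hD] at hy ⊢
      exact ⟨Thr_anti (Nat.le_succ k) hy.1, fun j hj => hy.2 j (hj.trans (Nat.le_succ k))⟩
    · obtain ⟨i, hi, hd⟩ := h.dense k x hx
      obtain ⟨y, hy, -⟩ := hne k i hi (hd.trans (by
        have : (0 : ℝ) ≤ (1 / 2) ^ k := by positivity
        linarith))
      exact ⟨y, hy⟩
    · refine (Thr_compact (m := m) (φ := φ) 0).of_isClosed_subset (hcl 0) ?_
      rw [hD]
      exact inter_subset_left
  obtain ⟨y, hy⟩ := hint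
  have hy' : ∀ k, y ∈ D k := fun k => mem_iInter.1 hy k
  rw [hD] at hy'
  refine ⟨y, mem_iInter.2 fun k => (hy' k).1, ?_⟩
  have h1 : ∀ k, dist (P k ⌊y k⌋₊) x ≤ 2 * (1 / 2) ^ k := by
    intro k
    obtain ⟨i, -, h2, h3⟩ := (hy' k).2 k le_rfl
    rw [h2, Nat.floor_natCast, dist_comm]
    exact h3
  rw [tendsto_iff_dist_tendsto_zero]
  refine squeeze_zero (fun k => dist_nonneg) h1 ?_
  have h2 := (tendsto_pow_atTop_nhds_zero_of_lt_one (by norm_num : (0 : ℝ) ≤ 1 / 2)
    (by norm_num)).const_mul 2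
  rwa [mul_zero] at h2

end

/-! ## Chains -/

theorem chain_of_coord {Y : Type*} [MetricSpace Y] [CompactSpace Y] [ConnectedSpace Y]
    (c : ℕ → Y → ℝ) (hc : ∀ k, Continuous (c k))
    (hl : ∀ j k, j ≤ k → ∀ y z, |c j y - c j z| ≤ |c k y - c k z|)
    (hs : ∀ y z, (∀ k, c k y = c k z) → y = z) (ε : ℝ) (hε : 0 < ε) :
    ∃ (n : ℕ) (U : Fin n → Set Y),
      (∀ i, IsOpen (U i)) ∧ (⋃ i, U i) = Set.univ ∧ (∀ i, Metric.diam (U i) < ε) ∧
      ∀ i j : Fin n, ((U i ∩ U j).Nonempty ↔ ((i : ℕ) ≤ (j : ℕ) + 1 ∧ (j : ℕ) ≤ (i : ℕ) + 1)) := by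
  -- a coordinate which controls the distance
  obtain ⟨k, hk⟩ : ∃ k, ∀ y z, |c k y - c k z| ≤ 1 / ((k : ℝ) + 1) → dist y z < ε / 2 := by
    by_contra hcon
    push Not at hcon
    obtain ⟨D, hD⟩ : ∃ D : ℕ → Set (Y × Y), D = fun k =>
        {p | |c k p.1 - c k p.2| ≤ 1 / ((k : ℝ) + 1) ∧ ε / 2 ≤ dist p.1 p.2} := ⟨_, rfl⟩
    have hcl : ∀ k, IsClosed (D k) := by
      intro k
      rw [hD]
      have e1 : Continuous fun p : Y × Y => |c k p.1 - c k p.2| :=
        (((hc k).comp continuous_fst).sub ((hc k).comp continuous_snd)).abs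
      have e2 : Continuous fun p : Y × Y => dist p.1 p.2 := continuous_fst.dist continuous_snd
      exact (isClosed_le e1 continuous_const).inter (isClosed_le continuous_const e2)
    have hint : (⋂ k, D k).Nonempty := by
      refine IsCompact.nonempty_iInter_of_sequence_nonempty_isCompact_isClosed D
        (fun k p hp => ?_) (fun k => ?_) (hcl 0).isCompact hcl
      · rw [hD] at hp ⊢
        refine ⟨?_, hp.2⟩
        refine (hl k (k + 1) (Nat.le_succ k) _ _).trans (hp.1.trans ?_)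
        push_cast
        have hk0 : (0 : ℝ) ≤ k := Nat.cast_nonneg _
        exact one_div_le_one_div_of_le (by linarith) (by linarith)
      · obtain ⟨y, z, h1, h2⟩ := hcon k
        rw [hD]
        exact ⟨(y, z), h1, h2⟩
    obtain ⟨⟨y, z⟩, hp⟩ := hint
    have hp' : ∀ k, (y, z) ∈ D k := fun k => mem_iInter.1 hp k
    rw [hD] at hp'
    have hyz : y = z := by
      refine hs y z fun j => ?_
      have h1 : ∀ k, j ≤ k → |c j y - c j z| ≤ 1 / ((k : ℝ) + 1) := fun k hjk =>
        (hl j k hjk y z).trans (hp' k).1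
      have h2 : |c j y - c j z| ≤ 0 := by
        refine ge_of_tendsto tendsto_one_div_add_atTop_nhds_zero_nat ?_
        filter_upwards [eventually_ge_atTop j] with k hk using h1 k hk
      have h3 := abs_eq_zero.1 (le_antisymm h2 (abs_nonneg _))
      linarith
    have h1 := (hp' 0).2
    simp only [hyz, dist_self] at h1
    linarith
  obtain ⟨y0, -, hy0⟩ := isCompact_univ.exists_isMinOn univ_nonempty (hc k).continuousOn
  obtain ⟨y1, -, hy1⟩ := isCompact_univ.exists_isMaxOn univ_nonempty (hc k).continuousOn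
  have hmin : ∀ y, c k y0 ≤ c k y := fun y => hy0 (mem_univ y)
  have hmax : ∀ y, c k y ≤ c k y1 := fun y => hy1 (mem_univ y)
  have hval : ∀ t ∈ Icc (c k y0) (c k y1), ∃ y, c k y = t := fun t ht =>
    intermediate_value_univ y0 y1 (hc k) ht
  rcases eq_or_lt_of_le (hmin y1) with heq | hlt
  · -- the coordinate is constant
    refine ⟨1, fun _ => univ, fun _ => isOpen_univ, ?_, fun _ => ?_, fun i j => ?_⟩
    · exact eq_univ_of_forall fun y => mem_iUnion.2 ⟨0, mem_univ y⟩
    · refine lt_of_le_of_lt (Metric.diam_le_of_forall_dist_le (by linarith : 0 ≤ ε / 2)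
        fun y _ z _ => (hk y z ?_).le) (by linarith)
      have h1 : c k y = c k z := by
        have := hmin y
        have := hmin z
        have := hmax y
        have := hmax z
        linarith
      rw [h1, sub_self, abs_zero]
      positivity
    · rw [Set.inter_self]
      have hi := i.2
      have hj := j.2
      exact ⟨fun _ => ⟨by omega, by omega⟩, fun _ => univ_nonempty⟩
  · obtain ⟨a, ha⟩ : ∃ a, a = c k y0 := ⟨_, rfl⟩
    obtain ⟨b, hb⟩ : ∃ b, b = c k y1 := ⟨_, rfl⟩
    rw [← ha] at hmin hval hlt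
    rw [← hb] at hmax hval hlt
    obtain ⟨N, hN⟩ := exists_nat_gt (3 / 2 * (b - a) * ((k : ℝ) + 1))
    have hk0 : (0 : ℝ) ≤ k := Nat.cast_nonneg _
    have hba : 0 < b - a := by linarith
    have hN0 : (0 : ℝ) < N := lt_trans (by positivity) hN
    obtain ⟨η, hη⟩ : ∃ η, η = (b - a) / N := ⟨_, rfl⟩
    have hη0 : 0 < η := by
      rw [hη]
      positivity
    have hNη : N * η = b - a := by
      rw [hη]
      field_simp
    have hη1 : 3 / 2 * η ≤ 1 / ((k : ℝ) + 1) := by
      rw [le_div_iff₀ (by linarith), hη]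
      have e1 : 3 / 2 * ((b - a) / N) * ((k : ℝ) + 1) = 3 / 2 * (b - a) * ((k : ℝ) + 1) / N := by
        ring
      rw [e1, div_le_one hN0]
      exact hN.le
    refine ⟨N + 1, fun i => {y | |c k y - (a + i * η)| < 3 / 4 * η}, fun i => ?_, ?_, fun i => ?_,
      fun i j => ?_⟩
    · exact isOpen_lt (((hc k).sub continuous_const).abs) continuous_const
    · refine eq_univ_of_forall fun y => mem_iUnion.2 ?_
      have h1 : 0 ≤ (c k y - a) / η := div_nonneg (sub_nonneg.2 (hmin y)) hη0.le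
      have h2 : (c k y - a) / η ≤ N := by
        rw [div_le_iff₀ hη0, hNη]
        linarith [hmax y]
      obtain ⟨q, hq⟩ : ∃ q : ℕ, q = ⌊(c k y - a) / η + 1 / 2⌋₊ := ⟨_, rfl⟩
      have h3 : (q : ℝ) ≤ (c k y - a) / η + 1 / 2 := by
        rw [hq]
        exact Nat.floor_le (by linarith)
      have h4 : (c k y - a) / η + 1 / 2 < q + 1 := by
        rw [hq]
        exact Nat.lt_floor_add_one _
      have h5 : q < N + 1 := by
        have : (q : ℝ) < N + 1 := by linarith
        exact_mod_cast this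
      refine ⟨⟨q, h5⟩, ?_⟩
      have e1 : c k y - (a + q * η) = ((c k y - a) / η - q) * η := by
        field_simp
        ring
      simp only [mem_ofPred_eq]
      rw [e1, abs_mul, abs_of_pos hη0]
      refine mul_lt_mul_of_pos_right ?_ hη0
      rw [abs_lt]
      constructor <;> linarith
    · refine lt_of_le_of_lt (Metric.diam_le_of_forall_dist_le (by linarith : 0 ≤ ε / 2)
        fun y hy z hz => (hk y z ?_).le) (by linarith)
      refine le_trans ?_ hη1
      have h1 : |c k y - (a + i * η)| < 3 / 4 * η := hy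
      have h2 : |c k z - (a + i * η)| < 3 / 4 * η := hz
      rw [abs_lt] at h1 h2
      rw [abs_le]
      constructor <;> linarith [h1.1, h1.2, h2.1, h2.2]
    · constructor
      · rintro ⟨y, h1, h2⟩
        have h1' : |c k y - (a + i * η)| < 3 / 4 * η := h1
        have h2' : |c k y - (a + j * η)| < 3 / 4 * η := h2
        rw [abs_lt] at h1' h2'
        have h3 : ((i : ℕ) : ℝ) * η < ((j : ℕ) + 2) * η := by nlinarith [h1'.1, h2'.2]
        have h4 : ((j : ℕ) : ℝ) * η < ((i : ℕ) + 2) * η := by nlinarith [h1'.2, h2'.1]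
        have h5 : ((i : ℕ) : ℝ) < (j : ℕ) + 2 := lt_of_mul_lt_mul_right h3 hη0.le
        have h6 : ((j : ℕ) : ℝ) < (i : ℕ) + 2 := lt_of_mul_lt_mul_right h4 hη0.le
        have h7 : (i : ℕ) < (j : ℕ) + 2 := by exact_mod_cast h5
        have h8 : (j : ℕ) < (i : ℕ) + 2 := by exact_mod_cast h6
        omega
      · rintro ⟨h1, h2⟩
        have hi := i.2
        have hj := j.2
        obtain ⟨t, ht⟩ : ∃ t : ℝ, t = (((i : ℕ) : ℝ) + (j : ℕ)) / 2 := ⟨_, rfl⟩
        have h3 : ((i : ℕ) : ℝ) ≤ (j : ℕ) + 1 := by exact_mod_cast h1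
        have h4 : ((j : ℕ) : ℝ) ≤ (i : ℕ) + 1 := by exact_mod_cast h2
        have h5 : ((i : ℕ) : ℝ) ≤ N := by exact_mod_cast Nat.lt_succ_iff.1 hi
        have h6 : ((j : ℕ) : ℝ) ≤ N := by exact_mod_cast Nat.lt_succ_iff.1 hj
        have h7 : (0 : ℝ) ≤ (i : ℕ) := Nat.cast_nonneg _
        have h8 : (0 : ℝ) ≤ (j : ℕ) := Nat.cast_nonneg _
        have h9 : t * η ≤ N * η := mul_le_mul_of_nonneg_right (by linarith) hη0.le
        have h10 : 0 ≤ t * η := mul_nonneg (by linarith) hη0.le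
        obtain ⟨y, hy⟩ := hval (a + t * η) ⟨by linarith, by linarith⟩
        refine ⟨y, ?_, ?_⟩
        · simp only [mem_ofPred_eq]
          rw [hy, show a + t * η - (a + ((i : ℕ) : ℝ) * η) = (t - (i : ℕ)) * η by ring, abs_mul,
            abs_of_pos hη0]
          refine mul_lt_mul_of_pos_right ?_ hη0
          rw [abs_lt]
          constructor <;> linarith
        · simp only [mem_ofPred_eq]
          rw [hy, show a + t * η - (a + ((j : ℕ) : ℝ) * η) = (t - (j : ℕ)) * η by ring, abs_mul,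
            abs_of_pos hη0]
          refine mul_lt_mul_of_pos_right ?_ hη0
          rw [abs_lt]
          constructor <;> linarith

/-- **A compact set described by a tower of walks is a continuous image of a chainable
continuum.** -/
theorem wc_of_tower {E : Type*} [MetricSpace E] {K : Set E} (hK : IsCompact K) {m : ℕ → ℕ}
    {P : ℕ → ℕ → E} {φ : ℕ → ℕ → ℕ} (h : Tw K m P φ) :
    ∃ (Y : Type) (_ : MetricSpace Y), CompactSpace Y ∧ ConnectedSpace Y ∧
      (∀ ε : ℝ, 0 < ε → ∃ (n : ℕ) (U : Fin n → Set Y),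
        (∀ i, IsOpen (U i)) ∧ (⋃ i, U i) = Set.univ ∧ (∀ i, Metric.diam (U i) < ε) ∧
        ∀ i j : Fin n, ((U i ∩ U j).Nonempty ↔ ((i : ℕ) ≤ (j : ℕ) + 1 ∧ (j : ℕ) ≤ (i : ℕ) + 1))) ∧
      ∃ f : Y → E, Continuous f ∧ Set.range f = K := by
  let _ : MetricSpace (Lim m φ) := TopologicalSpace.metrizableSpaceMetric (Lim m φ)
  have hcomp : CompactSpace (Lim m φ) := isCompact_iff_compactSpace.1 Lim_compact
  have hne : Nonempty (Lim m φ) := Lim_nonempty.to_subtype
  have hpre : PreconnectedSpace (Lim m φ) :=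
    isPreconnected_iff_preconnectedSpace.1 Lim_preconnected
  have hconn : ConnectedSpace (Lim m φ) := ⟨hne⟩
  have hcoord : ∀ k, Continuous fun y : Lim m φ => (y : ℕ → ℝ) k := fun k =>
    (continuous_apply k).comp continuous_subtype_val
  refine ⟨Lim m φ, inferInstance, hcomp, hconn, fun ε hε => ?_, ?_⟩
  · refine chain_of_coord (fun k (y : Lim m φ) => (y : ℕ → ℝ) k) hcoord (fun j k hjk y z => ?_)
      (fun y z hyz => ?_) ε hε
    · exact h.lip y.2 z.2 hjk
    · exact Subtype.ext (funext hyz)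
  · choose f hf using fun y : Lim m φ => h.exists_lim hK y.2
    refine ⟨f, ?_, ?_⟩
    · rw [Metric.continuous_iff']
      intro y ε hε
      obtain ⟨k, hk⟩ := exists_pow_lt_of_lt_one (by linarith : 0 < ε / 9)
        (by norm_num : (1 / 2 : ℝ) < 1)
      have h1 : ∀ᶠ z : Lim m φ in 𝓝 y, |(z : ℕ → ℝ) k - (y : ℕ → ℝ) k| < 1 := by
        have h2 : Continuous fun z : Lim m φ => |(z : ℕ → ℝ) k - (y : ℕ → ℝ) k| :=
          ((hcoord k).sub continuous_const).abs
        refine h2.continuousAt.eventually_lt continuousAt_const ?_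
        rw [sub_self, abs_zero]
        exact zero_lt_one
      filter_upwards [h1] with z hz
      have hyk := Lim_mem y.2 k
      have hzk := Lim_mem z.2 k
      have h3 := h.near (fl_le hzk) (fl_le hyk) (fl_near hzk.1 hz)
        (fl_near hyk.1 (by rwa [abs_sub_comm] at hz))
      have h4 := h.dist_lim y.2 (hf y).2 k
      have h5 := h.dist_lim z.2 (hf z).2 k
      calc dist (f z) (f y) ≤ dist (f z) (P k ⌊(z : ℕ → ℝ) k⌋₊) +
            dist (P k ⌊(z : ℕ → ℝ) k⌋₊) (P k ⌊(y : ℕ → ℝ) k⌋₊) +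
              dist (P k ⌊(y : ℕ → ℝ) k⌋₊) (f y) := dist_triangle4 _ _ _ _
        _ ≤ 4 * (1 / 2) ^ k + (1 / 2) ^ k + 4 * (1 / 2) ^ k := by
            rw [dist_comm (f z)]
            exact add_le_add (add_le_add h5 h3) h4
        _ = 9 * (1 / 2) ^ k := by ring
        _ < ε := by linarith
    · refine Subset.antisymm ?_ fun x hx => ?_
      · rintro _ ⟨y, rfl⟩
        exact (hf y).1
      · obtain ⟨y, hy, hyx⟩ := h.surj hx
        exact ⟨⟨y, hy⟩, tendsto_nhds_unique (hf ⟨y, hy⟩).2 hyx⟩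

end Pool.Agent.Lib.MP_40f35d_gt.Gs
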